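import Mathlib
import Pool.Agent.Helper278.TrAlg

set_option autoImplicit false
set_option linter.unusedSectionVars false

open scoped ComplexConjugate
open Pool.Agent.Helper278

namespace Pool.Agent.Helper133.OP

/-- The free group on three generators. -/
abbrev KF : Type := FreeGroup (Fin 3)

/-- The charge `KF → ℤ/3`: the generator `0` has charge `1`, the other two have charge `0`. -/
def chgHom : KF →* Multiplicative (ZMod 3) :=
  FreeGroup.lift fun i : Fin 3 => Multiplicative.ofAdd (if i = 0 then (1 : ZMod 3) else 0)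

/-- The charge. -/
def chg (x : KF) : ZMod 3 := Multiplicative.toAdd (chgHom x)

theorem chg_mul (x y : KF) : chg (x * y) = chg x + chg y := by
  unfold chg; rw [map_mul, toAdd_mul]

theorem chg_one : chg 1 = 0 := by
  unfold chg; rw [map_one, toAdd_one]

theorem chg_inv (x : KF) : chg x⁻¹ = -chg x := by
  unfold chg; rw [map_inv, toAdd_inv]

theorem chg_of (i : Fin 3) : chg (FreeGroup.of i) = if i = 0 then 1 else 0 := by
  unfold chg chgHom; rw [FreeGroup.lift_apply_of, toAdd_ofAdd]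

/-- The group of the sequences in `KF` that are eventually trivial. -/
def GS : Subgroup (ℕ → KF) where
  carrier := {g | ∃ N, ∀ n, N ≤ n → g n = 1}
  one_mem' := ⟨0, fun _ _ => rfl⟩
  mul_mem' := by
    rintro a b ⟨N, hN⟩ ⟨M, hM⟩
    refine ⟨max N M, fun n hn => ?_⟩
    show a n * b n = 1
    rw [hN n (le_trans (le_max_left _ _) hn), hM n (le_trans (le_max_right _ _) hn), one_mul]
  inv_mem' := by
    rintro a ⟨N, hN⟩
    refine ⟨N, fun n hn => ?_⟩
    show (a n)⁻¹ = 1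
    rw [hN n hn, inv_one]

/-- the group as a type -/
abbrev SG : Type := {g : ℕ → KF // g ∈ GS}

/-- The bi-additive form `B(x, y) = ∑_{n < m} chg (x m) chg (y n)`. -/
noncomputable def BB (x y : SG) : ZMod 3 :=
  ∑ᶠ m, chg (x.1 m) * ∑ n ∈ Finset.range m, chg (y.1 n)

/-- The total charge. -/
noncomputable def qq (x : SG) : ZMod 3 := ∑ᶠ m, chg (x.1 m)

/-- The element with the entry `k` at the places in `W`. -/
def dl (W : Finset ℕ) (k : KF) : SG :=
  ⟨fun n => if n ∈ W then k else 1, by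
    obtain ⟨N, hN⟩ := W.exists_nat_subset_range
    refine ⟨N, fun n hn => if_neg fun h => ?_⟩
    exact absurd (Finset.mem_range.1 (hN h)) (not_lt.2 hn)⟩

/-- The character `ℤ/3 → ℂ`. -/
noncomputable def w3 (a : ZMod 3) : ℂ := ZMod.stdAddChar a

/-- A tracial star algebra with an orthonormal basis of unitaries that multiply like the group `SG`,
twisted by the cocycle `w3 (B(x, y))`. -/
structure TG {A : Type*} [Ring A] [StarRing A] [Algebra ℂ A] (τ : A →ₗ[ℂ] ℂ) (v : SG → A) :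
    Prop where
  tr : TrAlg τ
  one : v 1 = 1
  mul : ∀ g h, v g * v h = w3 (BB g h) • v (g * h)
  star_v : ∀ g, star (v g) = w3 (BB g g) • v g⁻¹
  tau_v : ∀ g, g ≠ 1 → τ (v g) = 0
  parseval : ∀ x : A, HasSum (fun g : SG => ‖τ (star (v g) * x)‖ ^ 2) (n2 τ x ^ 2)

/-- Kaplansky density for unitaries, with constant `2`. -/
def Kap {A : Type*} [Ring A] [StarRing A] [Algebra ℂ A] (τ : A →ₗ[ℂ] ℂ) (v : SG → A) : Prop :=
  ∀ x ∈ unitary A, ∀ ε : ℝ, 0 < ε → ∃ (F : Finset SG) (a : SG → ℂ),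
    n2 τ (x - ∑ g ∈ F, a g • v g) < ε ∧
    ∀ z : A, n2 τ (z * ∑ g ∈ F, a g • v g) ≤ 2 * n2 τ z ∧
      n2 τ ((∑ g ∈ F, a g • v g) * z) ≤ 2 * n2 τ z

/-- The coefficient of `x` at `g`. -/
noncomputable def cf {A : Type*} [Ring A] [StarRing A] [Algebra ℂ A] (τ : A →ₗ[ℂ] ℂ) (v : SG → A)
    (x : A) (g : SG) : ℂ := τ (star (v g) * x)

/-- The 2-norm of the part of `x` on `D`. -/
noncomputable def mD {A : Type*} [Ring A] [StarRing A] [Algebra ℂ A] (τ : A →ₗ[ℂ] ℂ) (v : SG → A)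
    (D : Set SG) (x : A) : ℝ := Real.sqrt (∑' g, D.indicator (fun g => ‖cf τ v x g‖ ^ 2) g)

/-- The `v g` are orthonormal. -/
def Orth {A : Type*} [Ring A] [StarRing A] [Algebra ℂ A] (τ : A →ₗ[ℂ] ℂ) (v : SG → A) : Prop :=
  (∀ g, τ (star (v g) * v g) = 1) ∧ ∀ g k, g ≠ k → τ (star (v g) * v k) = 0

/-- The inner product of the parts of `x` and `y` on `D`. -/
noncomputable def iD {A : Type*} [Ring A] [StarRing A] [Algebra ℂ A] (τ : A →ₗ[ℂ] ℂ) (v : SG → A)
    (D : Set SG) (x y : A) : ℂ := ∑' g, D.indicator (fun g => conj (cf τ v x g) * cf τ v y g) g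

/-- The conditions of the game. Coordinates: `p = 0, 1, 2`; `q = 3, 4, 5`; `u = 6`; `q' = 7, 8`;
`u' = 9`. -/
noncomputable def FF {A : Type*} [Ring A] [StarRing A] [Algebra ℂ A] (φ : A → ℂ) (c : ℂ)
    (x : Fin 10 → A) : Fin 6 → ℝ :=
  ![n2 φ (star (x 6) * x 9 * x 3 - x 3 * (star (x 6) * x 9)),
    n2 φ (star (x 6) * x 9 * x 4 - x 4 * (star (x 6) * x 9)),
    n2 φ (star (x 6) * x 9 * x 5 - x 5 * (star (x 6) * x 9)),
    n2 φ (x 9 * x 6 - c • (x 6 * x 9)),
    n2 φ (x 7 * x 9 - x 9 * x 7) - 18 * (n2 φ (x 7 * x 0 - x 0 * x 7) +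
      n2 φ (x 7 * x 1 - x 1 * x 7) + n2 φ (x 7 * x 2 - x 2 * x 7)),
    n2 φ (x 8 * x 9 - x 9 * x 8) - 18 * (n2 φ (x 8 * x 0 - x 0 * x 8) +
      n2 φ (x 8 * x 1 - x 1 * x 8) + n2 φ (x 8 * x 2 - x 2 * x 8))]

/-- Iterated quantifiers over unitaries: `true` is an existential quantifier. -/
def Gq {A : Type*} [Ring A] [StarRing A] (R : (Fin 10 → A) → Prop) :
    List (Bool × Fin 10) → (Fin 10 → A) → Prop
  | [], x => R x
  | (true, j) :: l, x => ∃ y ∈ unitary A, Gq R l (Function.update x j y)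
  | (false, j) :: l, x => ∀ y ∈ unitary A, Gq R l (Function.update x j y)

/-- The quantifier prefix of the game. -/
def gl : List (Bool × Fin 10) :=
  [(true, 0), (true, 1), (true, 2), (false, 3), (false, 4), (false, 5), (true, 6), (false, 7),
    (false, 8), (true, 9)]

/-- The game. -/
def Game {A : Type*} [Ring A] [StarRing A] [Algebra ℂ A] (φ : A → ℂ) (c : ℂ) (ε : ℝ) : Prop :=
  Gq (fun x => ∀ k, FF φ c x k ≤ ε) gl (1 : Fin 10 → A)

end Pool.Agent.Helper133.OP
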