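import Mathlib
import Pool.Agent.Helper133.OP.Defs

set_option autoImplicit false
set_option linter.unusedSectionVars false
set_option linter.unusedVariables false

open scoped ComplexConjugate
open Pool.Agent.Helper278

namespace Pool.Agent.Helper133.OP



open scoped Topology
open Filter

/-- charge zero elements -/
theorem BB_dl (W : Finset ℕ) (k : KF) (hk : chg k = 0) (x : SG) :
    BB (dl W k) x = 0 ∧ BB x (dl W k) = 0 ∧ qq (dl W k) = 0 := by
  have h0 : ∀ n, chg ((dl W k).1 n) = 0 := by
    intro n
    show chg (if n ∈ W then k else 1) = 0
    split
    · exact hk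
    · exact chg_one
  refine ⟨?_, ?_, ?_⟩
  · unfold BB
    simp only [h0, zero_mul]
    exact finsum_zero
  · unfold BB
    simp only [h0, Finset.sum_const_zero, mul_zero]
    exact finsum_zero
  · unfold qq
    simp only [h0]
    exact finsum_zero

end Pool.Agent.Helper133.OP
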