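import Mathlib
import Pool.Agent.Helper133.OP.Defs

set_option autoImplicit false
set_option linter.unusedSectionVars false
set_option linter.unusedVariables false

open scoped ComplexConjugate
open Pool.Agent.Helper278

namespace Pool.Agent.Helper133.OP



open scoped Topology
open Filter

/-- `x` lives from `N` on, `y` lives below `N` -/
theorem BB_high (N : ℕ) (x y : SG) (hx : ∀ n, n < N → x.1 n = 1) (hy : ∀ n, N ≤ n → y.1 n = 1) :
    BB x y = qq x * qq y := by
  have hsup : (Function.support fun m => chg (x.1 m)).Finite := by
    obtain ⟨M, hM⟩ := x.2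
    refine (Set.finite_Iio M).subset fun m hm => ?_
    rw [Function.mem_support] at hm
    by_contra h
    rw [Set.mem_Iio, not_lt] at h
    exact hm (by rw [hM m h, chg_one])
  have h1 : qq x * qq y = ∑ᶠ m, chg (x.1 m) * qq y := by
    unfold qq
    rw [finsum_mul' _ _ hsup]
  rw [h1]
  unfold BB
  refine finsum_congr fun m => ?_
  by_cases hm : m < N
  · rw [hx m hm, chg_one, zero_mul, zero_mul]
  · congr 1
    unfold qq
    rw [finsum_eq_sum_of_support_subset]
    intro n hn
    rw [Function.mem_support] at hn
    rw [Finset.mem_coe, Finset.mem_range]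
    by_contra h
    exact hn (by rw [hy n (by omega), chg_one])

end Pool.Agent.Helper133.OP
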