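import Mathlib
import Pool.Agent.Helper133.OP.Defs

set_option autoImplicit false
set_option linter.unusedSectionVars false
set_option linter.unusedVariables false

open scoped ComplexConjugate
open Pool.Agent.Helper278

namespace Pool.Agent.Helper133.OP



open scoped Topology
open Filter

theorem BB_left (x x' y : SG) : BB (x * x') y = BB x y + BB x' y := by
  have hfin : ∀ z : SG, (Function.support
      (fun m => chg (z.1 m) * ∑ n ∈ Finset.range m, chg (y.1 n))).Finite := by
    intro z
    obtain ⟨N, hN⟩ := z.2
    refine (Set.finite_Iio N).subset ?_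
    intro m hm
    rw [Set.mem_Iio]
    by_contra hc
    apply hm
    show chg (z.1 m) * _ = 0
    rw [hN m (not_lt.1 hc), chg_one, zero_mul]
  unfold BB
  rw [← finsum_add_distrib (hfin x) (hfin x')]
  refine finsum_congr fun m => ?_
  have e : (x * x').1 m = x.1 m * x'.1 m := rfl
  rw [e, chg_mul, add_mul]

end Pool.Agent.Helper133.OP
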