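import Mathlib
import Pool.Agent.Helper133.OP.Defs

set_option autoImplicit false
set_option linter.unusedSectionVars false
set_option linter.unusedVariables false

open scoped ComplexConjugate
open Pool.Agent.Helper278

namespace Pool.Agent.Helper133.OP



open scoped Topology
open Filter

/-- `x` lives below `N`, `y` lives from `N` on -/
theorem BB_low (N : ℕ) (x y : SG) (hx : ∀ n, N ≤ n → x.1 n = 1) (hy : ∀ n, n < N → y.1 n = 1) :
    BB x y = 0 := by
  unfold BB
  have h : (fun m => chg (x.1 m) * ∑ n ∈ Finset.range m, chg (y.1 n)) = fun _ => 0 := by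
    funext m
    rcases lt_or_ge m N with hm | hm
    · rw [Finset.sum_eq_zero, mul_zero]
      intro n hn
      rw [hy n ((Finset.mem_range.1 hn).trans hm), chg_one]
    · rw [hx m hm, chg_one, zero_mul]
  rw [h, finsum_zero]

end Pool.Agent.Helper133.OP
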