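import Mathlib
import Pool.Agent.Helper133.OP.Defs

set_option autoImplicit false
set_option linter.unusedSectionVars false
set_option linter.unusedVariables false

open scoped ComplexConjugate
open Pool.Agent.Helper278

namespace Pool.Agent.Helper133.OP



open scoped Topology
open Filter

theorem BB_right (x y y' : SG) : BB x (y * y') = BB x y + BB x y' := by
  obtain ⟨N, hN⟩ := x.2
  have hfin : ∀ z : SG, (Function.support fun m =>
      chg (x.1 m) * ∑ n ∈ Finset.range m, chg (z.1 n)).Finite := by
    intro z
    refine (Finset.finite_toSet (Finset.range N)).subset fun m hm => ?_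
    rw [Finset.mem_coe, Finset.mem_range]
    by_contra hlt
    apply hm
    show chg (x.1 m) * ∑ n ∈ Finset.range m, chg (z.1 n) = 0
    rw [hN m (not_lt.1 hlt), chg_one, zero_mul]
  unfold BB
  rw [← finsum_add_distrib (hfin y) (hfin y')]
  refine finsum_congr fun m => ?_
  rw [← mul_add, ← Finset.sum_add_distrib]
  congr 1
  refine Finset.sum_congr rfl fun n _ => ?_
  exact chg_mul _ _

end Pool.Agent.Helper133.OP
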