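import Mathlib
import Pool.Agent.Helper133.OP.Defs

set_option autoImplicit false
set_option linter.unusedSectionVars false
set_option linter.unusedVariables false

open scoped ComplexConjugate
open Pool.Agent.Helper278

namespace Pool.Agent.Helper133.OP



open scoped Topology
open Filter

section

variable {A : Type*} [Ring A] [StarRing A] [Algebra ℂ A] [StarModule ℂ A] {τ : A →ₗ[ℂ] ℂ}
  {v : SG → A}

theorem TG.charge_gap (h : TG τ v) (hu : ∀ g, v g ∈ unitary A) (w3_0 : w3 0 = 1)
    (w3_add : ∀ a b : ZMod 3, w3 (a + b) = w3 a * w3 b)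
    (w3_conj : ∀ a : ZMod 3, conj (w3 a) = w3 (-a))
    (hlow : ∀ (N : ℕ) (x y : SG), (∀ n, N ≤ n → x.1 n = 1) → (∀ n, n < N → y.1 n = 1) →
      BB x y = 0)
    (hhigh : ∀ (N : ℕ) (x y : SG), (∀ n, n < N → x.1 n = 1) → (∀ n, N ≤ n → y.1 n = 1) →
      BB x y = qq x * qq y)
    (hqa : qq (dl {0} (FreeGroup.of 0)) = 1)
    (hw : ∀ a : ZMod 3, a ≠ 0 → ‖1 - w3 a‖ ^ 2 = 3) (x : A) :
    mD τ v {g | g.1 0 = 1 ∧ qq g ≠ 0} x ≤
      n2 τ (x * v (dl {0} (FreeGroup.of 0)) - v (dl {0} (FreeGroup.of 0)) * x) := by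
  set a : SG := dl {0} (FreeGroup.of 0) with ha
  have ha1 : ∀ n, 1 ≤ n → a.1 n = 1 := by
    intro n hn
    rw [ha]
    show (if n ∈ ({0} : Finset ℕ) then _ else _) = _
    rw [if_neg]
    simp
    omega
  obtain ⟨hua1, hua2⟩ := Unitary.mem_iff.1 (hu a)
  set z : A := star (v a) * x * v a - x with hz
  have hzy : z = star (v a) * (x * v a - v a * x) := by
    rw [hz, mul_sub, ← mul_assoc, ← mul_assoc, hua1, one_mul]
  have hn : n2 τ z = n2 τ (x * v a - v a * x) := by
    unfold n2
    rw [hzy]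
    congr 3
    rw [star_mul, star_star]
    rw [mul_assoc, ← mul_assoc (v a), hua2, one_mul]
  rw [← hn]
  have hcf : ∀ g : SG, g.1 0 = 1 → cf τ v z g = (w3 (qq g) - 1) * cf τ v x g := by
    intro g hg
    obtain ⟨hug1, hug2⟩ := Unitary.mem_iff.1 (hu g)
    have h1 : BB a g = 0 := hlow 1 a g ha1 (by
      intro n hn
      obtain rfl : n = 0 := by omega
      exact hg)
    have h2 : BB g a = qq g := by
      rw [hhigh 1 g a (by
        intro n hn
        obtain rfl : n = 0 := by omega
        exact hg) ha1, hqa, mul_one]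
    have h3 : a * g = g * a := by
      apply Subtype.ext
      funext n
      show a.1 n * g.1 n = g.1 n * a.1 n
      rcases Nat.eq_zero_or_pos n with rfl | hn
      · rw [hg, one_mul, mul_one]
      · rw [ha1 n hn, one_mul, mul_one]
    have h4 : v a * v g = v (a * g) := by
      rw [h.mul, h1, w3_0, one_smul]
    have h5 : v g * v a = w3 (qq g) • (v a * v g) := by
      rw [h4, h.mul, h2, h3]
    have h6 : v a * star (v g) = w3 (qq g) • (star (v g) * v a) := by
      calc v a * star (v g) = star (v g) * (v g * v a) * star (v g) := by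
            rw [← mul_assoc, hug1, one_mul]
        _ = w3 (qq g) • (star (v g) * v a) := by
            rw [h5, mul_smul_comm, smul_mul_assoc]
            congr 1
            rw [mul_assoc, mul_assoc, hug2, mul_one]
    unfold cf
    rw [hz, mul_sub, map_sub, sub_mul, one_mul]
    congr 1
    have h7 : τ (star (v g) * (star (v a) * x * v a)) = τ (v a * star (v g) * (star (v a) * x)) := by
      rw [← mul_assoc, h.tr.comm, ← mul_assoc]
    rw [h7, h6, smul_mul_assoc, map_smul, smul_eq_mul]
    congr 2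
    rw [← mul_assoc, mul_assoc (star (v g)), hua2, mul_one]
  unfold mD
  rw [Real.sqrt_le_left (n2_nonneg _ _)]
  rw [← (h.parseval z).tsum_eq]
  have hsx : Summable fun g => ‖cf τ v x g‖ ^ 2 := (h.parseval x).summable
  have hsz : Summable fun g => ‖cf τ v z g‖ ^ 2 := (h.parseval z).summable
  apply Summable.tsum_le_tsum _ (hsx.indicator _) hsz
  intro g
  by_cases hg : g ∈ {g : SG | g.1 0 = 1 ∧ qq g ≠ 0}
  · rw [Set.indicator_of_mem hg]
    have := hcf g hg.1
    have h3 := hw (qq g) hg.2
    rw [norm_sub_rev] at h3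
    show _ ≤ ‖cf τ v z g‖ ^ 2
    rw [this, norm_mul, mul_pow, h3]
    have : 0 ≤ ‖cf τ v x g‖ ^ 2 := by positivity
    linarith
  · rw [Set.indicator_of_notMem hg]
    positivity

end

end Pool.Agent.Helper133.OP
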