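import Mathlib
import Pool.Agent.Helper133.OP.Defs

set_option autoImplicit false
set_option linter.unusedSectionVars false
set_option linter.unusedVariables false

open scoped ComplexConjugate
open Pool.Agent.Helper278

namespace Pool.Agent.Helper133.OP



open scoped Topology
open Filter

section

variable {A : Type*} [Ring A] [StarRing A] [Algebra ℂ A] [StarModule ℂ A] {τ : A →ₗ[ℂ] ℂ}
  {v : SG → A}

/-- the coefficients of commutators -/
theorem TG.coef_shift (h : TG τ v) (hu : ∀ g, v g ∈ unitary A) (w3_norm : ∀ a : ZMod 3, ‖w3 a‖ = 1)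
    (t : SG) (x : A) :
    HasSum (fun g => (‖cf τ v x (t * g * t⁻¹)‖ - ‖cf τ v x g‖) ^ 2)
      (∑' g, (‖cf τ v x (t * g * t⁻¹)‖ - ‖cf τ v x g‖) ^ 2) ∧
    ∑' g, (‖cf τ v x (t * g * t⁻¹)‖ - ‖cf τ v x g‖) ^ 2 ≤ n2 τ (x * v t - v t * x) ^ 2 := by
  have hut := Unitary.mem_iff.mp (hu t)
  set y : A := star (v t) * x * v t - x with hy
  have e1 : y = star (v t) * (x * v t - v t * x) := by
    rw [hy, mul_sub, ← mul_assoc, ← mul_assoc, hut.1, one_mul]
  have e2 : n2 τ y ^ 2 = n2 τ (x * v t - v t * x) ^ 2 := by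
    rw [h.tr.n2_sq, h.tr.n2_sq, e1]
    congr 2
    rw [star_mul, star_star]
    calc star (x * v t - v t * x) * v t * (star (v t) * (x * v t - v t * x))
        = star (x * v t - v t * x) * (v t * star (v t)) * (x * v t - v t * x) := by
          simp only [mul_assoc]
      _ = star (x * v t - v t * x) * (x * v t - v t * x) := by rw [hut.2, mul_one]
  have hpar := h.parseval y
  rw [e2] at hpar
  have e3 : ∀ g : SG, ∃ c : ℂ, ‖c‖ = 1 ∧ v t * v g * star (v t) = c • v (t * g * t⁻¹) := by
    intro g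
    refine ⟨w3 (BB t g) * (w3 (BB t t) * w3 (BB (t * g) t⁻¹)), ?_, ?_⟩
    · rw [norm_mul, norm_mul, w3_norm, w3_norm, w3_norm]
      norm_num
    · rw [h.mul, h.star_v, smul_mul_assoc, mul_smul_comm, h.mul, smul_smul, smul_smul]
      congr 1
      ring
  have e4 : ∀ g : SG, ‖τ (star (v g) * (star (v t) * x * v t))‖ = ‖cf τ v x (t * g * t⁻¹)‖ := by
    intro g
    obtain ⟨c, hc, hc2⟩ := e3 g
    have e5 : star (v t * v g * star (v t)) = v t * star (v g) * star (v t) := by
      rw [star_mul, star_mul, star_star, mul_assoc]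
    have e6 : τ (star (v g) * (star (v t) * x * v t)) = τ (star (v t * v g * star (v t)) * x) := by
      rw [e5]
      have : star (v g) * (star (v t) * x * v t) = (star (v g) * star (v t) * x) * v t := by
        simp only [mul_assoc]
      rw [this, h.tr.comm]
      simp only [mul_assoc]
    rw [e6, hc2, star_smul, smul_mul_assoc, map_smul, norm_smul]
    have : ‖star c‖ = 1 := by rw [norm_star, hc]
    rw [this, one_mul]
    rfl
  have e7 : ∀ g : SG, (‖cf τ v x (t * g * t⁻¹)‖ - ‖cf τ v x g‖) ^ 2 ≤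
      ‖τ (star (v g) * y)‖ ^ 2 := by
    intro g
    rw [← e4 g]
    have e8 : τ (star (v g) * y) = τ (star (v g) * (star (v t) * x * v t)) - cf τ v x g := by
      rw [hy, mul_sub, map_sub]
      rfl
    rw [e8, ← sq_abs]
    exact pow_le_pow_left₀ (abs_nonneg _) (abs_norm_sub_norm_le _ _) 2
  have hs : Summable (fun g => (‖cf τ v x (t * g * t⁻¹)‖ - ‖cf τ v x g‖) ^ 2) :=
    Summable.of_nonneg_of_le (fun _ => sq_nonneg _) e7 hpar.summable
  exact ⟨hs.hasSum, hasSum_le e7 hs.hasSum hpar⟩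

end

end Pool.Agent.Helper133.OP
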