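import Mathlib
import Pool.Agent.Helper133.OP.Defs

set_option autoImplicit false
set_option linter.unusedSectionVars false
set_option linter.unusedVariables false

open scoped ComplexConjugate
open Pool.Agent.Helper278

namespace Pool.Agent.Helper133.OP



open scoped Topology
open Filter

section

variable {A : Type*} [Ring A] [StarRing A] [Algebra ℂ A] [StarModule ℂ A] {τ : A →ₗ[ℂ] ℂ}
  {v : SG → A}

/-- if `w` is a unitary that commutes with `y` then `[x, w]` is small -/
theorem TG.comm_approx (h : TG τ v) (x y w : A) (hw : w ∈ unitary A) (hy : y * w = w * y) :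
    n2 τ (x * w - w * x) ≤ 2 * n2 τ (x - y) := by
  have hτ := h.tr
  obtain ⟨h1, h2⟩ := Unitary.mem_iff.1 hw
  have hr : ∀ z : A, n2 τ (z * w) = n2 τ z := by
    intro z
    have e : τ (star (z * w) * (z * w)) = τ (star z * z) := by
      rw [hτ.comm, star_mul]
      have e1 : z * w * (star w * star z) = z * (w * star w) * star z := by
        simp only [mul_assoc]
      rw [e1, h2, mul_one, hτ.comm]
    unfold n2
    rw [e]
  have hl : ∀ z : A, n2 τ (w * z) = n2 τ z := by
    intro z
    have e : star (w * z) * (w * z) = star z * z := by
      rw [star_mul]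
      have e1 : star z * star w * (w * z) = star z * (star w * w) * z := by
        simp only [mul_assoc]
      rw [e1, h1, mul_one]
    unfold n2
    rw [e]
  have e : x * w - w * x = (x - y) * w - w * (x - y) := by
    rw [sub_mul, mul_sub, hy]
    abel
  rw [e]
  refine (hτ.n2_sub_le _ _).trans ?_
  rw [hr, hl]
  linarith

end

end Pool.Agent.Helper133.OP
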