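import Mathlib
import Pool.Agent.Helper133.OP.Defs

set_option autoImplicit false
set_option linter.unusedSectionVars false
set_option linter.unusedVariables false

open scoped ComplexConjugate
open Pool.Agent.Helper278

namespace Pool.Agent.Helper133.OP



open scoped Topology
open Filter

section

variable {A : Type*} [Ring A] [StarRing A] [Algebra ℂ A] [StarModule ℂ A] {τ : A →ₗ[ℂ] ℂ}
  {v : SG → A}

/-- charge zero elements at higher levels commute with the lower levels -/
theorem TG.comm_lev (h : TG τ v) (N₀ : ℕ) (W : Finset ℕ) (hW : ∀ n ∈ W, N₀ ≤ n) (k : KF)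
    (hdl : ∀ x : SG, BB (dl W k) x = 0 ∧ BB x (dl W k) = 0)
    (F : Finset SG) (a : SG → ℂ) (hF : ∀ g ∈ F, ∀ n, N₀ ≤ n → g.1 n = 1) :
    (∑ g ∈ F, a g • v g) * v (dl W k) = v (dl W k) * ∑ g ∈ F, a g • v g := by
  rw [Finset.sum_mul, Finset.mul_sum]
  apply Finset.sum_congr rfl
  intro g hg
  rw [smul_mul_assoc, mul_smul_comm, h.mul, h.mul, (hdl g).1, (hdl g).2]
  have hc : g * dl W k = dl W k * g := by
    apply Subtype.ext
    funext n
    show g.1 n * (dl W k).1 n = (dl W k).1 n * g.1 n
    by_cases hn : n ∈ W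
    · rw [hF g hg n (hW n hn), one_mul, mul_one]
    · have : (dl W k).1 n = 1 := if_neg hn
      rw [this, one_mul, mul_one]
  rw [hc]

end

end Pool.Agent.Helper133.OP
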