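import Mathlib
import Pool.Agent.Helper133.OP.Defs

set_option autoImplicit false
set_option linter.unusedSectionVars false
set_option linter.unusedVariables false

open scoped ComplexConjugate
open Pool.Agent.Helper278

namespace Pool.Agent.Helper133.OP



open scoped Topology
open Filter

section

variable {A : Type*} [Ring A] [StarRing A] [Algebra ℂ A] [StarModule ℂ A] {τ : A →ₗ[ℂ] ℂ}
  {v : SG → A}

theorem TG.fin_approx (h : TG τ v) (orth : Orth τ v)
    (x : A) (D : Set SG) (δ : ℝ) (hδ : 0 < δ) : ∃ F : Finset SG, (∀ g ∈ F, g ∉ D) ∧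
      n2 τ (x - ∑ g ∈ F, cf τ v x g • v g) ≤ mD τ v D x + δ := by
  classical
  set s : SG → ℝ := fun g => ‖cf τ v x g‖ ^ 2 with hs
  have hs0 : ∀ g, 0 ≤ s g := fun g => by positivity
  have hsum : HasSum s (n2 τ x ^ 2) := h.parseval x
  have hev : ∀ᶠ F0 : Finset SG in atTop, n2 τ x ^ 2 - δ ^ 2 < ∑ g ∈ F0, s g := by
    have : n2 τ x ^ 2 - δ ^ 2 < n2 τ x ^ 2 := by
      have := pow_pos hδ 2; linarith
    exact hsum.eventually (lt_mem_nhds this)
  obtain ⟨F0, hF0⟩ := hev.exists
  have hfin : HasSum (fun g => if g ∈ F0 then s g else 0) (∑ g ∈ F0, s g) := by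
    have h1 : HasSum (fun g => if g ∈ F0 then s g else 0)
        (∑ g ∈ F0, (fun g => if g ∈ F0 then s g else 0) g) :=
      hasSum_sum_of_ne_finset_zero (fun g hg => if_neg hg)
    have h2 : ∑ g ∈ F0, (fun g => if g ∈ F0 then s g else 0) g = ∑ g ∈ F0, s g :=
      Finset.sum_congr rfl fun g hg => if_pos hg
    rwa [h2] at h1
  have htail := hsum.sub hfin
  refine ⟨F0.filter (fun g => g ∉ D), fun g hg => (Finset.mem_filter.1 hg).2, ?_⟩
  set F := F0.filter (fun g => g ∉ D) with hF
  set y := ∑ g ∈ F, cf τ v x g • v g with hy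
  have hcf : ∀ g, τ (star (v g) * (x - y)) = if g ∈ F then 0 else cf τ v x g := by
    intro g
    have h1 : τ (star (v g) * y) = if g ∈ F then cf τ v x g else 0 := by
      rw [hy, Finset.mul_sum, map_sum]
      have h2 : ∀ k ∈ F, τ (star (v g) * (cf τ v x k • v k)) =
          if g = k then cf τ v x k else 0 := by
        intro k _
        rw [mul_smul_comm, map_smul, smul_eq_mul]
        by_cases hgk : g = k
        · rw [if_pos hgk, ← hgk, orth.1 g, mul_one]
        · rw [if_neg hgk, orth.2 g k hgk, mul_zero]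
      rw [Finset.sum_congr rfl h2, Finset.sum_ite_eq]
    rw [mul_sub, map_sub, h1]
    by_cases hg : g ∈ F
    · rw [if_pos hg, if_pos hg]; exact sub_self _
    · rw [if_neg hg, if_neg hg, sub_zero]; rfl
  have hpar := h.parseval (x - y)
  have hDs : Summable (fun g => D.indicator s g) := hsum.summable.indicator D
  have hle : n2 τ (x - y) ^ 2 ≤ ∑' g, D.indicator s g + (n2 τ x ^ 2 - ∑ g ∈ F0, s g) := by
    have h1 := hDs.hasSum.add htail
    refine hasSum_le (fun g => ?_) hpar h1
    rw [hcf g]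
    by_cases hg : g ∈ F
    · rw [if_pos hg]
      have h3 : 0 ≤ D.indicator s g := Set.indicator_nonneg (fun g _ => hs0 g) g
      have h4 : 0 ≤ s g - (if g ∈ F0 then s g else 0) := by
        split_ifs
        · simp
        · simpa using hs0 g
      simp only [norm_zero, ne_eq, OfNat.ofNat_ne_zero, not_false_eq_true, zero_pow]
      linarith
    · rw [if_neg hg]
      have h5 : ‖cf τ v x g‖ ^ 2 = s g := rfl
      rw [h5]
      by_cases hgD : g ∈ D
      · rw [Set.indicator_of_mem hgD]
        have h4 : 0 ≤ s g - (if g ∈ F0 then s g else 0) := by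
          split_ifs
          · simp
          · simpa using hs0 g
        linarith
      · have hg0 : g ∉ F0 := fun h' => hg (Finset.mem_filter.2 ⟨h', hgD⟩)
        rw [Set.indicator_of_notMem hgD, if_neg hg0]
        simp
  have hmD0 : 0 ≤ mD τ v D x := Real.sqrt_nonneg _
  have hmD : mD τ v D x ^ 2 = ∑' g, D.indicator s g := by
    unfold mD
    rw [Real.sq_sqrt]
    exact tsum_nonneg fun g => Set.indicator_nonneg (fun g _ => hs0 g) g
  have hfinal : n2 τ (x - y) ^ 2 ≤ (mD τ v D x + δ) ^ 2 := by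
    have : n2 τ (x - y) ^ 2 ≤ mD τ v D x ^ 2 + δ ^ 2 := by
      rw [hmD]; linarith
    nlinarith [mul_nonneg hmD0 hδ.le]
  exact (abs_le_of_sq_le_sq' hfinal (by positivity)).2

end

end Pool.Agent.Helper133.OP
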