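import Mathlib
import Pool.Agent.Helper133.OP.Defs

set_option autoImplicit false
set_option linter.unusedSectionVars false
set_option linter.unusedVariables false

open scoped ComplexConjugate
open Pool.Agent.Helper278

namespace Pool.Agent.Helper133.OP



open scoped Topology
open Filter

section

variable {A : Type*} [Ring A] [StarRing A] [Algebra ℂ A] [StarModule ℂ A] {τ : A →ₗ[ℂ] ℂ}
  {v : SG → A}

theorem iDf_cf_add (x y : A) (g : SG) : cf τ v (x + y) g = cf τ v x g + cf τ v y g := by
  unfold cf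
  rw [mul_add, map_add]

theorem iDf_cf_sub (x y : A) (g : SG) : cf τ v (x - y) g = cf τ v x g - cf τ v y g := by
  unfold cf
  rw [mul_sub, map_sub]

theorem iDf_cf_smul (c : ℂ) (x : A) (g : SG) : cf τ v (c • x) g = c * cf τ v x g := by
  unfold cf
  rw [mul_smul_comm, map_smul, smul_eq_mul]

theorem iDf_sq (h : TG τ v) (x : A) : Summable fun g => ‖cf τ v x g‖ ^ 2 := (h.parseval x).summable

theorem iDf_sum (h : TG τ v) (x y : A) : Summable fun g => conj (cf τ v x g) * cf τ v y g := by
  refine Summable.of_norm_bounded (((iDf_sq h x).add (iDf_sq h y))) fun g => ?_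
  rw [norm_mul, Complex.norm_conj]
  nlinarith [sq_nonneg (‖cf τ v x g‖ - ‖cf τ v y g‖), norm_nonneg (cf τ v x g),
    norm_nonneg (cf τ v y g), sq_nonneg ‖cf τ v x g‖, sq_nonneg ‖cf τ v y g‖]

theorem iDf_self (h : TG τ v) (x : A) : ∑' g, conj (cf τ v x g) * cf τ v x g = τ (star x * x) := by
  have h1 : ∀ g, conj (cf τ v x g) * cf τ v x g = ((‖cf τ v x g‖ ^ 2 : ℝ) : ℂ) := by
    intro g
    rw [Complex.conj_mul']
    push_cast
    rfl
  simp_rw [h1]
  have h2 : HasSum (fun g : SG => ((‖cf τ v x g‖ ^ 2 : ℝ) : ℂ)) ((n2 τ x ^ 2 : ℝ) : ℂ) :=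
    Complex.hasSum_ofReal.2 (h.parseval x)
  rw [h2.tsum_eq, h.tr.n2_sq]
  apply Complex.ext
  · rw [Complex.ofReal_re]
  · rw [Complex.ofReal_im, h.tr.im_zero]

theorem iDf_S_add_left (h : TG τ v) (x y z : A) :
    ∑' g, conj (cf τ v (x + y) g) * cf τ v z g =
      ∑' g, conj (cf τ v x g) * cf τ v z g + ∑' g, conj (cf τ v y g) * cf τ v z g := by
  rw [← (iDf_sum h x z).tsum_add (iDf_sum h y z)]
  refine tsum_congr fun g => ?_
  rw [iDf_cf_add, map_add, add_mul]

theorem iDf_S_add_right (h : TG τ v) (x y z : A) :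
    ∑' g, conj (cf τ v x g) * cf τ v (y + z) g =
      ∑' g, conj (cf τ v x g) * cf τ v y g + ∑' g, conj (cf τ v x g) * cf τ v z g := by
  rw [← (iDf_sum h x y).tsum_add (iDf_sum h x z)]
  refine tsum_congr fun g => ?_
  rw [iDf_cf_add, mul_add]

theorem iDf_S_smul_right (c : ℂ) (x y : A) :
    ∑' g, conj (cf τ v x g) * cf τ v (c • y) g = c * ∑' g, conj (cf τ v x g) * cf τ v y g := by
  rw [← tsum_mul_left]
  refine tsum_congr fun g => ?_
  rw [iDf_cf_smul, mul_left_comm]

theorem iDf_S_smul_left (c : ℂ) (x y : A) :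
    ∑' g, conj (cf τ v (c • x) g) * cf τ v y g = conj c * ∑' g, conj (cf τ v x g) * cf τ v y g := by
  rw [← tsum_mul_left]
  refine tsum_congr fun g => ?_
  rw [iDf_cf_smul, map_mul, mul_assoc]

theorem iDf_polar1 (h : TG τ v) (x y : A) :
    ∑' g, conj (cf τ v x g) * cf τ v y g + ∑' g, conj (cf τ v y g) * cf τ v x g =
      τ (star x * y) + τ (star y * x) := by
  have h1 := iDf_self h (x + y)
  rw [iDf_S_add_left h, iDf_S_add_right h, iDf_S_add_right h, iDf_self h x, iDf_self h y] at h1
  have h2 : star (x + y) * (x + y) = star x * x + star x * y + (star y * x + star y * y) := by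
    rw [star_add, add_mul, mul_add, mul_add]
  rw [h2, map_add, map_add, map_add] at h1
  linear_combination h1

theorem iDf_main (h : TG τ v) (x y : A) :
    ∑' g, conj (cf τ v x g) * cf τ v y g = τ (star x * y) := by
  have h1 := iDf_polar1 h x y
  have h2 := iDf_polar1 h x (Complex.I • y)
  rw [iDf_S_smul_right, iDf_S_smul_left, star_smul, mul_smul_comm, smul_mul_assoc, map_smul,
    map_smul, smul_eq_mul, smul_eq_mul] at h2
  have hI : star Complex.I = -Complex.I := Complex.conj_I
  have hI' : conj Complex.I = -Complex.I := Complex.conj_I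
  rw [hI, hI'] at h2
  have hI2 : Complex.I * Complex.I = -1 := Complex.I_mul_I
  have h3 : ∑' g, conj (cf τ v x g) * cf τ v y g - ∑' g, conj (cf τ v y g) * cf τ v x g =
      τ (star x * y) - τ (star y * x) := by
    linear_combination (-Complex.I) * h2 + (-(∑' g, conj (cf τ v x g) * cf τ v y g -
      ∑' g, conj (cf τ v y g) * cf τ v x g) + (τ (star x * y) - τ (star y * x))) * (-hI2)
  linear_combination (1 / 2 : ℂ) * h1 + (1 / 2 : ℂ) * h3

/-- Cauchy-Schwarz for series -/
theorem iDf_cs (a b : SG → ℂ) (ha : Summable fun g => ‖a g‖ ^ 2)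
    (hb : Summable fun g => ‖b g‖ ^ 2) : ‖∑' g, conj (a g) * b g‖ ≤
      Real.sqrt (∑' g, ‖a g‖ ^ 2) * Real.sqrt (∑' g, ‖b g‖ ^ 2) := by
  have hsum : Summable fun g => ‖conj (a g) * b g‖ := by
    refine Summable.of_nonneg_of_le (fun g => norm_nonneg _) (fun g => ?_) (ha.add hb)
    rw [norm_mul, Complex.norm_conj]
    nlinarith [sq_nonneg (‖a g‖ - ‖b g‖), norm_nonneg (a g), norm_nonneg (b g),
      sq_nonneg ‖a g‖, sq_nonneg ‖b g‖]
  refine (norm_tsum_le_tsum_norm hsum).trans ?_
  refine hsum.tsum_le_of_sum_le fun s => ?_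
  rw [← Real.sqrt_mul (tsum_nonneg fun g => sq_nonneg _)]
  apply Real.le_sqrt_of_sq_le
  have h1 : ∑ g ∈ s, ‖conj (a g) * b g‖ = ∑ g ∈ s, ‖a g‖ * ‖b g‖ :=
    Finset.sum_congr rfl fun g _ => by rw [norm_mul, Complex.norm_conj]
  rw [h1]
  refine (Finset.sum_mul_sq_le_sq_mul_sq s (fun g => ‖a g‖) (fun g => ‖b g‖)).trans ?_
  exact mul_le_mul (ha.sum_le_tsum s fun g _ => sq_nonneg _)
    (hb.sum_le_tsum s fun g _ => sq_nonneg _) (Finset.sum_nonneg fun g _ => sq_nonneg _)
    (tsum_nonneg fun g => sq_nonneg _)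

theorem TG.iD_facts (h : TG τ v) :
    (∀ x y, iD τ v Set.univ x y = τ (star x * y)) ∧
    (∀ D x y, ‖iD τ v D x y‖ ≤ mD τ v D x * mD τ v D y) ∧
    (∀ D x y, iD τ v Set.univ x y = iD τ v D x y + iD τ v Dᶜ x y) ∧
    (∀ D x x' y, iD τ v D (x - x') y = iD τ v D x y - iD τ v D x' y) ∧
    (∀ D x y y', iD τ v D x (y - y') = iD τ v D x y - iD τ v D x y') := by
  classical
  refine ⟨fun x y => ?_, fun D x y => ?_, fun D x y => ?_, fun D x x' y => ?_,
    fun D x y y' => ?_⟩
  · unfold iD
    rw [← iDf_main h x y]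
    refine tsum_congr fun g => ?_
    rw [Set.indicator_univ]
  · have e1 : iD τ v D x y = ∑' g, conj (D.indicator (fun g => cf τ v x g) g) *
        D.indicator (fun g => cf τ v y g) g := by
      unfold iD
      refine tsum_congr fun g => ?_
      by_cases hg : g ∈ D
      · rw [Set.indicator_of_mem hg, Set.indicator_of_mem hg, Set.indicator_of_mem hg]
      · rw [Set.indicator_of_notMem hg, Set.indicator_of_notMem hg, Set.indicator_of_notMem hg,
          mul_zero]
    have e2 : ∀ z : A, (fun g => ‖D.indicator (fun g => cf τ v z g) g‖ ^ 2) =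
        D.indicator (fun g => ‖cf τ v z g‖ ^ 2) := by
      intro z
      funext g
      by_cases hg : g ∈ D
      · rw [Set.indicator_of_mem hg, Set.indicator_of_mem hg]
      · rw [Set.indicator_of_notMem hg, Set.indicator_of_notMem hg, norm_zero]
        norm_num
    have e3 := iDf_cs (fun g => D.indicator (fun g => cf τ v x g) g)
      (fun g => D.indicator (fun g => cf τ v y g) g)
      (by rw [e2]; exact (iDf_sq h x).indicator D) (by rw [e2]; exact (iDf_sq h y).indicator D)
    rw [e1]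
    refine e3.trans (le_of_eq ?_)
    rw [e2, e2]
    rfl
  · unfold iD
    rw [← ((iDf_sum h x y).indicator D).tsum_add ((iDf_sum h x y).indicator Dᶜ)]
    refine tsum_congr fun g => ?_
    rw [Set.indicator_univ]
    by_cases hg : g ∈ D
    · rw [Set.indicator_of_mem hg, Set.indicator_of_notMem (Set.notMem_compl_iff.2 hg), add_zero]
    · rw [Set.indicator_of_notMem hg, Set.indicator_of_mem (Set.mem_compl hg), zero_add]
  · unfold iD
    rw [← ((iDf_sum h x y).indicator D).tsum_sub ((iDf_sum h x' y).indicator D)]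
    refine tsum_congr fun g => ?_
    by_cases hg : g ∈ D
    · rw [Set.indicator_of_mem hg, Set.indicator_of_mem hg, Set.indicator_of_mem hg, iDf_cf_sub,
        map_sub, sub_mul]
    · rw [Set.indicator_of_notMem hg, Set.indicator_of_notMem hg, Set.indicator_of_notMem hg,
        sub_zero]
  · unfold iD
    rw [← ((iDf_sum h x y).indicator D).tsum_sub ((iDf_sum h x y').indicator D)]
    refine tsum_congr fun g => ?_
    by_cases hg : g ∈ D
    · rw [Set.indicator_of_mem hg, Set.indicator_of_mem hg, Set.indicator_of_mem hg, iDf_cf_sub,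
        mul_sub]
    · rw [Set.indicator_of_notMem hg, Set.indicator_of_notMem hg, Set.indicator_of_notMem hg,
        sub_zero]

end

end Pool.Agent.Helper133.OP
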