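import Mathlib
import Pool.Agent.Helper133.OP.Defs

set_option autoImplicit false
set_option linter.unusedSectionVars false
set_option linter.unusedVariables false

open scoped ComplexConjugate
open Pool.Agent.Helper278

namespace Pool.Agent.Helper133.OP



open scoped Topology
open Filter

section

variable {A : Type*} [Ring A] [StarRing A] [Algebra ℂ A] [StarModule ℂ A] {τ : A →ₗ[ℂ] ℂ}
  {v : SG → A}

/-- the key identity for the coefficients -/
theorem TG.key_coef (h : TG τ v) (orth : Orth τ v)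
    (w3_add : ∀ a b : ZMod 3, w3 (a + b) = w3 a * w3 b) (w3_norm : ∀ a : ZMod 3, ‖w3 a‖ = 1)
    (w3_conj : ∀ a : ZMod 3, conj (w3 a) = w3 (-a))
    (N₀ N₂ : ℕ) (g : SG) (s : ZMod 3)
    (hs : ∀ k k' : SG, (∀ n, N₂ ≤ n → k.1 n = 1) → (∀ n, N₀ ≤ n → n < N₂ → k'.1 n = 1) →
      ((g * k = k' ↔ k * g = k') ∧ (g * k = k' → BB k g - BB g k = -(s * s))))
    (F F' : Finset SG) (a a' : SG → ℂ) (hF : ∀ k ∈ F, ∀ n, N₂ ≤ n → k.1 n = 1)
    (hF' : ∀ k ∈ F', ∀ n, N₀ ≤ n → n < N₂ → k.1 n = 1) :
    cf τ v (star (∑ k ∈ F, a k • v k) * ∑ k ∈ F', a' k • v k) g =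
      w3 (s * s) * cf τ v ((∑ k ∈ F', a' k • v k) * star (∑ k ∈ F, a k • v k)) g := by
  have key : ∀ k ∈ F, ∀ k' ∈ F', τ (star (v g) * (star (v k) * v k')) =
      w3 (s * s) * τ (star (v g) * (v k' * star (v k))) := by
    intro k hk k' hk'
    obtain ⟨h1, h2⟩ := hs k k' (hF k hk) (hF' k' hk')
    have e1 : τ (star (v g) * (star (v k) * v k')) =
        conj (w3 (BB k g)) * τ (star (v (k * g)) * v k') := by
      have e : star (v g) * (star (v k) * v k') = star (v k * v g) * v k' := by
        rw [star_mul, mul_assoc]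
      rw [e, h.mul, star_smul, smul_mul_assoc, map_smul, smul_eq_mul]
      rfl
    have e2 : τ (star (v g) * (v k' * star (v k))) =
        conj (w3 (BB g k)) * τ (star (v (g * k)) * v k') := by
      have e : τ (star (v g) * (v k' * star (v k))) = τ (star (v g * v k) * v k') := by
        rw [← mul_assoc, h.tr.comm, ← mul_assoc, star_mul]
      rw [e, h.mul, star_smul, smul_mul_assoc, map_smul, smul_eq_mul]
      rfl
    rw [e1, e2]
    by_cases hgk : g * k = k'
    · have hkg : k * g = k' := h1.1 hgk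
      rw [hgk, hkg, orth.1, w3_conj, w3_conj, mul_one, mul_one, ← w3_add]
      congr 1
      linear_combination (-1 : ZMod 3) * h2 hgk
    · have hkg : k * g ≠ k' := fun h => hgk (h1.2 h)
      rw [orth.2 _ _ hgk, orth.2 _ _ hkg]
      ring
  unfold cf
  have e1 : star (∑ k ∈ F, a k • v k) = ∑ k ∈ F, conj (a k) • star (v k) := by
    rw [star_sum]
    refine Finset.sum_congr rfl fun k _ => ?_
    rw [star_smul]
    rfl
  rw [e1, Finset.sum_mul_sum, Finset.sum_mul_sum, Finset.sum_comm (s := F')]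
  simp_rw [Finset.mul_sum, map_sum, Finset.mul_sum]
  refine Finset.sum_congr rfl fun k hk => Finset.sum_congr rfl fun k' hk' => ?_
  simp only [smul_mul_assoc, mul_smul_comm, map_smul, smul_eq_mul]
  rw [key k hk k' hk']
  ring


end

end Pool.Agent.Helper133.OP
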