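import Mathlib
import Pool.Agent.Helper133.OP.Defs

set_option autoImplicit false
set_option linter.unusedSectionVars false
set_option linter.unusedVariables false

open scoped ComplexConjugate
open Pool.Agent.Helper278

namespace Pool.Agent.Helper133.OP



open scoped Topology
open Filter

section

variable {A : Type*} [Ring A] [StarRing A] [Algebra ℂ A] [StarModule ℂ A] {τ : A →ₗ[ℂ] ℂ}
  {v : SG → A}

theorem TG.mD_facts (h : TG τ v) :
    (∀ x, mD τ v Set.univ x = n2 τ x) ∧
    (∀ D x y, mD τ v D (x + y) ≤ mD τ v D x + mD τ v D y) ∧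
    (∀ D x, mD τ v D x ≤ n2 τ x) ∧
    (∀ D E x, D ⊆ E → mD τ v D x ≤ mD τ v E x) ∧
    (∀ D E x, mD τ v (D ∪ E) x ≤ mD τ v D x + mD τ v E x) := by
  have hsum : ∀ (D : Set SG) (x : A),
      Summable (fun g => D.indicator (fun g => ‖cf τ v x g‖ ^ 2) g) := fun D x =>
    (h.parseval x).summable.indicator D
  have hn : ∀ x, 0 ≤ n2 τ x := fun x => n2_nonneg _ _
  have h1 : ∀ x, mD τ v Set.univ x = n2 τ x := by
    intro x
    unfold mD
    have e : (∑' g, (Set.univ : Set SG).indicator (fun g => ‖cf τ v x g‖ ^ 2) g) = n2 τ x ^ 2 := by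
      rw [← (h.parseval x).tsum_eq]
      refine tsum_congr fun g => ?_
      rw [Set.indicator_of_mem (Set.mem_univ g)]
      rfl
    rw [e, Real.sqrt_sq (hn x)]
  have hmono : ∀ D E x, D ⊆ E → mD τ v D x ≤ mD τ v E x := by
    intro D E x hDE
    unfold mD
    refine Real.sqrt_le_sqrt ((hsum D x).tsum_le_tsum (fun g => ?_) (hsum E x))
    exact Set.indicator_le_indicator_of_subset hDE (fun g => by positivity) g
  have hpow : ∀ (D : Set SG) (x : A) (g : SG),
      (D.indicator (fun g => ‖cf τ v x g‖) g) ^ (2 : ℝ) =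
        D.indicator (fun g => ‖cf τ v x g‖ ^ 2) g := by
    intro D x g
    by_cases hg : g ∈ D
    · rw [Set.indicator_of_mem hg, Set.indicator_of_mem hg, Real.rpow_two]
    · rw [Set.indicator_of_notMem hg, Set.indicator_of_notMem hg]
      norm_num
  have hmD : ∀ (D : Set SG) (x : A), mD τ v D x =
      (∑' g, (D.indicator (fun g => ‖cf τ v x g‖) g) ^ (2 : ℝ)) ^ (1 / (2 : ℝ)) := by
    intro D x
    unfold mD
    rw [Real.sqrt_eq_rpow]
    congr 1
    exact tsum_congr fun g => (hpow D x g).symm
  have hcf : ∀ x y g, cf τ v (x + y) g = cf τ v x g + cf τ v y g := by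
    intro x y g
    unfold cf
    rw [mul_add, map_add]
  have hmink : ∀ (D E : Set SG) (x y : A), 
      (Summable fun g => ((D.indicator (fun g => ‖cf τ v x g‖) g) +
          (E.indicator (fun g => ‖cf τ v y g‖) g)) ^ (2 : ℝ)) ∧
      (∑' g, ((D.indicator (fun g => ‖cf τ v x g‖) g) +
          (E.indicator (fun g => ‖cf τ v y g‖) g)) ^ (2 : ℝ)) ^ (1 / (2 : ℝ)) ≤
        mD τ v D x + mD τ v E y := by
    intro D E x y
    rw [hmD, hmD]
    refine Real.Lp_add_le_tsum_of_nonneg (by norm_num) (fun g => ?_) (fun g => ?_) ?_ ?_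
    · exact Set.indicator_nonneg (fun _ _ => norm_nonneg _) g
    · exact Set.indicator_nonneg (fun _ _ => norm_nonneg _) g
    · exact (hsum D x).congr fun g => (hpow D x g).symm
    · exact (hsum E y).congr fun g => (hpow E y g).symm
  have hle : ∀ (D E F : Set SG) (x y z : A), (∀ g, F.indicator (fun g => ‖cf τ v z g‖) g ≤
      D.indicator (fun g => ‖cf τ v x g‖) g + E.indicator (fun g => ‖cf τ v y g‖) g) →
      mD τ v F z ≤ mD τ v D x + mD τ v E y := by
    intro D E F x y z hg
    refine le_trans ?_ (hmink D E x y).2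
    rw [hmD]
    have hs : Summable fun g => (F.indicator (fun g => ‖cf τ v z g‖) g) ^ (2 : ℝ) :=
      (hsum F z).congr fun g => (hpow F z g).symm
    refine Real.rpow_le_rpow (tsum_nonneg fun g => ?_) (hs.tsum_le_tsum (fun g => ?_)
      (hmink D E x y).1) (by norm_num)
    · exact Real.rpow_nonneg (Set.indicator_nonneg (fun _ _ => norm_nonneg _) g) _
    · exact Real.rpow_le_rpow (Set.indicator_nonneg (fun _ _ => norm_nonneg _) g) (hg g)
        (by norm_num)
  refine ⟨h1, fun D x y => ?_, fun D x => ?_, hmono, fun D E x => ?_⟩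
  · refine hle D D D x y (x + y) fun g => ?_
    by_cases hg : g ∈ D
    · simp only [Set.indicator_of_mem hg]
      rw [hcf]
      exact norm_add_le _ _
    · simp only [Set.indicator_of_notMem hg]
      norm_num
  · rw [← h1 x]
    exact hmono D _ x (Set.subset_univ D)
  · refine hle D E (D ∪ E) x x x fun g => ?_
    by_cases hD : g ∈ D
    · rw [Set.indicator_of_mem (Set.mem_union_left E hD), Set.indicator_of_mem hD]
      exact le_add_of_nonneg_right (Set.indicator_nonneg (fun _ _ => norm_nonneg _) g)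
    · by_cases hE : g ∈ E
      · rw [Set.indicator_of_mem (Set.mem_union_right D hE), Set.indicator_of_mem hE]
        exact le_add_of_nonneg_left (Set.indicator_nonneg (fun _ _ => norm_nonneg _) g)
      · rw [Set.indicator_of_notMem (by simp [hD, hE]), Set.indicator_of_notMem hD,
          Set.indicator_of_notMem hE]
        norm_num

end

end Pool.Agent.Helper133.OP
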