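import Mathlib
import Pool.Agent.Helper133.OP.Defs

set_option autoImplicit false
set_option linter.unusedSectionVars false
set_option linter.unusedVariables false

open scoped ComplexConjugate
open Pool.Agent.Helper278

namespace Pool.Agent.Helper133.OP



open scoped Topology
open Filter

section

variable {A : Type*} [Ring A] [StarRing A] [Algebra ℂ A] [StarModule ℂ A] {τ : A →ₗ[ℂ] ℂ}
  {v : SG → A}

theorem TG.norm_sum (h : TG τ v) (orth : Orth τ v)
    (F : Finset SG) (a : SG → ℂ) : n2 τ (∑ g ∈ F, a g • v g) ^ 2 = ∑ g ∈ F, ‖a g‖ ^ 2 := by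
  rw [h.tr.n2_sq, star_sum, Finset.sum_mul_sum, map_sum]
  have key : ∀ g ∈ F, τ (∑ k ∈ F, star (a g • v g) * (a k • v k)) = ((‖a g‖ ^ 2 : ℝ) : ℂ) := by
    intro g hg
    have e : ∀ k, τ (star (a g • v g) * (a k • v k)) =
        conj (a g) * a k * τ (star (v g) * v k) := by
      intro k
      rw [star_smul, smul_mul_smul_comm, map_smul, smul_eq_mul]
      rfl
    rw [map_sum, Finset.sum_eq_single g]
    · rw [e, orth.1, mul_one, Complex.conj_mul']
      push_cast
      rfl
    · intro k _ hk
      rw [e, orth.2 g k hk.symm, mul_zero]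
    · intro hgF
      exact absurd hg hgF
  rw [Finset.sum_congr rfl key, ← Complex.ofReal_sum, Complex.ofReal_re]

end

end Pool.Agent.Helper133.OP
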