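import Mathlib
import Pool.Agent.Helper133.OP.Defs

set_option autoImplicit false
set_option linter.unusedSectionVars false
set_option linter.unusedVariables false

open scoped ComplexConjugate
open Pool.Agent.Helper278

namespace Pool.Agent.Helper133.OP



open scoped Topology
open Filter

section

variable {A : Type*} [Ring A] [StarRing A] [Algebra ℂ A] [StarModule ℂ A] {τ : A →ₗ[ℂ] ℂ}
  {v : SG → A}

theorem TG.re_nonpos (h : TG τ v) (w3_0 : w3 0 = 1)
    (w3_add : ∀ a b : ZMod 3, w3 (a + b) = w3 a * w3 b) (w3_norm : ∀ a : ZMod 3, ‖w3 a‖ = 1)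
    (w3_conj : ∀ a : ZMod 3, conj (w3 a) = w3 (-a)) (w3_1 : (w3 1).re = -1 / 2)
    (w3_2 : (w3 2).re = -1 / 2) (D : Set SG) (x y : A)
    (hxy : ∀ g ∈ D, ∃ s : ZMod 3, cf τ v x g = w3 (s * s) * cf τ v y g) :
    (w3 (-1) * iD τ v D x y).re ≤ 0 := by
  unfold iD
  rw [← tsum_mul_left]
  have hterm : ∀ g, (w3 (-1) * D.indicator (fun g => conj (cf τ v x g) * cf τ v y g) g).re ≤ 0 := by
    intro g
    by_cases hg : g ∈ D
    · rw [Set.indicator_of_mem hg]
      obtain ⟨s, hs⟩ := hxy g hg
      have e1 : w3 (-1) * (conj (cf τ v x g) * cf τ v y g) =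
          w3 (-1 + -(s * s)) * ((‖cf τ v y g‖ ^ 2 : ℝ) : ℂ) := by
        rw [hs, map_mul, w3_conj, w3_add (-1) (-(s * s))]
        have e2 : conj (cf τ v y g) * cf τ v y g = ((‖cf τ v y g‖ ^ 2 : ℝ) : ℂ) := by
          rw [← Complex.normSq_eq_norm_sq, Complex.normSq_eq_conj_mul_self]
        rw [← e2]
        ring
      rw [e1, Complex.re_mul_ofReal]
      have e3 : (w3 (-1 + -(s * s))).re = -1 / 2 := by
        have key : ∀ t : ZMod 3, -1 + -(t * t) = 1 ∨ -1 + -(t * t) = 2 := by decide
        rcases key s with h1 | h1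
        · rw [h1]
          exact w3_1
        · rw [h1]
          exact w3_2
      rw [e3]
      have := sq_nonneg ‖cf τ v y g‖
      linarith
    · rw [Set.indicator_of_notMem hg, mul_zero, Complex.zero_re]
  by_cases hsum : Summable (fun g => w3 (-1) *
      D.indicator (fun g => conj (cf τ v x g) * cf τ v y g) g)
  · rw [Complex.re_tsum hsum]
    exact tsum_nonpos hterm
  · rw [tsum_eq_zero_of_not_summable hsum, Complex.zero_re]

end

end Pool.Agent.Helper133.OP
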