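import Mathlib
import Pool.Agent.Helper133.OP.Defs

set_option autoImplicit false
set_option linter.unusedSectionVars false
set_option linter.unusedVariables false

open scoped ComplexConjugate
open Pool.Agent.Helper278

namespace Pool.Agent.Helper133.OP



open scoped Topology
open Filter

theorem gap_l2_pt (u v : ℝ) : v ^ 2 ≤ 11 / 10 * u ^ 2 + 11 * (v - u) ^ 2 := by
  nlinarith [sq_nonneg (u - 10 * (v - u))]

theorem gap_l2_cmp {X : Type} (S : Set X) (g h k : X → ℝ)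
    (hg : Summable g) (hh : Summable h) (hk : Summable k) (hh0 : ∀ x, 0 ≤ h x)
    (hk0 : ∀ x, 0 ≤ k x) (hle : ∀ x, g x ≤ 11 / 10 * h x + 11 * k x) :
    ∑' x, S.indicator g x ≤ 11 / 10 * (∑' x, S.indicator h x) + 11 * ∑' x, k x := by
  rw [← tsum_mul_left, ← tsum_mul_left]
  have s1 : Summable (fun x => 11 / 10 * S.indicator h x) := (hh.indicator S).mul_left _
  have s2 : Summable (fun x => 11 * k x) := hk.mul_left _
  rw [← s1.tsum_add s2]
  apply Summable.tsum_le_tsum _ (hg.indicator S) (s1.add s2)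
  intro x
  by_cases hx : x ∈ S
  · rw [Set.indicator_of_mem hx, Set.indicator_of_mem hx]
    exact hle x
  · rw [Set.indicator_of_notMem hx, Set.indicator_of_notMem hx]
    have := hk0 x
    linarith

/-- the `14ε` inequality for a nonnegative square summable function -/
theorem gap_l2 {X : Type} (f : X → ℝ) (hf0 : ∀ x, 0 ≤ f x) (hf : Summable fun x => f x ^ 2)
    (e₁ e₂ : X ≃ X) (D S : Set X) (hSD : S ⊆ D) (hD₁ : ∀ x, x ∈ D ↔ e₁ x ∈ D)
    (hD₂ : ∀ x, x ∈ D ↔ e₂ x ∈ D) (h1 : ∀ x ∈ D, x ∈ S ∨ e₁.symm x ∈ S)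
    (h2 : ∀ x ∈ S, e₂ x ∉ S) (h3 : ∀ x ∈ S, e₂.symm x ∉ S) (h4 : ∀ x ∈ S, e₂ (e₂ x) ∉ S)
    (ε₁ ε₂ : ℝ) (hε₁ : 0 ≤ ε₁) (hε₂ : 0 ≤ ε₂)
    (k1 : HasSum (fun x => (f (e₁ x) - f x) ^ 2) (∑' x, (f (e₁ x) - f x) ^ 2))
    (k1' : ∑' x, (f (e₁ x) - f x) ^ 2 ≤ ε₁ ^ 2)
    (k2 : HasSum (fun x => (f (e₂ x) - f x) ^ 2) (∑' x, (f (e₂ x) - f x) ^ 2))
    (k2' : ∑' x, (f (e₂ x) - f x) ^ 2 ≤ ε₂ ^ 2) :
    Real.sqrt (∑' x, D.indicator (fun x => f x ^ 2) x) ≤ 9 * (ε₁ + ε₂) := by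
  have hfe : ∀ e : X ≃ X, Summable fun x => f (e x) ^ 2 := fun e =>
    e.summable_iff.2 hf
  have hsq0 : ∀ (e : X ≃ X) (x : X), 0 ≤ f (e x) ^ 2 := fun e x => sq_nonneg _
  obtain ⟨a, ha⟩ : ∃ a, a = ∑' x, S.indicator (fun x => f x ^ 2) x := ⟨_, rfl⟩
  obtain ⟨A1, hA1⟩ : ∃ A1, A1 = ∑' x, S.indicator (fun x => f (e₁ x) ^ 2) x := ⟨_, rfl⟩
  obtain ⟨A2, hA2⟩ : ∃ A2, A2 = ∑' x, S.indicator (fun x => f (e₂ x) ^ 2) x := ⟨_, rfl⟩
  obtain ⟨A3, hA3⟩ : ∃ A3, A3 = ∑' x, S.indicator (fun x => f (e₂.symm x) ^ 2) x := ⟨_, rfl⟩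
  have i1 : A1 ≤ 11 / 10 * a + 11 * ∑' x, (f (e₁ x) - f x) ^ 2 := by
    rw [hA1, ha]
    exact gap_l2_cmp S _ _ _ (hfe e₁) hf k1.summable (fun x => sq_nonneg _)
      (fun x => sq_nonneg _) (fun x => gap_l2_pt (f x) (f (e₁ x)))
  have i2 : a ≤ 11 / 10 * A2 + 11 * ∑' x, (f (e₂ x) - f x) ^ 2 := by
    rw [hA2, ha]
    exact gap_l2_cmp S _ _ _ hf (hfe e₂) k2.summable (fun x => sq_nonneg _)
      (fun x => sq_nonneg _) (fun x => by
        have := gap_l2_pt (f (e₂ x)) (f x)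
        have h : (f x - f (e₂ x)) ^ 2 = (f (e₂ x) - f x) ^ 2 := by ring
        rw [h] at this
        exact this)
  have hs3 : Summable (fun x => (f x - f (e₂.symm x)) ^ 2) := by
    have := (e₂.symm.summable_iff (f := fun x => (f (e₂ x) - f x) ^ 2)).2 k2.summable
    refine this.congr ?_
    intro x
    simp
  have ht3 : ∑' x, (f x - f (e₂.symm x)) ^ 2 = ∑' x, (f (e₂ x) - f x) ^ 2 := by
    rw [← e₂.symm.tsum_eq (fun x => (f (e₂ x) - f x) ^ 2)]
    apply tsum_congr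
    intro x
    simp
  have i3 : a ≤ 11 / 10 * A3 + 11 * ∑' x, (f (e₂ x) - f x) ^ 2 := by
    rw [hA3, ha, ← ht3]
    exact gap_l2_cmp S _ _ _ hf (hfe e₂.symm) hs3 (fun x => sq_nonneg _)
      (fun x => sq_nonneg _) (fun x => gap_l2_pt (f (e₂.symm x)) (f x))
  have hS : Summable (S.indicator (fun x => f x ^ 2)) := hf.indicator S
  have hD : Summable (D.indicator (fun x => f x ^ 2)) := hf.indicator D
  have c1 : Summable (fun x => S.indicator (fun x => f (e₁ x) ^ 2) (e₁.symm x)) :=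
    (e₁.symm.summable_iff (f := S.indicator (fun x => f (e₁ x) ^ 2))).2 ((hfe e₁).indicator S)
  have c2 : Summable (fun x => S.indicator (fun x => f (e₂ x) ^ 2) (e₂.symm x)) :=
    (e₂.symm.summable_iff (f := S.indicator (fun x => f (e₂ x) ^ 2))).2 ((hfe e₂).indicator S)
  have c3 : Summable (fun x => S.indicator (fun x => f (e₂.symm x) ^ 2) (e₂ x)) :=
    (e₂.summable_iff (f := S.indicator (fun x => f (e₂.symm x) ^ 2))).2 ((hfe e₂.symm).indicator S)
  have j1 : ∑' x, D.indicator (fun x => f x ^ 2) x ≤ a + A1 := by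
    have e1 : A1 = ∑' x, S.indicator (fun x => f (e₁ x) ^ 2) (e₁.symm x) := by
      rw [hA1, e₁.symm.tsum_eq (S.indicator (fun x => f (e₁ x) ^ 2))]
    rw [e1, ha, ← hS.tsum_add c1]
    apply Summable.tsum_le_tsum _ hD (hS.add c1)
    intro x
    by_cases hx : x ∈ D
    · rw [Set.indicator_of_mem hx]
      rcases h1 x hx with h | h
      · rw [Set.indicator_of_mem h]
        have : 0 ≤ S.indicator (fun x => f (e₁ x) ^ 2) (e₁.symm x) :=
          Set.indicator_nonneg (fun y _ => sq_nonneg _) _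
        linarith
      · rw [Set.indicator_of_mem h]
        have : 0 ≤ S.indicator (fun x => f x ^ 2) x :=
          Set.indicator_nonneg (fun y _ => sq_nonneg _) _
        have h5 : f (e₁ (e₁.symm x)) ^ 2 = f x ^ 2 := by rw [Equiv.apply_symm_apply]
        rw [h5]
        linarith
    · rw [Set.indicator_of_notMem hx]
      have g1 : 0 ≤ S.indicator (fun x => f (e₁ x) ^ 2) (e₁.symm x) :=
        Set.indicator_nonneg (fun y _ => sq_nonneg _) _
      have g2 : 0 ≤ S.indicator (fun x => f x ^ 2) x :=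
        Set.indicator_nonneg (fun y _ => sq_nonneg _) _
      linarith
  have j2 : a + A2 + A3 ≤ ∑' x, D.indicator (fun x => f x ^ 2) x := by
    have e2 : A2 = ∑' x, S.indicator (fun x => f (e₂ x) ^ 2) (e₂.symm x) := by
      rw [hA2, e₂.symm.tsum_eq (S.indicator (fun x => f (e₂ x) ^ 2))]
    have e3 : A3 = ∑' x, S.indicator (fun x => f (e₂.symm x) ^ 2) (e₂ x) := by
      rw [hA3, e₂.tsum_eq (S.indicator (fun x => f (e₂.symm x) ^ 2))]
    have c12 : Summable (fun x => S.indicator (fun x => f x ^ 2) x +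
        S.indicator (fun x => f (e₂ x) ^ 2) (e₂.symm x)) := hS.add c2
    rw [e2, e3, ha, ← hS.tsum_add c2, ← c12.tsum_add c3]
    apply Summable.tsum_le_tsum _ (c12.add c3) hD
    intro x
    have h5 : f (e₂ (e₂.symm x)) ^ 2 = f x ^ 2 := by rw [Equiv.apply_symm_apply]
    have h6 : f (e₂.symm (e₂ x)) ^ 2 = f x ^ 2 := by rw [Equiv.symm_apply_apply]
    by_cases hx : x ∈ S
    · rw [Set.indicator_of_mem hx, Set.indicator_of_notMem (h3 x hx),
        Set.indicator_of_notMem (h2 x hx), Set.indicator_of_mem (hSD hx)]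
      linarith
    · rw [Set.indicator_of_notMem hx]
      by_cases hy : e₂.symm x ∈ S
      · have hz : e₂ x ∉ S := by
          have := h4 _ hy
          rwa [Equiv.apply_symm_apply] at this
        have hxD : x ∈ D := by
          have := (hD₂ (e₂.symm x)).1 (hSD hy)
          rwa [Equiv.apply_symm_apply] at this
        rw [Set.indicator_of_mem hy, Set.indicator_of_notMem hz, Set.indicator_of_mem hxD, h5]
        linarith
      · rw [Set.indicator_of_notMem hy]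
        by_cases hz : e₂ x ∈ S
        · have hxD : x ∈ D := (hD₂ x).2 (hSD hz)
          rw [Set.indicator_of_mem hz, Set.indicator_of_mem hxD, h6]
          linarith
        · rw [Set.indicator_of_notMem hz]
          have g2 : 0 ≤ D.indicator (fun x => f x ^ 2) x :=
            Set.indicator_nonneg (fun y _ => sq_nonneg _) _
          linarith
  rw [Real.sqrt_le_left (by positivity)]
  have hprod : 0 ≤ ε₁ * ε₂ := mul_nonneg hε₁ hε₂
  have hq1 := sq_nonneg ε₁
  have hq2 := sq_nonneg ε₂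
  nlinarith

end Pool.Agent.Helper133.OP
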