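import Mathlib
import Pool.Agent.Helper133.OP.Defs

set_option autoImplicit false
set_option linter.unusedSectionVars false
set_option linter.unusedVariables false

open scoped ComplexConjugate
open Pool.Agent.Helper278

namespace Pool.Agent.Helper133.OP



open scoped Topology
open Filter


theorem gsx_isReduced_cons {x y : Fin 3} {s t : Bool} {L : List (Fin 3 × Bool)}
    (h : FreeGroup.IsReduced ((x, s) :: L)) (hxy : y ≠ x ∨ t = s) :
    FreeGroup.IsReduced ((y, t) :: (x, s) :: L) := by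
  unfold FreeGroup.IsReduced at *
  rw [List.isChain_cons_cons]
  refine ⟨?_, h⟩
  intro hy
  rcases hxy with h1 | h1
  · exact absurd hy h1
  · exact h1

theorem gsx_left_mul {x y : Fin 3} {s t : Bool} {L : List (Fin 3 × Bool)} {w : KF}
    (hw : w.toWord = (x, s) :: L) (hxy : y ≠ x ∨ t = s) :
    (FreeGroup.mk [(y, t)] * w).toWord = (y, t) :: (x, s) :: L := by
  have h1 : FreeGroup.IsReduced ((x, s) :: L) := hw ▸ FreeGroup.isReduced_toWord
  have h2 := gsx_isReduced_cons h1 hxy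
  have h3 : FreeGroup.mk [(y, t)] * w = FreeGroup.mk ((y, t) :: (x, s) :: L) := by
    conv_lhs => rw [← FreeGroup.mk_toWord (x := w), hw]
    rw [FreeGroup.mul_mk]
    rfl
  rw [h3, FreeGroup.toWord_mk, h2.reduce_eq]

theorem gsx_right_mul {x y : Fin 3} {s t : Bool} {L : List (Fin 3 × Bool)} {w : KF}
    (hw : w.toWord = (x, s) :: L) (hxy : y ≠ x) :
    ∃ L', (w * FreeGroup.mk [(y, t)]).toWord = (x, s) :: L' := by
  have h1 : FreeGroup.IsReduced ((x, s) :: L) := hw ▸ FreeGroup.isReduced_toWord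
  have h3 : w * FreeGroup.mk [(y, t)] = FreeGroup.mk (((x, s) :: L) ++ [(y, t)]) := by
    conv_lhs => rw [← FreeGroup.mk_toWord (x := w), hw]
    rw [FreeGroup.mul_mk]
  by_cases h2 : FreeGroup.IsReduced (((x, s) :: L) ++ [(y, t)])
  · refine ⟨L ++ [(y, t)], ?_⟩
    rw [h3, FreeGroup.toWord_mk, h2.reduce_eq]
    rfl
  · -- the last letter cancels
    obtain ⟨M, z, r, hM⟩ : ∃ M z r, (x, s) :: L = M ++ [(z, r)] := by
      have := List.dropLast_append_getLast (l := (x, s) :: L) (by simp)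
      exact ⟨_, (((x, s) :: L).getLast (by simp)).1, (((x, s) :: L).getLast (by simp)).2, this.symm⟩
    have h4 : y = z ∧ t = !r := by
      by_contra hcon
      apply h2
      rw [hM]
      unfold FreeGroup.IsReduced at *
      rw [hM] at h1
      rw [List.isChain_append]
      refine ⟨h1, List.isChain_singleton _, ?_⟩
      intro p hp q hq
      simp only [List.getLast?_append, List.getLast?_singleton, Option.some_or, Option.mem_def,
        Option.some.injEq] at hp
      simp only [List.head?_cons, Option.mem_def, Option.some.injEq] at hq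
      subst hp hq
      intro hzy
      by_contra hne
      exact hcon ⟨hzy.symm, by
        cases r <;> cases t <;> simp_all⟩
    obtain ⟨h5, h6⟩ := h4
    subst h5 h6
    cases M with
    | nil =>
      simp only [List.nil_append, List.cons.injEq, Prod.mk.injEq] at hM
      exact absurd hM.1.1.symm hxy
    | cons m M =>
      simp only [List.cons_append, List.cons.injEq] at hM
      obtain ⟨hm, hL⟩ := hM
      refine ⟨M, ?_⟩
      have h7 : w * FreeGroup.mk [(y, !r)] = FreeGroup.mk ((x, s) :: M) := by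
        rw [h3, hL]
        have : ((x, s) :: (M ++ [(y, r)])) ++ [(y, !r)] =
            ((x, s) :: M) ++ ([(y, r)] ++ [(y, !r)]) := by
          simp
        rw [this, ← FreeGroup.mul_mk, ← FreeGroup.mul_mk (L₁ := [(y, r)])]
        have h8 : FreeGroup.mk [(y, r)] * FreeGroup.mk [(y, !r)] = 1 := by
          have : FreeGroup.mk [(y, !r)] = (FreeGroup.mk [(y, r)])⁻¹ := by
            rw [FreeGroup.inv_mk]
            rfl
          rw [this, mul_inv_cancel]
        rw [h8, mul_one]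
      have h8 : FreeGroup.IsReduced ((x, s) :: M) := by
        rw [hL] at h1
        unfold FreeGroup.IsReduced at *
        have : (x, s) :: (M ++ [(y, r)]) = ((x, s) :: M) ++ [(y, r)] := rfl
        rw [this] at h1
        exact (List.isChain_append.1 h1).1
      rw [h7, FreeGroup.toWord_mk, h8.reduce_eq]

theorem gsx_inv_of (x : Fin 3) : (FreeGroup.of x)⁻¹ = FreeGroup.mk [(x, false)] := by
  show (FreeGroup.mk [(x, true)])⁻¹ = _
  rw [FreeGroup.inv_mk]
  rfl

theorem gsx_of (x : Fin 3) : FreeGroup.of x = FreeGroup.mk [(x, true)] := rfl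

/-- words starting with the letter of index `1` -/
def gsxS : Set KF := {w | ∃ s L, w.toWord = ((1 : Fin 3), s) :: L}

theorem gsx_conj {x y : Fin 3} {s : Bool} (t t' : Bool) {L : List (Fin 3 × Bool)} {w : KF}
    (hw : w.toWord = (x, s) :: L) (hxy : y ≠ x) :
    ∃ L', (FreeGroup.mk [(y, t)] * w * FreeGroup.mk [(y, t')]).toWord = (y, t) :: L' := by
  obtain ⟨L', hL'⟩ := gsx_right_mul (t := t') hw hxy
  have h3 := gsx_left_mul (y := y) (t := t) hL' (Or.inl hxy)
  rw [mul_assoc]
  exact ⟨_, h3⟩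

theorem gsx_not {y : Fin 3} {t : Bool} {L : List (Fin 3 × Bool)} {w : KF}
    (hw : w.toWord = (y, t) :: L) (hy : y ≠ 1) : w ∉ gsxS := by
  rintro ⟨s, L', hL'⟩
  rw [hw] at hL'
  simp only [List.cons.injEq, Prod.mk.injEq] at hL'
  exact hy hL'.1.1

/-- the sets for the inequality, in the free group -/
theorem gap_sets : ∃ S : Set KF, (1 : KF) ∉ S ∧
    (∀ k : KF, k ≠ 1 → k ∈ S ∨ (FreeGroup.of 1)⁻¹ * k * FreeGroup.of 1 ∈ S) ∧
    (∀ k ∈ S, FreeGroup.of 2 * k * (FreeGroup.of 2)⁻¹ ∉ S) ∧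
    (∀ k ∈ S, (FreeGroup.of 2)⁻¹ * k * FreeGroup.of 2 ∉ S) ∧
    (∀ k ∈ S, FreeGroup.of 2 * (FreeGroup.of 2 * k * (FreeGroup.of 2)⁻¹) * (FreeGroup.of 2)⁻¹ ∉ S)
    := by
  have h21 : (2 : Fin 3) ≠ 1 := by decide
  refine ⟨gsxS, ?_, ?_, ?_, ?_, ?_⟩
  · rintro ⟨s, L, hL⟩
    rw [FreeGroup.toWord_one] at hL
    simp at hL
  · intro k hk
    have h1 : k.toWord ≠ [] := fun h => hk (FreeGroup.toWord_eq_nil_iff.1 h)
    obtain ⟨⟨x, s⟩, L, hL⟩ := List.exists_cons_of_ne_nil h1
    by_cases hx : x = 1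
    · subst hx
      exact Or.inl ⟨s, L, hL⟩
    · right
      rw [gsx_inv_of, gsx_of]
      obtain ⟨L', hL'⟩ := gsx_conj false true hL (Ne.symm hx)
      exact ⟨_, _, hL'⟩
  · rintro k ⟨s, L, hL⟩
    rw [gsx_inv_of, gsx_of]
    obtain ⟨L', hL'⟩ := gsx_conj true false hL h21
    exact gsx_not hL' h21
  · rintro k ⟨s, L, hL⟩
    rw [gsx_inv_of, gsx_of]
    obtain ⟨L', hL'⟩ := gsx_conj false true hL h21
    exact gsx_not hL' h21
  · rintro k ⟨s, L, hL⟩
    obtain ⟨L', hL'⟩ := gsx_right_mul (t := false) hL h21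
    obtain ⟨L'', hL''⟩ := gsx_right_mul (t := false) hL' h21
    have h3 := gsx_left_mul (y := (2 : Fin 3)) (t := true) hL'' (Or.inl h21)
    have h4 := gsx_left_mul (y := (2 : Fin 3)) (t := true) h3 (Or.inr rfl)
    have e : FreeGroup.of 2 * (FreeGroup.of 2 * k * (FreeGroup.of 2)⁻¹) * (FreeGroup.of 2)⁻¹ =
        FreeGroup.of 2 * (FreeGroup.of 2 * (k * (FreeGroup.of 2)⁻¹ * (FreeGroup.of 2)⁻¹)) := by
      group
    rw [e, gsx_inv_of, gsx_of]
    exact gsx_not h4 h21

end Pool.Agent.Helper133.OP
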