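import Mathlib
import Pool.Agent.Helper133.OP.Defs

set_option autoImplicit false
set_option linter.unusedSectionVars false
set_option linter.unusedVariables false

open scoped ComplexConjugate
open Pool.Agent.Helper278

namespace Pool.Agent.Helper133.OP



open scoped Topology
open Filter

theorem conj_word (k : KF) (i : Fin 3) (hk : k ≠ 1) (h1 : ∀ y ∈ k.toWord.head?, y.1 ≠ i)
    (h2 : ∀ y ∈ k.toWord.getLast?, y.1 ≠ i) (j : ℕ) :
    (FreeGroup.of i ^ j * k * (FreeGroup.of i ^ j)⁻¹).toWord.length = 2 * j + k.toWord.length := by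
  have hne : k.toWord ≠ [] := fun h => hk (FreeGroup.toWord_eq_nil_iff.1 h)
  have ha : ∀ a ∈ (FreeGroup.of i ^ j : KF).toWord, a.1 = i := by
    intro a ha
    rw [FreeGroup.toWord_of_pow] at ha
    rw [(List.mem_replicate.1 ha).2]
  have hb : ∀ a ∈ ((FreeGroup.of i ^ j : KF)⁻¹).toWord, a.1 = i := by
    intro a ha
    rw [FreeGroup.toWord_inv, FreeGroup.toWord_of_pow] at ha
    unfold FreeGroup.invRev at ha
    rw [List.mem_reverse, List.mem_map] at ha
    obtain ⟨b, hb, rfl⟩ := ha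
    rw [(List.mem_replicate.1 hb).2]
  have hred : FreeGroup.IsReduced ((FreeGroup.of i ^ j : KF).toWord ++
      (k.toWord ++ ((FreeGroup.of i ^ j : KF)⁻¹).toWord)) := by
    have r1 : FreeGroup.IsReduced (FreeGroup.of i ^ j : KF).toWord := FreeGroup.isReduced_toWord
    have r2 : FreeGroup.IsReduced k.toWord := FreeGroup.isReduced_toWord
    have r3 : FreeGroup.IsReduced ((FreeGroup.of i ^ j : KF)⁻¹).toWord := FreeGroup.isReduced_toWord
    unfold FreeGroup.IsReduced at r1 r2 r3 ⊢
    rw [List.isChain_append, List.isChain_append]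
    refine ⟨r1, ⟨r2, r3, ?_⟩, ?_⟩
    · intro x hx y hy hxy
      exact absurd (hxy.trans (hb y (List.mem_of_mem_head? hy))) (h2 x hx)
    · intro x hx y hy hxy
      have hy' : y ∈ k.toWord.head? := by
        rw [List.head?_append_of_ne_nil _ hne] at hy
        exact hy
      exact absurd (hxy.symm.trans (ha x (List.mem_of_mem_getLast? hx))) (h1 y hy')
  have he : FreeGroup.of i ^ j * k * (FreeGroup.of i ^ j)⁻¹ =
      FreeGroup.mk ((FreeGroup.of i ^ j : KF).toWord ++
      (k.toWord ++ ((FreeGroup.of i ^ j : KF)⁻¹).toWord)) := by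
    rw [← FreeGroup.mul_mk, ← FreeGroup.mul_mk, FreeGroup.mk_toWord, FreeGroup.mk_toWord,
      FreeGroup.mk_toWord, mul_assoc]
  rw [he, FreeGroup.toWord_mk, hred.reduce_eq, List.length_append, List.length_append,
    FreeGroup.toWord_inv, FreeGroup.invRev_length, FreeGroup.toWord_of_pow, List.length_replicate]
  omega

theorem exists_conj (k : KF) (hk : k ≠ 1) :
    ∃ i : Fin 3, Function.Injective fun j : ℕ => FreeGroup.of i ^ j * k * (FreeGroup.of i ^ j)⁻¹ := by
  have hne : k.toWord ≠ [] := fun h => hk (FreeGroup.toWord_eq_nil_iff.1 h)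
  obtain ⟨a, ha⟩ : ∃ a, k.toWord.head? = some a := ⟨_, List.head?_eq_some_head hne⟩
  obtain ⟨b, hb⟩ : ∃ b, k.toWord.getLast? = some b := ⟨_, List.getLast?_eq_some_getLast hne⟩
  obtain ⟨i, hi1, hi2⟩ : ∃ i : Fin 3, a.1 ≠ i ∧ b.1 ≠ i := by
    have : ∀ x y : Fin 3, ∃ i : Fin 3, x ≠ i ∧ y ≠ i := by decide
    exact this a.1 b.1
  refine ⟨i, fun j l hjl => ?_⟩
  have e1 := conj_word k i hk (by rw [ha]; intro y hy; rw [Option.mem_some_iff] at hy; rw [← hy]; exact hi1)
    (by rw [hb]; intro y hy; rw [Option.mem_some_iff] at hy; rw [← hy]; exact hi2) j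
  have e2 := conj_word k i hk (by rw [ha]; intro y hy; rw [Option.mem_some_iff] at hy; rw [← hy]; exact hi1)
    (by rw [hb]; intro y hy; rw [Option.mem_some_iff] at hy; rw [← hy]; exact hi2) l
  have hjl' : FreeGroup.of i ^ j * k * (FreeGroup.of i ^ j)⁻¹ =
    FreeGroup.of i ^ l * k * (FreeGroup.of i ^ l)⁻¹ := hjl
  rw [hjl'] at e1
  omega

theorem icc_SG : Infinite SG ∧ ∀ g : SG, g ≠ 1 → (Set.range fun h : SG => h * g * h⁻¹).Infinite := by
  constructor
  · refine Infinite.of_injective (fun n : ℕ => dl {n} (FreeGroup.of 0)) ?_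
    intro n m hnm
    have h1 : (dl {n} (FreeGroup.of 0)).1 n = (dl {m} (FreeGroup.of 0)).1 n :=
      congrFun (congrArg Subtype.val hnm) n
    by_contra hne
    have h2 : (dl {n} (FreeGroup.of 0)).1 n = FreeGroup.of 0 := if_pos (Finset.mem_singleton_self n)
    have h3 : (dl {m} (FreeGroup.of 0)).1 n = 1 := if_neg fun h => hne (Finset.mem_singleton.1 h)
    rw [h2, h3] at h1
    have h4 : (FreeGroup.of 0 : KF).toWord = [] := by rw [h1]; exact FreeGroup.toWord_one
    rw [FreeGroup.toWord_of] at h4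
    exact absurd h4 (List.cons_ne_nil _ _)
  · intro g hg
    obtain ⟨n, hn⟩ : ∃ n, g.1 n ≠ 1 := by
      by_contra h
      push Not at h
      exact hg (Subtype.ext (funext h))
    obtain ⟨i, hi⟩ := exists_conj (g.1 n) hn
    have hinj : Function.Injective fun j : ℕ =>
        (dl {n} (FreeGroup.of i ^ j) * g * (dl {n} (FreeGroup.of i ^ j))⁻¹ : SG) := by
      intro j l hjl
      apply hi
      have h1 := congrFun (congrArg Subtype.val hjl) n
      have h2 : ∀ j : ℕ, (dl {n} (FreeGroup.of i ^ j) * g * (dl {n} (FreeGroup.of i ^ j))⁻¹ : SG).1 n =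
          FreeGroup.of i ^ j * g.1 n * (FreeGroup.of i ^ j)⁻¹ := by
        intro j
        change (if n ∈ ({n} : Finset ℕ) then FreeGroup.of i ^ j else 1) * g.1 n *
          (if n ∈ ({n} : Finset ℕ) then FreeGroup.of i ^ j else 1)⁻¹ = _
        rw [if_pos (Finset.mem_singleton_self n)]
      have h3 : (dl {n} (FreeGroup.of i ^ j) * g * (dl {n} (FreeGroup.of i ^ j))⁻¹ : SG).1 n =
        (dl {n} (FreeGroup.of i ^ l) * g * (dl {n} (FreeGroup.of i ^ l))⁻¹ : SG).1 n := h1
      rw [h2, h2] at h3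
      exact h3
    exact (Set.infinite_range_of_injective hinj).mono (by
      rintro _ ⟨j, rfl⟩
      exact ⟨dl {n} (FreeGroup.of i ^ j), rfl⟩)

end Pool.Agent.Helper133.OP
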