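import Mathlib
import Pool.Agent.Helper133.OP.Defs

set_option autoImplicit false
set_option linter.unusedSectionVars false
set_option linter.unusedVariables false

open scoped ComplexConjugate
open Pool.Agent.Helper278

namespace Pool.Agent.Helper133.OP



open scoped Topology
open Filter

/-- the key computation -/
theorem key_BB (hl : ∀ x x' y : SG, BB (x * x') y = BB x y + BB x' y)
    (hr : ∀ x y y' : SG, BB x (y * y') = BB x y + BB x y')
    (hq : ∀ x y : SG, qq (x * y) = qq x + qq y)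
    (hlow : ∀ (N : ℕ) (x y : SG), (∀ n, N ≤ n → x.1 n = 1) → (∀ n, n < N → y.1 n = 1) →
      BB x y = 0)
    (hhigh : ∀ (N : ℕ) (x y : SG), (∀ n, n < N → x.1 n = 1) → (∀ n, N ≤ n → y.1 n = 1) →
      BB x y = qq x * qq y)
    (N₀ N₂ : ℕ) (hN : N₀ ≤ N₂) (g : SG) (hg : ∀ n, n < N₀ → g.1 n = 1) (hg0 : qq g = 0) :
    ∃ s : ZMod 3, ∀ h h' : SG, (∀ n, N₂ ≤ n → h.1 n = 1) → (∀ n, N₀ ≤ n → n < N₂ → h'.1 n = 1) →
      ((g * h = h' ↔ h * g = h') ∧ (g * h = h' → BB h g - BB g h = -(s * s))) := by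
  have hl1 : ∀ y : SG, BB 1 y = 0 := by
    intro y
    have h := hl 1 1 y
    rw [mul_one] at h
    linear_combination -h
  have hr1 : ∀ y : SG, BB y 1 = 0 := by
    intro y
    have h := hr y 1 1
    rw [mul_one] at h
    linear_combination -h
  have hli : ∀ x y : SG, BB x⁻¹ y = -BB x y := by
    intro x y
    have h := hl x x⁻¹ y
    rw [mul_inv_cancel, hl1] at h
    linear_combination -h
  have hri : ∀ x y : SG, BB x y⁻¹ = -BB x y := by
    intro x y
    have h := hr x y y⁻¹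
    rw [mul_inv_cancel, hr1] at h
    linear_combination -h
  obtain ⟨Ng, hNg⟩ := g.2
  obtain ⟨g1, hg1⟩ : ∃ g1 : SG, ∀ n, g1.1 n = if n < N₂ then g.1 n else 1 :=
    ⟨⟨fun n => if n < N₂ then g.1 n else 1, ⟨N₂, fun n hn => if_neg (not_lt.2 hn)⟩⟩, fun n => rfl⟩
  obtain ⟨g2, hg2⟩ : ∃ g2 : SG, ∀ n, g2.1 n = if n < N₂ then 1 else g.1 n := by
    refine ⟨⟨fun n => if n < N₂ then 1 else g.1 n, ⟨Ng, fun n hn => ?_⟩⟩, fun n => rfl⟩
    show (if n < N₂ then 1 else g.1 n) = 1
    rw [hNg n hn, ite_self]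
  have hgg : g = g1 * g2 := by
    apply Subtype.ext
    funext n
    show g.1 n = g1.1 n * g2.1 n
    rw [hg1, hg2]
    by_cases h : n < N₂
    · rw [if_pos h, if_pos h, mul_one]
    · rw [if_neg h, if_neg h, one_mul]
  have hqs : qq g1 + qq g2 = 0 := by rw [← hq, ← hgg, hg0]
  refine ⟨qq g1, fun h h' hh hh' => ⟨?_, ?_⟩⟩
  · constructor
    · intro he
      apply Subtype.ext
      funext n
      have hen : g.1 n * h.1 n = h'.1 n := by rw [← he]; rfl
      show h.1 n * g.1 n = h'.1 n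
      by_cases h1 : n < N₀
      · rw [hg n h1, one_mul] at hen
        rw [hg n h1, mul_one]; exact hen
      · by_cases h2 : n < N₂
        · rw [hh' n (not_lt.1 h1) h2] at hen ⊢
          exact mul_eq_one_comm.1 hen
        · rw [hh n (not_lt.1 h2), mul_one] at hen
          rw [hh n (not_lt.1 h2), one_mul]; exact hen
    · intro he
      apply Subtype.ext
      funext n
      have hen : h.1 n * g.1 n = h'.1 n := by rw [← he]; rfl
      show g.1 n * h.1 n = h'.1 n
      by_cases h1 : n < N₀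
      · rw [hg n h1, mul_one] at hen
        rw [hg n h1, one_mul]; exact hen
      · by_cases h2 : n < N₂
        · rw [hh' n (not_lt.1 h1) h2] at hen ⊢
          exact mul_eq_one_comm.1 hen
        · rw [hh n (not_lt.1 h2), one_mul] at hen
          rw [hh n (not_lt.1 h2), mul_one]; exact hen
  · intro he
    obtain ⟨h0, hh0⟩ : ∃ h0 : SG, ∀ n, h0.1 n = if n < N₀ then h.1 n else 1 :=
      ⟨⟨fun n => if n < N₀ then h.1 n else 1, ⟨N₀, fun n hn => if_neg (not_lt.2 hn)⟩⟩, fun n => rfl⟩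
    have hhe : h = h0 * g1⁻¹ := by
      apply Subtype.ext
      funext n
      have hen : g.1 n * h.1 n = h'.1 n := by rw [← he]; rfl
      show h.1 n = h0.1 n * (g1.1 n)⁻¹
      rw [hh0, hg1]
      by_cases h1 : n < N₀
      · rw [if_pos h1, if_pos (lt_of_lt_of_le h1 hN), hg n h1, inv_one, mul_one]
      · by_cases h2 : n < N₂
        · rw [if_neg h1, if_pos h2, one_mul]
          rw [hh' n (not_lt.1 h1) h2] at hen
          exact eq_inv_of_mul_eq_one_right hen
        · rw [if_neg h1, if_neg h2, inv_one, mul_one, hh n (not_lt.1 h2)]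
    have a0 : ∀ n, N₀ ≤ n → h0.1 n = 1 := fun n hn => by rw [hh0, if_neg (not_lt.2 hn)]
    have a1 : ∀ n, n < N₀ → g1.1 n = 1 := fun n hn => by
      rw [hg1, hg n hn, ite_self]
    have a2 : ∀ n, n < N₀ → g2.1 n = 1 := fun n hn => by
      rw [hg2, hg n hn, ite_self]
    have a3 : ∀ n, N₂ ≤ n → g1.1 n = 1 := fun n hn => by rw [hg1, if_neg (not_lt.2 hn)]
    have a4 : ∀ n, n < N₂ → g2.1 n = 1 := fun n hn => by rw [hg2, if_pos hn]
    have b1 := hlow N₀ h0 g1 a0 a1
    have b2 := hlow N₀ h0 g2 a0 a2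
    have b3 := hlow N₂ g1 g2 a3 a4
    have b4 := hhigh N₀ g1 h0 a1 a0
    have b5 := hhigh N₀ g2 h0 a2 a0
    have b6 := hhigh N₂ g2 g1 a4 a3
    have c1 : BB h g = BB h0 g1 + BB h0 g2 - (BB g1 g1 + BB g1 g2) := by
      rw [hhe, hl, hli, hgg, hr, hr]; ring
    have c2 : BB g h = BB g1 h0 + BB g2 h0 - (BB g1 g1 + BB g2 g1) := by
      rw [hhe, hr, hri, hgg, hl, hl]; ring
    rw [c1, c2, b1, b2, b3, b4, b5, b6]
    linear_combination (qq g1 - qq h0) * hqs

end Pool.Agent.Helper133.OP
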