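import Mathlib
import Pool.Agent.Helper133.OP.Defs

set_option autoImplicit false
set_option linter.unusedSectionVars false
set_option linter.unusedVariables false

open scoped ComplexConjugate
open Pool.Agent.Helper278

namespace Pool.Agent.Helper133.OP



open scoped Topology
open Filter

theorem lev_exists (F : Finset SG) (N : ℕ) : ∃ M, N < M ∧ ∀ g ∈ F, ∀ n, M ≤ n → g.1 n = 1 := by
  classical
  induction F using Finset.induction_on with
  | empty => exact ⟨N + 1, Nat.lt_succ_self N, fun g hg => absurd hg (Finset.notMem_empty g)⟩
  | insert a F ha ih =>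
    obtain ⟨M, hM, h⟩ := ih
    obtain ⟨M', hM'⟩ := a.2
    refine ⟨max M M', lt_of_lt_of_le hM (le_max_left _ _), ?_⟩
    intro g hg n hn
    rcases Finset.mem_insert.1 hg with rfl | hg
    · exact hM' n (le_trans (le_max_right _ _) hn)
    · exact h g hg n (le_trans (le_max_left _ _) hn)

end Pool.Agent.Helper133.OP
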