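import Mathlib
import Pool.Agent.Helper133.OP.Defs

set_option autoImplicit false
set_option linter.unusedSectionVars false
set_option linter.unusedVariables false

open scoped ComplexConjugate
open Pool.Agent.Helper278

namespace Pool.Agent.Helper133.OP



open scoped Topology
open Filter

theorem qq_dl (m : ℕ) (k : KF) : qq (dl {m} k) = chg k := by
  unfold qq
  have h1 : ∀ n, (dl {m} k).1 n = if n = m then k else 1 := by
    intro n
    change (if n ∈ ({m} : Finset ℕ) then k else 1) = _
    simp only [Finset.mem_singleton]
  rw [finsum_eq_single _ m]
  · rw [h1, if_pos rfl]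
  · intro n hn
    rw [h1, if_neg hn, chg_one]

end Pool.Agent.Helper133.OP
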