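import Mathlib
import Pool.Agent.Helper133.OP.Defs

set_option autoImplicit false
set_option linter.unusedSectionVars false
set_option linter.unusedVariables false

open scoped ComplexConjugate
open Pool.Agent.Helper278

namespace Pool.Agent.Helper133.OP



open scoped Topology
open Filter

theorem qq_mul_supp (x : SG) : (Function.support fun m => chg (x.1 m)).Finite := by
  obtain ⟨N, hN⟩ := x.2
  refine (Finset.range N).finite_toSet.subset fun m hm => ?_
  rw [Finset.mem_coe, Finset.mem_range]
  by_contra h
  apply hm
  show chg (x.1 m) = 0
  rw [hN m (not_lt.1 h), chg_one]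

theorem qq_mul (x y : SG) : qq (x * y) = qq x + qq y := by
  unfold qq
  rw [← finsum_add_distrib (qq_mul_supp x) (qq_mul_supp y)]
  refine finsum_congr fun m => ?_
  show chg (x.1 m * y.1 m) = _
  rw [chg_mul]

end Pool.Agent.Helper133.OP
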