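import Mathlib
import Pool.Agent.Helper133.OP.Defs

set_option autoImplicit false
set_option linter.unusedSectionVars false
set_option linter.unusedVariables false

open scoped ComplexConjugate
open Pool.Agent.Helper278

namespace Pool.Agent.Helper133.OP



open scoped Topology
open Filter

theorem w3_facts : w3 0 = 1 ∧ (∀ a b : ZMod 3, w3 (a + b) = w3 a * w3 b) ∧
    (∀ a : ZMod 3, ‖w3 a‖ = 1) ∧ (∀ a : ZMod 3, conj (w3 a) = w3 (-a)) ∧
    (w3 1).re = -1 / 2 ∧ (w3 2).re = -1 / 2 ∧ (∀ a : ZMod 3, a ≠ 0 → ‖1 - w3 a‖ ^ 2 = 3) := by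
  have h0 : w3 0 = 1 := by unfold w3; exact AddChar.map_zero_eq_one _
  have hadd : ∀ a b : ZMod 3, w3 (a + b) = w3 a * w3 b := by
    intro a b; unfold w3; exact AddChar.map_add_eq_mul _ a b
  have hn : ∀ a : ZMod 3, ‖w3 a‖ = 1 := by
    intro a
    unfold w3
    rw [ZMod.stdAddChar_apply]
    exact Circle.norm_coe _
  have hconj : ∀ a : ZMod 3, conj (w3 a) = w3 (-a) := by
    intro a
    have h1 : w3 a * w3 (-a) = 1 := by rw [← hadd, add_neg_cancel, h0]
    have h2 : w3 a * conj (w3 a) = 1 := by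
      rw [Complex.mul_conj, Complex.normSq_eq_norm_sq, hn]; simp
    have h3 : w3 a ≠ 0 := by
      intro h; rw [h, zero_mul] at h1; exact zero_ne_one h1
    exact mul_left_cancel₀ h3 (h2.trans h1.symm)
  have hre1 : (w3 1).re = -1 / 2 := by
    have h1 : w3 1 = Complex.exp (2 * Real.pi * Complex.I * ((1:ℤ):ℂ) / (3:ℕ)) := by
      unfold w3
      have := ZMod.stdAddChar_coe (N := 3) (1:ℤ)
      simpa using this
    rw [h1]
    have h2 : (2 * Real.pi * Complex.I * ((1:ℤ):ℂ) / (3:ℕ)) =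
        ((2 * Real.pi / 3 : ℝ) : ℂ) * Complex.I := by
      push_cast; ring
    rw [h2, Complex.exp_ofReal_mul_I_re]
    have h3 : (2 * Real.pi / 3 : ℝ) = Real.pi - Real.pi / 3 := by ring
    rw [h3, Real.cos_pi_sub, Real.cos_pi_div_three]
    norm_num
  have hre2 : (w3 2).re = -1 / 2 := by
    have h1 : (2 : ZMod 3) = -1 := by decide
    rw [h1, ← hconj, Complex.conj_re, hre1]
  refine ⟨h0, hadd, hn, hconj, hre1, hre2, ?_⟩
  intro a ha
  have hre : (w3 a).re = -1 / 2 := by
    have : a = 1 ∨ a = 2 := by revert a; decide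
    rcases this with h | h
    · rw [h]; exact hre1
    · rw [h]; exact hre2
  have h1 : ‖1 - w3 a‖ ^ 2 = 1 - 2 * (w3 a).re + ‖w3 a‖ ^ 2 := by
    rw [← Complex.normSq_eq_norm_sq, ← Complex.normSq_eq_norm_sq, Complex.normSq_apply, Complex.normSq_apply]
    simp
    ring
  rw [h1, hre, hn]
  norm_num

end Pool.Agent.Helper133.OP
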