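import Mathlib
import Pool.Agent.Helper133.OP.Xw3facts
import Pool.Agent.Helper133.OP.XBBleft
import Pool.Agent.Helper133.OP.XBBright
import Pool.Agent.Helper133.OP.Xqqmul
import Pool.Agent.Helper133.OP.XBBlow
import Pool.Agent.Helper133.OP.XBBhigh
import Pool.Agent.Helper133.OP.XBBdl
import Pool.Agent.Helper133.OP.Xqqdl
import Pool.Agent.Helper133.OP.XiccSG
import Pool.Agent.Helper133.OP.XkeyBB
import Pool.Agent.Helper133.OP.Xgapsets
import Pool.Agent.Helper133.OP.Xgapl2
import Pool.Agent.Helper133.OP.XTGfacts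
import Pool.Agent.Helper133.OP.XTGnormsum
import Pool.Agent.Helper133.OP.XTGfinapprox
import Pool.Agent.Helper133.OP.XTGcoefshift
import Pool.Agent.Helper133.OP.XTGchargegap
import Pool.Agent.Helper133.OP.XTGmDfacts
import Pool.Agent.Helper133.OP.XTGiDfacts
import Pool.Agent.Helper133.OP.XTGkeycoef
import Pool.Agent.Helper133.OP.XTGrenonpos
import Pool.Agent.Helper133.OP.XTGcommapprox
import Pool.Agent.Helper133.OP.XTGcommlev
import Pool.Agent.Helper133.OP.Xlevexists
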