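import Mathlib
import Pool.Agent.Helper278.RGVN
import Pool.Agent.Helper278.RGKap
import Pool.Agent.Helper133.OP.Defs

set_option autoImplicit false
set_option linter.unusedSectionVars false

open scoped InnerProductSpace ComplexOrder ComplexConjugate
open Filter Topology

namespace Pool.Agent.Helper133.OP

open Pool.Agent.Helper278

/-- the facts on characters and the form that are used below -/
structure Fx : Prop where
  w0 : w3 0 = 1
  wadd : ∀ a b : ZMod 3, w3 (a + b) = w3 a * w3 b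
  wn : ∀ a : ZMod 3, ‖w3 a‖ = 1
  wc : ∀ a : ZMod 3, conj (w3 a) = w3 (-a)
  hl : ∀ x x' y : SG, BB (x * x') y = BB x y + BB x' y
  hr : ∀ x y y' : SG, BB x (y * y') = BB x y + BB x y'

theorem Fx.one_left (f : Fx) (y : SG) : BB 1 y = 0 := by
  have h := f.hl 1 1 y
  rw [mul_one] at h
  simpa using h

theorem Fx.one_right (f : Fx) (x : SG) : BB x 1 = 0 := by
  have h := f.hr x 1 1
  rw [mul_one] at h
  simpa using h

theorem Fx.inv_left (f : Fx) (x y : SG) : BB x⁻¹ y = -BB x y := by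
  have h := f.hl x x⁻¹ y
  rw [mul_inv_cancel, f.one_left] at h
  exact (neg_eq_of_add_eq_zero_right h.symm).symm

theorem Fx.inv_right (f : Fx) (x y : SG) : BB x y⁻¹ = -BB x y := by
  have h := f.hr x y y⁻¹
  rw [mul_inv_cancel, f.one_right] at h
  exact (neg_eq_of_add_eq_zero_right h.symm).symm

section

variable {K : Type} [NormedAddCommGroup K] [InnerProductSpace ℂ K] [CompleteSpace K]

/-- weighted permutation operators exist -/
def Wop (b : HilbertBasis SG ℂ K) : Prop := ∀ (w : SG → ℂ) (_ : ∀ g, ‖w g‖ = 1) (e : SG ≃ SG),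
    ∃ T : K →L[ℂ] K, (∀ h, T (b h) = w h • b (e h)) ∧
      ∀ h, (star T) (b (e h)) = conj (w h) • b h

variable (b : HilbertBasis SG ℂ K)

/-- the weighted permutation operator -/
noncomputable def wop (w : SG → ℂ) (e : SG ≃ SG) : K →L[ℂ] K := by
  classical
  exact if h : ∃ T : K →L[ℂ] K, (∀ h, T (b h) = w h • b (e h)) ∧
      ∀ h, (star T) (b (e h)) = conj (w h) • b h then h.choose else 0

variable {b}

theorem wop_basis (hb : Wop b) (w : SG → ℂ) (hw : ∀ g, ‖w g‖ = 1) (e : SG ≃ SG) (h : SG) :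
    wop b w e (b h) = w h • b (e h) := by
  unfold wop
  rw [dif_pos (hb w hw e)]
  exact (hb w hw e).choose_spec.1 h

theorem star_wop_basis (hb : Wop b) (w : SG → ℂ) (hw : ∀ g, ‖w g‖ = 1) (e : SG ≃ SG) (h : SG) :
    (star (wop b w e)) (b (e h)) = conj (w h) • b h := by
  unfold wop
  rw [dif_pos (hb w hw e)]
  exact (hb w hw e).choose_spec.2 h

variable (b)

/-- left translations -/
noncomputable def lamT (g : SG) : K →L[ℂ] K := wop b (fun h => w3 (BB g h)) (Equiv.mulLeft g)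

/-- right translations -/
noncomputable def rhoT (g : SG) : K →L[ℂ] K := wop b (fun h => w3 (BB h g)) (Equiv.mulRight g)

/-- the twisted group von Neumann algebra -/
noncomputable def LT : VonNeumannAlgebra K := vnGen (Set.range (lamT b))

variable {b} (f : Fx) (hb : Wop b)

include f hb

theorem lamT_basis (g h : SG) : lamT b g (b h) = w3 (BB g h) • b (g * h) :=
  wop_basis hb _ (fun _ => f.wn _) _ h

theorem rhoT_basis (g h : SG) : rhoT b g (b h) = w3 (BB h g) • b (h * g) :=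
  wop_basis hb _ (fun _ => f.wn _) _ h

theorem lamT_mul (g h : SG) : lamT b g * lamT b h = w3 (BB g h) • lamT b (g * h) := by
  apply ext_basis b
  intro k
  show lamT b g (lamT b h (b k)) = w3 (BB g h) • lamT b (g * h) (b k)
  rw [lamT_basis f hb, map_smul, lamT_basis f hb, lamT_basis f hb, smul_smul, smul_smul,
    ← f.wadd, ← f.wadd, mul_assoc, f.hr, f.hl]
  congr 2
  abel

theorem lamT_one : lamT b 1 = 1 := by
  apply ext_basis b
  intro k
  rw [lamT_basis f hb, f.one_left, f.w0, one_mul, one_smul]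
  rfl

theorem star_lamT (g : SG) : star (lamT b g) = w3 (BB g g) • lamT b g⁻¹ := by
  apply ext_basis b
  intro k
  have h1 := star_wop_basis hb (fun h => w3 (BB g h)) (fun _ => f.wn _) (Equiv.mulLeft g)
    (g⁻¹ * k)
  have h2 : (Equiv.mulLeft g) (g⁻¹ * k) = k := by
    show g * (g⁻¹ * k) = k
    group
  rw [h2] at h1
  show (star (wop b (fun h => w3 (BB g h)) (Equiv.mulLeft g))) (b k) =
    w3 (BB g g) • lamT b g⁻¹ (b k)
  rw [h1, lamT_basis f hb, smul_smul, ← f.wadd, f.wc, f.hr, f.inv_left, f.inv_right]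
  congr 2
  abel

theorem lam_rhoT (g h : SG) : lamT b g * rhoT b h = rhoT b h * lamT b g := by
  apply ext_basis b
  intro k
  show lamT b g (rhoT b h (b k)) = rhoT b h (lamT b g (b k))
  rw [lamT_basis f hb, rhoT_basis f hb, map_smul, map_smul, lamT_basis f hb, rhoT_basis f hb,
    smul_smul, smul_smul, ← f.wadd, ← f.wadd, f.hr, f.hl, mul_assoc]
  congr 2
  abel

omit f hb in
theorem mem_LT (z : K →L[ℂ] K) : z ∈ LT b ↔
    ∀ t ∈ StarSubalgebra.centralizer ℂ (Set.range (lamT b)), t * z = z * t ∧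
      star t * z = z * star t :=
  StarSubalgebra.mem_centralizer_iff (R := ℂ)

theorem mem_commT (t : K →L[ℂ] K) :
    t ∈ StarSubalgebra.centralizer ℂ (Set.range (lamT b)) ↔
      ∀ g : SG, lamT b g * t = t * lamT b g := by
  rw [StarSubalgebra.mem_centralizer_iff (R := ℂ)]
  constructor
  · intro h g
    exact (h _ ⟨g, rfl⟩).1
  · rintro h _ ⟨g, rfl⟩
    refine ⟨h g, ?_⟩
    rw [star_lamT f hb, smul_mul_assoc, mul_smul_comm, h g⁻¹]

theorem lamT_mem (g : SG) : lamT b g ∈ LT b := by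
  rw [mem_LT]
  intro t ht
  have ht' := (mem_commT f hb t).1 ht
  refine ⟨(ht' g).symm, ?_⟩
  have h1 := congrArg star (ht' g⁻¹)
  rw [star_mul, star_mul, star_lamT f hb, inv_inv, f.inv_left, f.inv_right, neg_neg] at h1
  rw [mul_smul_comm, smul_mul_assoc] at h1
  have h2 : w3 (BB g g) ≠ 0 := by
    intro h
    have := f.wn (BB g g)
    rw [h, norm_zero] at this
    exact zero_ne_one this
  exact smul_right_injective _ h2 h1

theorem comm_rightT (x : K →L[ℂ] K) (hx : x ∈ LT b) (g : SG) :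
    rhoT b g * x = x * rhoT b g := by
  rw [mem_LT] at hx
  exact (hx (rhoT b g) ((mem_commT f hb _).2 fun h => lam_rhoT f hb h g)).1

omit f hb in
variable (b) in
/-- the canonical trace -/
noncomputable def trT : Elt (LT b) →ₗ[ℂ] ℂ where
  toFun x := ⟪b 1, (x : K →L[ℂ] K) (b 1)⟫_ℂ
  map_add' x y := by
    show ⟪b 1, (x : K →L[ℂ] K) (b 1) + (y : K →L[ℂ] K) (b 1)⟫_ℂ = _
    rw [inner_add_right]
  map_smul' c x := by
    show ⟪b 1, c • (x : K →L[ℂ] K) (b 1)⟫_ℂ = _
    rw [inner_smul_right]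
    rfl

theorem coef_applyT (x : K →L[ℂ] K) (hx : x ∈ LT b) (h k : SG) :
    ⟪b k, x (b h)⟫_ℂ = w3 (BB (k * h⁻¹) h) * ⟪b (k * h⁻¹), x (b 1)⟫_ℂ := by
  have h1 : b h = rhoT b h (b 1) := by
    rw [rhoT_basis f hb, f.one_left, f.w0, one_smul, one_mul]
  have h2 := congrArg (fun z : K →L[ℂ] K => z (b 1)) (comm_rightT f hb x hx h)
  have h3 : rhoT b h (x (b 1)) = x (rhoT b h (b 1)) := h2
  rw [← h1] at h3
  rw [← h3]
  have h4 := star_wop_basis hb (fun k => w3 (BB k h)) (fun _ => f.wn _) (Equiv.mulRight h)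
    (k * h⁻¹)
  have h5 : (Equiv.mulRight h) (k * h⁻¹) = k := by
    show k * h⁻¹ * h = k
    group
  rw [h5] at h4
  have h6 : ⟪b k, rhoT b h (x (b 1))⟫_ℂ = ⟪(star (rhoT b h)) (b k), x (b 1)⟫_ℂ := by
    rw [ContinuousLinearMap.star_eq_adjoint, ContinuousLinearMap.adjoint_inner_left]
  rw [h6]
  unfold rhoT
  rw [h4, inner_smul_left, Complex.conj_conj]

theorem star_coefT (x : K →L[ℂ] K) (hx : x ∈ LT b) (h : SG) :
    ⟪b h, (star x) (b 1)⟫_ℂ = conj (w3 (BB h⁻¹ h) * ⟪b h⁻¹, x (b 1)⟫_ℂ) := by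
  rw [ContinuousLinearMap.star_eq_adjoint, ContinuousLinearMap.adjoint_inner_right,
    ← inner_conj_symm, coef_applyT f hb x hx h 1, one_mul]

theorem trT_mul (x y : Elt (LT b)) :
    HasSum (fun h => w3 (BB h⁻¹ h) * ⟪b h⁻¹, (x : K →L[ℂ] K) (b 1)⟫_ℂ *
      ⟪b h, (y : K →L[ℂ] K) (b 1)⟫_ℂ) (trT b (x * y)) := by
  have h1 : trT b (x * y) = ⟪(star (x : K →L[ℂ] K)) (b 1), (y : K →L[ℂ] K) (b 1)⟫_ℂ := by
    rw [ContinuousLinearMap.star_eq_adjoint, ContinuousLinearMap.adjoint_inner_left]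
    rfl
  rw [h1]
  refine (b.hasSum_inner_mul_inner ((star (x : K →L[ℂ] K)) (b 1))
    ((y : K →L[ℂ] K) (b 1))).congr_fun ?_
  intro h
  rw [← inner_conj_symm ((star (x : K →L[ℂ] K)) (b 1)) (b h), star_coefT f hb _ x.2,
    Complex.conj_conj]

theorem isTr_trT : IsTr (trT b) := by
  refine ⟨?_, ?_, ?_⟩
  · show ⟪b 1, (1 : K →L[ℂ] K) (b 1)⟫_ℂ = 1
    exact inner_bb_self b 1
  · intro x y
    have h1 := trT_mul f hb x y
    have h2 := trT_mul f hb y x
    have h3 := ((Equiv.inv SG).hasSum_iff (f := fun h => w3 (BB h⁻¹ h) *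
      ⟪b h⁻¹, (y : K →L[ℂ] K) (b 1)⟫_ℂ *
      ⟪b h, (x : K →L[ℂ] K) (b 1)⟫_ℂ) (a := trT b (y * x))).2 h2
    refine h1.unique (h3.congr_fun ?_)
    intro h
    show _ = w3 (BB (h⁻¹)⁻¹ h⁻¹) * ⟪b (h⁻¹)⁻¹, (y : K →L[ℂ] K) (b 1)⟫_ℂ *
      ⟪b h⁻¹, (x : K →L[ℂ] K) (b 1)⟫_ℂ
    rw [inv_inv, f.inv_left, f.inv_right]
    ring
  · intro x
    have h1 : trT b (star x * x) = ⟪(x : K →L[ℂ] K) (b 1), (x : K →L[ℂ] K) (b 1)⟫_ℂ := by
      rw [← ContinuousLinearMap.adjoint_inner_right, ← ContinuousLinearMap.star_eq_adjoint]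
      rfl
    have h2 : (0 : ℝ) ≤ ‖(x : K →L[ℂ] K) (b 1)‖ ^ 2 := sq_nonneg _
    rw [h1, inner_self_eq_norm_sq_to_K]
    have h3 := Complex.zero_le_real.2 h2
    rw [Complex.ofReal_pow] at h3
    exact h3

omit f hb in
variable (b) in
/-- the 2-norm -/
noncomputable def NT (x : Elt (LT b)) : ℝ := ‖(x : K →L[ℂ] K) (b 1)‖

omit f hb in
theorem trT_star_mul (x : Elt (LT b)) :
    trT b (star x * x) = ((NT b x ^ 2 : ℝ) : ℂ) := by
  have h1 : trT b (star x * x) = ⟪(x : K →L[ℂ] K) (b 1), (x : K →L[ℂ] K) (b 1)⟫_ℂ := by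
    rw [← ContinuousLinearMap.adjoint_inner_right, ← ContinuousLinearMap.star_eq_adjoint]
    rfl
  rw [h1, inner_self_eq_norm_sq_to_K]
  unfold NT
  push_cast
  rfl

theorem NT_star (x : Elt (LT b)) : NT b (star x) = NT b x := by
  have h1 := trT_star_mul x
  have h2 := trT_star_mul (star x)
  rw [star_star, (isTr_trT f hb).comm, h1] at h2
  have h3 : NT b x ^ 2 = NT b (star x) ^ 2 := by exact_mod_cast h2
  exact ((pow_left_inj₀ (norm_nonneg _) (norm_nonneg _) two_ne_zero).1 h3).symm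

omit f hb in
theorem NT_left (x y : Elt (LT b)) : NT b (x * y) ≤ ‖x‖ * NT b y :=
  (x : K →L[ℂ] K).le_opNorm _

theorem NT_right (x y : Elt (LT b)) : NT b (x * y) ≤ NT b x * ‖y‖ := by
  rw [← NT_star f hb (x * y), star_mul, mul_comm (NT b x)]
  refine (NT_left _ _).trans ?_
  rw [NT_star f hb, norm_star]

omit f hb in
theorem NT_le (x : Elt (LT b)) : NT b x ≤ ‖x‖ := by
  have := (x : K →L[ℂ] K).le_opNorm (b 1)
  rw [b.orthonormal.1 1, mul_one] at this
  exact this

theorem faithful_trT : IsFaithfulTrace (fun x => trT b x) := by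
  refine ⟨(isTr_trT f hb).one, (isTr_trT f hb).comm, ?_⟩
  intro x hx
  have hx' : trT b (star x * x) = 0 := hx
  rw [trT_star_mul] at hx'
  have h1 : NT b x ^ 2 = 0 := by exact_mod_cast hx'
  have h2 : (x : K →L[ℂ] K) (b 1) = 0 := norm_eq_zero.1 (pow_eq_zero_iff two_ne_zero |>.1 h1)
  apply Subtype.ext
  apply ext_basis b
  intro g
  apply ext_coef b
  intro k
  rw [coef_applyT f hb x x.2, h2]
  show _ = ⟪b k, (0 : K →L[ℂ] K) (b g)⟫_ℂ
  simp

omit f hb in
theorem normal_trT : IsNormalPositive (LT b) (fun x => trT b x) := by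
  refine ⟨fun k => Nat.casesOn k (b 1) (fun _ => 0), ?_, ?_⟩
  · refine summable_of_ne_finset_zero (s := {0}) ?_
    intro k hk
    cases k with
    | zero => simp at hk
    | succ n => simp
  · intro x
    rw [tsum_eq_single 0]
    · rfl
    · intro k hk
      cases k with
      | zero => simp at hk
      | succ n => simp

end

end Pool.Agent.Helper133.OP
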