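import Mathlib
import Pool.Agent.Helper133.OP.TwVN

set_option autoImplicit false
set_option linter.unusedSectionVars false

open scoped InnerProductSpace ComplexOrder ComplexConjugate
open Filter Topology

namespace Pool.Agent.Helper133.OP

open Pool.Agent.Helper278 Pool.Agent.Helper278.RG

section

variable {K : Type} [NormedAddCommGroup K] [InnerProductSpace ℂ K] [CompleteSpace K]
variable {b : HilbertBasis SG ℂ K} (f : Fx) (hb : Wop b)

/-- the canonical unitaries -/
noncomputable def LaT (g : SG) : Elt (LT b) := ⟨lamT b g, lamT_mem f hb g⟩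

/-- the bundled trace -/
noncomputable def TT : TracialState (LT b) := mkState (LT b) _ normal_trT (faithful_trT f hb)

theorem TT_apply (x : Elt (LT b)) : (TT f hb).τ x = trT b x := rfl

theorem n2_TT (x : Elt (LT b)) : n2 (TT f hb).τ x = NT b x := by
  unfold n2
  have h1 : (TT f hb).τ (star x * x) = ((NT b x ^ 2 : ℝ) : ℂ) := trT_star_mul x
  rw [h1, Complex.ofReal_re, Real.sqrt_sq (show 0 ≤ NT b x from norm_nonneg _)]

theorem LaT_basis (g : SG) : ((LaT f hb g : Elt (LT b)) : K →L[ℂ] K) (b 1) = b g := by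
  show lamT b g (b 1) = b g
  rw [lamT_basis f hb, f.one_right, f.w0, one_smul, mul_one]

theorem trT_star_mul' (x y : Elt (LT b)) :
    trT b (star x * y) = ⟪(x : K →L[ℂ] K) (b 1), (y : K →L[ℂ] K) (b 1)⟫_ℂ := by
  rw [← ContinuousLinearMap.adjoint_inner_right, ← ContinuousLinearMap.star_eq_adjoint]
  rfl

theorem tg_LT : TG (TT f hb).τ (LaT f hb) where
  tr := trAlg (TT f hb)
  one := Subtype.ext (lamT_one f hb)
  mul g h := Subtype.ext (lamT_mul f hb g h)
  star_v g := Subtype.ext (star_lamT f hb g)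
  tau_v g hg := by
    show ⟪b 1, ((LaT f hb g : Elt (LT b)) : K →L[ℂ] K) (b 1)⟫_ℂ = 0
    rw [LaT_basis]
    exact inner_bb b 1 g (Ne.symm hg)
  parseval x := by
    have h2 := b.hasSum_inner_mul_inner ((x : K →L[ℂ] K) (b 1)) ((x : K →L[ℂ] K) (b 1))
    have h3 := Complex.hasSum_re h2
    have h5 : (⟪(x : K →L[ℂ] K) (b 1), (x : K →L[ℂ] K) (b 1)⟫_ℂ).re = n2 (TT f hb).τ x ^ 2 := by
      rw [n2_TT, ← trT_star_mul', trT_star_mul, Complex.ofReal_re]
    rw [h5] at h3
    refine h3.congr_fun ?_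
    intro g
    have h4 : (TT f hb).τ (star (LaT f hb g) * x) = ⟪b g, (x : K →L[ℂ] K) (b 1)⟫_ℂ := by
      rw [TT_apply, trT_star_mul', LaT_basis]
    rw [h4, ← inner_conj_symm ((x : K →L[ℂ] K) (b 1)) (b g), ← Complex.normSq_eq_conj_mul_self,
      Complex.normSq_eq_norm_sq, Complex.ofReal_re]

include f hb in
theorem infinite_LT (hG : Infinite SG) : ¬ FiniteDimensional ℂ (Elt (LT b)) := by
  intro hfin
  let ev : Elt (LT b) →ₗ[ℂ] K :=
    { toFun := fun x => (x : K →L[ℂ] K) (b 1)
      map_add' := fun x y => rfl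
      map_smul' := fun c x => rfl }
  have h1 : LinearIndependent ℂ (ev ∘ LaT f hb) := by
    have : ev ∘ LaT f hb = b := by
      funext g
      exact LaT_basis f hb g
    rw [this]
    exact b.orthonormal.linearIndependent
  have h2 : LinearIndependent ℂ (LaT f hb) := LinearIndependent.of_comp ev h1
  have h3 : Finite SG := h2.finite
  exact not_finite SG

include f hb in
theorem center_LT (hG : ∀ g : SG, g ≠ 1 → (Set.range fun h : SG => h * g * h⁻¹).Infinite) :
    HasTrivialCenter (LT b) := by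
  intro z hz hcom
  have hfix : ∀ g h : SG, ‖⟪b (h * g * h⁻¹), z (b 1)⟫_ℂ‖ = ‖⟪b g, z (b 1)⟫_ℂ‖ := by
    intro g h
    have h1 : lamT b h * z = z * lamT b h := (hcom _ (lamT_mem f hb h)).symm
    have h2 : ⟪b (h * g), (lamT b h * z) (b 1)⟫_ℂ = ⟪b (h * g), (z * lamT b h) (b 1)⟫_ℂ := by
      rw [h1]
    have h3 : (z * lamT b h) (b 1) = z (b h) := by
      show z (lamT b h (b 1)) = _
      rw [lamT_basis f hb, f.one_right, f.w0, one_smul, mul_one]
    have h4 : ‖⟪b (h * g), (lamT b h * z) (b 1)⟫_ℂ‖ = ‖⟪b g, z (b 1)⟫_ℂ‖ := by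
      show ‖⟪b (h * g), lamT b h (z (b 1))⟫_ℂ‖ = _
      have h5 : ⟪b (h * g), lamT b h (z (b 1))⟫_ℂ = ⟪(star (lamT b h)) (b (h * g)), z (b 1)⟫_ℂ := by
        rw [ContinuousLinearMap.star_eq_adjoint, ContinuousLinearMap.adjoint_inner_left]
      have h6 := star_wop_basis hb (fun k => w3 (BB h k)) (fun _ => f.wn _) (Equiv.mulLeft h) g
      have h7 : (star (lamT b h)) (b (h * g)) = conj (w3 (BB h g)) • b g := h6
      rw [h5, h7, inner_smul_left, norm_mul, RCLike.norm_conj, RCLike.norm_conj, f.wn, one_mul]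
    rw [← h4, h2, h3, coef_applyT f hb z hz h (h * g), norm_mul, f.wn, one_mul]
  have hzero : ∀ g : SG, g ≠ 1 → ⟪b g, z (b 1)⟫_ℂ = 0 := by
    intro g hg
    by_contra hne
    have h1 := (b.hasSum_inner_mul_inner (z (b 1)) (z (b 1))).summable.norm
    have h2 : Summable (fun i : SG => ‖⟪b i, z (b 1)⟫_ℂ‖ ^ 2) := by
      refine h1.congr ?_
      intro i
      rw [norm_mul, ← inner_conj_symm (z (b 1)) (b i), RCLike.norm_conj, sq]
    have h3 := h2.tendsto_cofinite_zero
    have h4 : ∀ᶠ i : SG in cofinite, ‖⟪b i, z (b 1)⟫_ℂ‖ ^ 2 < ‖⟪b g, z (b 1)⟫_ℂ‖ ^ 2 :=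
      h3.eventually_lt_const (by positivity)
    rw [Filter.eventually_cofinite] at h4
    refine hG g hg (h4.subset ?_)
    rintro _ ⟨h, rfl⟩
    show ¬ _
    rw [hfix g h]
    exact lt_irrefl _
  refine ⟨⟪b 1, z (b 1)⟫_ℂ, ?_⟩
  apply ext_basis b
  intro g
  apply ext_coef b
  intro k
  rw [coef_applyT f hb z hz]
  show _ = ⟪b k, ⟪b 1, z (b 1)⟫_ℂ • b g⟫_ℂ
  rw [inner_smul_right]
  by_cases hk : k = g
  · rw [hk, mul_inv_cancel, inner_bb_self, mul_one, f.one_left, f.w0, one_mul]
  · rw [inner_bb b k g hk, mul_zero, hzero _ fun h => hk (mul_inv_eq_one.1 h), mul_zero]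

theorem isIIOne_LT (hG : Infinite SG)
    (hG' : ∀ g : SG, g ≠ 1 → (Set.range fun h : SG => h * g * h⁻¹).Infinite) :
    IsIIOneFactor (LT b) (fun x => (TT f hb).τ x) :=
  ⟨center_LT f hb hG', infinite_LT f hb hG, faithful_trT f hb, normal_trT⟩

/-- the span of the canonical unitaries -/
noncomputable def spT : StarSubalgebra ℂ (Elt (LT b)) where
  carrier := Submodule.span ℂ (Set.range (LaT f hb))
  mul_mem' := by
    intro x y hx hy
    refine Submodule.span_induction (p := fun x _ => x * y ∈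
      Submodule.span ℂ (Set.range (LaT f hb))) ?_ ?_ ?_ ?_ hx
    · rintro _ ⟨g, rfl⟩
      refine Submodule.span_induction (p := fun y _ => LaT f hb g * y ∈
        Submodule.span ℂ (Set.range (LaT f hb))) ?_ ?_ ?_ ?_ hy
      · rintro _ ⟨h, rfl⟩
        rw [(tg_LT f hb).mul]
        exact Submodule.smul_mem _ _ (Submodule.subset_span ⟨_, rfl⟩)
      · rw [mul_zero]; exact Submodule.zero_mem _
      · intro y z _ _ h1 h2
        rw [mul_add]; exact Submodule.add_mem _ h1 h2
      · intro c y _ h1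
        rw [mul_smul_comm]; exact Submodule.smul_mem _ _ h1
    · rw [zero_mul]; exact Submodule.zero_mem _
    · intro y z _ _ h1 h2
      rw [add_mul]; exact Submodule.add_mem _ h1 h2
    · intro c y _ h1
      rw [smul_mul_assoc]; exact Submodule.smul_mem _ _ h1
  one_mem' := by
    have h := Submodule.subset_span (R := ℂ) (s := Set.range (LaT f hb)) ⟨1, (tg_LT f hb).one⟩
    exact h
  add_mem' := fun hx hy => Submodule.add_mem _ hx hy
  zero_mem' := Submodule.zero_mem _
  algebraMap_mem' := by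
    intro c
    have h := Submodule.subset_span (R := ℂ) (s := Set.range (LaT f hb)) ⟨1, (tg_LT f hb).one⟩
    rw [Algebra.algebraMap_eq_smul_one]
    exact Submodule.smul_mem _ _ h
  star_mem' := by
    intro x hx
    refine Submodule.span_induction (p := fun x _ => star x ∈
      Submodule.span ℂ (Set.range (LaT f hb))) ?_ ?_ ?_ ?_ hx
    · rintro _ ⟨g, rfl⟩
      rw [(tg_LT f hb).star_v]
      exact Submodule.smul_mem _ _ (Submodule.subset_span ⟨_, rfl⟩)
    · rw [star_zero]; exact Submodule.zero_mem _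
    · intro y z _ _ h1 h2
      rw [star_add]; exact Submodule.add_mem _ h1 h2
    · intro c y _ h1
      rw [star_smul]; exact Submodule.smul_mem _ _ h1

include f hb in
theorem twoNorm_NT : TwoNorm (NT b) where
  nonneg x := norm_nonneg _
  add x y := norm_add_le _ _
  smul c x := by
    show ‖c • (x : K →L[ℂ] K) (b 1)‖ = _
    rw [norm_smul]
    rfl
  left := NT_left
  right := NT_right f hb
  star := NT_star f hb
  le := NT_le

theorem kap_LT (hfin : ∀ (x : Elt (LT b)) (δ : ℝ), 0 < δ → ∃ F : Finset SG,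
      n2 (TT f hb).τ (x - ∑ g ∈ F, cf (TT f hb).τ (LaT f hb) x g • LaT f hb g) ≤ δ) :
    Kap (TT f hb).τ (LaT f hb) := by
  classical
  intro x hx ε hε
  have hx1 : ‖x‖ ≤ 1 := by
    rcases subsingleton_or_nontrivial (Elt (LT b)) with h | h
    · rw [Subsingleton.elim x 0, norm_zero]
      exact zero_le_one
    · exact (CStarRing.norm_of_mem_unitary hx).le
  obtain ⟨a, ha, ha2, hae⟩ := kaplansky (twoNorm_NT f hb) (spT f hb) (fun y δ hδ => by
    obtain ⟨F, hF⟩ := hfin y (δ / 2) (by linarith)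
    refine ⟨∑ g ∈ F, cf (TT f hb).τ (LaT f hb) y g • LaT f hb g, ?_, ?_⟩
    · exact Submodule.sum_mem _ fun g _ =>
        Submodule.smul_mem _ _ (Submodule.subset_span ⟨g, rfl⟩)
    · rw [← n2_TT f hb]
      linarith) x hx1 ε hε
  have ha' : a ∈ Submodule.span ℂ (Set.range (LaT f hb)) := ha
  rw [Finsupp.mem_span_range_iff_exists_finsupp] at ha'
  obtain ⟨c, hc⟩ := ha'
  have hc' : ∑ g ∈ c.support, c g • LaT f hb g = a := hc
  refine ⟨c.support, fun g => c g, ?_, fun z => ?_⟩
  · rw [hc', n2_TT f hb]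
    exact hae
  · rw [hc', n2_TT f hb, n2_TT f hb, n2_TT f hb]
    refine ⟨?_, ?_⟩
    · refine (NT_right f hb z a).trans ?_
      rw [mul_comm]
      exact mul_le_mul_of_nonneg_right ha2 (norm_nonneg _)
    · exact (NT_left a z).trans (mul_le_mul_of_nonneg_right ha2 (norm_nonneg _))

end

end Pool.Agent.Helper133.OP
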