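import Mathlib
import Pool.Agent.Helper133.OP.Defs

set_option autoImplicit false
set_option linter.unusedSectionVars false
set_option linter.unusedVariables false

open scoped ComplexConjugate
open Pool.Agent.Helper278

namespace Pool.Agent.Helper133.OP



open scoped Topology
open Filter

universe w

theorem n2_map {P Q : Type*} [Ring P] [StarRing P] [Algebra ℂ P] [Ring Q] [StarRing Q]
    [Algebra ℂ Q] (e : P ≃⋆ₐ[ℂ] Q) (φ : P → ℂ) (ψ : Q → ℂ) (he : ∀ x, ψ (e x) = φ x) (z : P) :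
    n2 ψ (e z) = n2 φ z := by
  unfold n2
  rw [← he, map_mul, map_star]

theorem FF_map {P Q : Type*} [Ring P] [StarRing P] [Algebra ℂ P] [Ring Q] [StarRing Q]
    [Algebra ℂ Q] (e : P ≃⋆ₐ[ℂ] Q) (φ : P → ℂ) (ψ : Q → ℂ) (he : ∀ x, ψ (e x) = φ x) (c : ℂ)
    (x : Fin 10 → P) (k : Fin 6) : FF ψ c (fun j => e (x j)) k = FF φ c x k := by
  have h := n2_map e φ ψ he
  unfold FF
  simp only [← h, map_mul, map_sub, map_star, map_smul]

end Pool.Agent.Helper133.OP
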