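import Mathlib
import Pool.Agent.Helper133.OP.Defs
import Pool.Agent.Helper436.SM.Main

set_option autoImplicit false
set_option linter.unusedSectionVars false
set_option linter.unusedVariables false

open scoped ComplexConjugate
open Pool.Agent.Helper278

namespace Pool.Agent.Helper133.OP



open scoped Topology
open Filter

universe w

section FFaux

variable {A : Type} [CStarAlgebra A] {σ : A → ℂ} {I : Type w} {U : Ultrafilter I}
  {Q : Type w} [Ring Q] [StarRing Q] [Algebra ℂ Q] {π : (I → A) → Q} {φ : Q → ℂ}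

theorem FF_tendsto_un {x : I → A} (hx : ∀ i, x i ∈ unitary A) : CE.BddFam x := by
  refine ⟨1, fun i => ?_⟩
  have h1 : star (x i) * x i = 1 := (Unitary.mem_iff.1 (hx i)).1
  have h2 : ‖x i‖ * ‖x i‖ = ‖(1 : A)‖ := by
    rw [← CStarRing.norm_star_mul_self, h1]
  have h3 : ‖(1 : A)‖ ≤ 1 := by
    rcases subsingleton_or_nontrivial A with h | h
    · rw [Subsingleton.elim (1 : A) 0, norm_zero]
      exact zero_le_one
    · exact (CStarRing.norm_one).le
  nlinarith [norm_nonneg (x i)]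

theorem FF_tendsto_st {x : I → A} (hx : CE.BddFam x) : CE.BddFam (fun i => star (x i)) := by
  obtain ⟨C, hC⟩ := hx
  exact ⟨C, fun i => by rw [norm_star]; exact hC i⟩

theorem FF_tendsto_n2 (hπ : CE.IsTracialUltrapower σ U π φ) (x : I → A)
    (hx : CE.BddFam x) : Tendsto (fun i => n2 σ (x i)) U (𝓝 (n2 φ (π x))) := by
  have h1 := hπ.trace (fun i => star (x i) * x i) (CE.bdd_mul (FF_tendsto_st hx) hx)
  rw [hπ.quot.mul _ _ (FF_tendsto_st hx) hx, hπ.quot.star x hx] at h1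
  have h2 := (Complex.continuous_re.tendsto _).comp h1
  exact (Real.continuous_sqrt.tendsto _).comp h2

theorem FF_tendsto_comm (hπ : CE.IsTracialUltrapower σ U π φ) (x y : I → A)
    (hx : CE.BddFam x) (hy : CE.BddFam y) :
    Tendsto (fun i => n2 σ (x i * y i - y i * x i)) U (𝓝 (n2 φ (π x * π y - π y * π x))) := by
  have h1 := FF_tendsto_n2 hπ (fun i => x i * y i - y i * x i)
    (CE.bdd_sub (CE.bdd_mul hx hy) (CE.bdd_mul hy hx))
  rw [hπ.quot.sub (CE.bdd_mul hx hy) (CE.bdd_mul hy hx), hπ.quot.mul _ _ hx hy,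
    hπ.quot.mul _ _ hy hx] at h1
  exact h1

theorem FF_tendsto_comm2 (hπ : CE.IsTracialUltrapower σ U π φ) (x y z : I → A)
    (hx : CE.BddFam x) (hy : CE.BddFam y) (hz : CE.BddFam z) :
    Tendsto (fun i => n2 σ (star (x i) * y i * z i - z i * (star (x i) * y i))) U
      (𝓝 (n2 φ (star (π x) * π y * π z - π z * (star (π x) * π y)))) := by
  have h1 := FF_tendsto_comm hπ (fun i => star (x i) * y i) z
    (CE.bdd_mul (FF_tendsto_st hx) hy) hz
  rw [hπ.quot.mul _ _ (FF_tendsto_st hx) hy, hπ.quot.star x hx] at h1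
  exact h1

theorem FF_tendsto_sm (hπ : CE.IsTracialUltrapower σ U π φ) (c : ℂ) (x y : I → A)
    (hx : CE.BddFam x) (hy : CE.BddFam y) :
    Tendsto (fun i => n2 σ (x i * y i - c • (y i * x i))) U
      (𝓝 (n2 φ (π x * π y - c • (π y * π x)))) := by
  have h1 := FF_tendsto_n2 hπ (fun i => x i * y i - c • (y i * x i))
    (CE.bdd_sub (CE.bdd_mul hx hy) (CE.bdd_smul c (CE.bdd_mul hy hx)))
  rw [hπ.quot.sub (CE.bdd_mul hx hy) (CE.bdd_smul c (CE.bdd_mul hy hx)),
    hπ.quot.smul c _ (CE.bdd_mul hy hx), hπ.quot.mul _ _ hx hy,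
    hπ.quot.mul _ _ hy hx] at h1
  exact h1

end FFaux

theorem FF_tendsto {A : Type} [CStarAlgebra A] {σ : A → ℂ} {I : Type w} {U : Ultrafilter I}
    {Q : Type w} [Ring Q] [StarRing Q] [Algebra ℂ Q] {π : (I → A) → Q} {φ : Q → ℂ}
    (hπ : CE.IsTracialUltrapower σ U π φ) (c : ℂ) (x : Fin 10 → I → A)
    (hx : ∀ j i, x j i ∈ unitary A) (k : Fin 6) :
    Tendsto (fun i => FF σ c (fun j => x j i) k) U (𝓝 (FF φ c (fun j => π (x j)) k)) := by
  have hb : ∀ j, CE.BddFam (x j) := fun j => FF_tendsto_un (hx j)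
  fin_cases k
  · exact FF_tendsto_comm2 hπ (x 6) (x 9) (x 3) (hb 6) (hb 9) (hb 3)
  · exact FF_tendsto_comm2 hπ (x 6) (x 9) (x 4) (hb 6) (hb 9) (hb 4)
  · exact FF_tendsto_comm2 hπ (x 6) (x 9) (x 5) (hb 6) (hb 9) (hb 5)
  · exact FF_tendsto_sm hπ c (x 9) (x 6) (hb 9) (hb 6)
  · exact (FF_tendsto_comm hπ (x 7) (x 9) (hb 7) (hb 9)).sub
      ((((FF_tendsto_comm hπ (x 7) (x 0) (hb 7) (hb 0)).add
        (FF_tendsto_comm hπ (x 7) (x 1) (hb 7) (hb 1))).add
        (FF_tendsto_comm hπ (x 7) (x 2) (hb 7) (hb 2))).const_mul 18)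
  · exact (FF_tendsto_comm hπ (x 8) (x 9) (hb 8) (hb 9)).sub
      ((((FF_tendsto_comm hπ (x 8) (x 0) (hb 8) (hb 0)).add
        (FF_tendsto_comm hπ (x 8) (x 1) (hb 8) (hb 1))).add
        (FF_tendsto_comm hπ (x 8) (x 2) (hb 8) (hb 2))).const_mul 18)

end Pool.Agent.Helper133.OP
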