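import Mathlib
import Pool.Agent.Helper133.OP.Defs

set_option autoImplicit false
set_option linter.unusedSectionVars false
set_option linter.unusedVariables false

open scoped ComplexConjugate
open Pool.Agent.Helper278

namespace Pool.Agent.Helper133.OP



open scoped Topology
open Filter

universe w

theorem Gq_map {P Q : Type*} [Ring P] [StarRing P] [Algebra ℂ P] [Ring Q] [StarRing Q]
    [Algebra ℂ Q] (e : P ≃⋆ₐ[ℂ] Q) (R : (Fin 10 → P) → Prop) (S : (Fin 10 → Q) → Prop)
    (hRS : ∀ x, R x → S (fun j => e (x j))) (l : List (Bool × Fin 10)) :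
    ∀ x : Fin 10 → P, Gq R l x → Gq S l (fun j => e (x j)) := by
  have hupd : ∀ (x : Fin 10 → P) (j : Fin 10) (y : P),
      (fun j' => e (Function.update x j y j')) = Function.update (fun j' => e (x j')) j (e y) := by
    intro x j y
    funext j'
    by_cases h : j' = j
    · subst h; simp
    · simp [Function.update_of_ne h]
  have hone : e 1 = 1 := map_one e
  have hu : ∀ y ∈ unitary P, e y ∈ unitary Q := by
    intro y hy
    rw [Unitary.mem_iff] at hy ⊢
    rw [← map_star, ← map_mul, ← map_mul, hy.1, hy.2]
    exact ⟨hone, hone⟩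
  have hu' : ∀ z ∈ unitary Q, e.symm z ∈ unitary P := by
    intro z hz
    rw [Unitary.mem_iff] at hz ⊢
    rw [← map_star, ← map_mul, ← map_mul, hz.1, hz.2]
    have : e.symm 1 = 1 := map_one e.symm
    exact ⟨this, this⟩
  induction l with
  | nil => intro x h; exact hRS x h
  | cons c l ih =>
    obtain ⟨b, j⟩ := c
    intro x h
    cases b with
    | false =>
      intro z hz
      have h1 := ih _ (h (e.symm z) (hu' z hz))
      rw [hupd] at h1
      have h2 : e (e.symm z) = z := e.apply_symm_apply z
      rwa [h2] at h1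
    | true =>
      obtain ⟨y, hy, h'⟩ := h
      refine ⟨e y, hu y hy, ?_⟩
      have h1 := ih _ h'
      rwa [hupd] at h1

end Pool.Agent.Helper133.OP
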