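import Mathlib
import Pool.Agent.Helper133.OP.Defs

set_option autoImplicit false
set_option linter.unusedSectionVars false
set_option linter.unusedVariables false

open scoped ComplexConjugate
open Pool.Agent.Helper278

namespace Pool.Agent.Helper133.OP



open scoped Topology
open Filter

universe w

theorem upd_aux1 {A I : Type*} (x : Fin 10 → I → A) (j : Fin 10) (y : I → A) (i : I) :
    (fun j' => (Function.update x j y) j' i) = Function.update (fun j' => x j' i) j (y i) := by
  funext j'
  by_cases h : j' = j
  · subst h; simp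
  · simp [Function.update_of_ne h]

theorem upd_aux2 {A Q I : Type*} (π : (I → A) → Q) (x : Fin 10 → I → A) (j : Fin 10) (y : I → A) :
    (fun j' => π ((Function.update x j y) j')) = Function.update (fun j' => π (x j')) j (π y) := by
  funext j'
  by_cases h : j' = j
  · subst h; simp
  · simp [Function.update_of_ne h]

theorem upd_aux3 {A I : Type*} [Ring A] [StarRing A] (x : Fin 10 → I → A) (hx : ∀ j i, x j i ∈ unitary A)
    (j : Fin 10) (y : I → A) (hy : ∀ i, y i ∈ unitary A) :
    ∀ j' i, (Function.update x j y) j' i ∈ unitary A := by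
  intro j' i
  by_cases h : j' = j
  · subst h; simpa using hy i
  · rw [Function.update_of_ne h]; exact hx j' i

theorem choose_aux {A I : Type*} [Ring A] [StarRing A] (U : Ultrafilter I) (P : I → A → Prop)
    (h : ∀ᶠ i in U, ∃ y ∈ unitary A, P i y) :
    ∃ y : I → A, (∀ i, y i ∈ unitary A) ∧ ∀ᶠ i in U, P i (y i) := by
  classical
  refine ⟨fun i => if hi : ∃ y ∈ unitary A, P i y then hi.choose else 1, ?_, ?_⟩
  · intro i
    by_cases hi : ∃ y ∈ unitary A, P i y
    · simp only [dif_pos hi]; exact hi.choose_spec.1
    · simp only [dif_neg hi]; exact one_mem _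
  · filter_upwards [h] with i hi
    simp only [dif_pos hi]; exact hi.choose_spec.2

theorem Gq_transfer {A Q I : Type*} [Ring A] [StarRing A] [Ring Q] [StarRing Q] (U : Ultrafilter I)
    (π : (I → A) → Q) (piu : ∀ x : I → A, (∀ i, x i ∈ unitary A) → π x ∈ unitary Q)
    (lift : ∀ q ∈ unitary Q, ∃ x : I → A, (∀ i, x i ∈ unitary A) ∧ π x = q)
    (R₁ R₂ : (Fin 10 → A) → Prop) (S : (Fin 10 → Q) → Prop)
    (up : ∀ x : Fin 10 → I → A, (∀ j i, x j i ∈ unitary A) → (∀ᶠ i in U, R₁ (fun j => x j i)) →
      S (fun j => π (x j)))
    (down : ∀ x : Fin 10 → I → A, (∀ j i, x j i ∈ unitary A) → S (fun j => π (x j)) →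
      ∀ᶠ i in U, R₂ (fun j => x j i))
    (l : List (Bool × Fin 10)) : ∀ x : Fin 10 → I → A, (∀ j i, x j i ∈ unitary A) →
      ((∀ᶠ i in U, Gq R₁ l (fun j => x j i)) → Gq S l (fun j => π (x j))) ∧
      (Gq S l (fun j => π (x j)) → ∀ᶠ i in U, Gq R₂ l (fun j => x j i)) := by
  induction l with
  | nil =>
    intro x hx
    exact ⟨fun h => up x hx h, fun h => down x hx h⟩
  | cons a l ih =>
    intro x hx
    obtain ⟨b, j⟩ := a
    cases b with
    | true =>
      constructor
      · intro h
        obtain ⟨y, hy, hy2⟩ := choose_aux U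
          (fun i y => Gq R₁ l (Function.update (fun j => x j i) j y)) h
        have h1 := (ih (Function.update x j y) (upd_aux3 x hx j y hy)).1
        rw [upd_aux2] at h1
        refine ⟨π y, piu y hy, h1 ?_⟩
        filter_upwards [hy2] with i hi
        rw [upd_aux1]; exact hi
      · rintro ⟨q, hq, h⟩
        obtain ⟨y, hy, rfl⟩ := lift q hq
        have h1 := (ih (Function.update x j y) (upd_aux3 x hx j y hy)).2
        rw [upd_aux2] at h1
        filter_upwards [h1 h] with i hi
        rw [upd_aux1] at hi
        exact ⟨y i, hy i, hi⟩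
    | false =>
      constructor
      · intro h q hq
        obtain ⟨y, hy, rfl⟩ := lift q hq
        have h1 := (ih (Function.update x j y) (upd_aux3 x hx j y hy)).1
        rw [upd_aux2] at h1
        apply h1
        filter_upwards [h] with i hi
        rw [upd_aux1]
        exact hi (y i) (hy i)
      · intro h
        by_contra hcon
        rw [← Ultrafilter.eventually_not] at hcon
        have hcon' : ∀ᶠ i in U, ∃ y ∈ unitary A, ¬ Gq R₂ l (Function.update (fun j => x j i) j y) := by
          filter_upwards [hcon] with i hi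
          by_contra hne
          push Not at hne
          exact hi hne
        obtain ⟨y, hy, hy2⟩ := choose_aux U
          (fun i y => ¬ Gq R₂ l (Function.update (fun j => x j i) j y)) hcon'
        have h1 := (ih (Function.update x j y) (upd_aux3 x hx j y hy)).2
        rw [upd_aux2] at h1
        have h2 := h1 (h (π y) (piu y hy))
        obtain ⟨i, hi1, hi2⟩ := (hy2.and h2).exists
        rw [upd_aux1] at hi2
        exact hi1 hi2

end Pool.Agent.Helper133.OP
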