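import Mathlib
import Pool.Agent.Helper133.OP.Leaf

set_option autoImplicit false
set_option linter.unusedSectionVars false
set_option linter.unusedVariables false

open scoped ComplexConjugate
open Pool.Agent.Helper278

namespace Pool.Agent.Helper133.OP

open scoped Topology
open Filter

section

variable {A : Type*} [Ring A] [StarRing A] [Algebra ℂ A] [StarModule ℂ A] {τ : A →ₗ[ℂ] ℂ}
  {v : SG → A}

theorem TG.G1 (h : TG τ v) (hW : ∀ W : Finset ℕ, ∃ S : Set SG, S ⊆ {g | ∃ n ∈ W, g.1 n ≠ 1} ∧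
    (∀ g : SG, (∃ n ∈ W, g.1 n ≠ 1) → g ∈ S ∨
      (dl W (FreeGroup.of 1))⁻¹ * g * dl W (FreeGroup.of 1) ∈ S) ∧
    (∀ g ∈ S, dl W (FreeGroup.of 2) * g * (dl W (FreeGroup.of 2))⁻¹ ∉ S) ∧
    (∀ g ∈ S, (dl W (FreeGroup.of 2))⁻¹ * g * dl W (FreeGroup.of 2) ∉ S) ∧
    (∀ g ∈ S, dl W (FreeGroup.of 2) * (dl W (FreeGroup.of 2) * g * (dl W (FreeGroup.of 2))⁻¹) *
      (dl W (FreeGroup.of 2))⁻¹ ∉ S)) (W : Finset ℕ) (x : A) :
    mD τ v {g | ∃ n ∈ W, g.1 n ≠ 1} x ≤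
      9 * (n2 τ (x * v (dl W (FreeGroup.of 1)) - v (dl W (FreeGroup.of 1)) * x) +
        n2 τ (x * v (dl W (FreeGroup.of 2)) - v (dl W (FreeGroup.of 2)) * x)) := by
  obtain ⟨S, hS1, hS2, hS3, hS4, hS5⟩ := hW W
  have hu := (h.facts BB_left BB_right w3_facts.1 w3_facts.2.1).1
  have c1 := h.coef_shift hu w3_facts.2.2.1 (dl W (FreeGroup.of 1)) x
  have c2 := h.coef_shift hu w3_facts.2.2.1 (dl W (FreeGroup.of 2)) x
  have hD : ∀ (t g : SG), (∃ n ∈ W, g.1 n ≠ 1) ↔ (∃ n ∈ W, (t * g * t⁻¹).1 n ≠ 1) := by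
    intro t g
    have : ∀ n, (t * g * t⁻¹).1 n ≠ 1 ↔ g.1 n ≠ 1 := by
      intro n
      have e : (t * g * t⁻¹).1 n = t.1 n * g.1 n * (t.1 n)⁻¹ := rfl
      rw [e, Ne, Ne, conj_eq_one_iff]
    simp only [this]
  exact gap_l2 (X := SG) (fun g => ‖cf τ v x g‖) (fun g => norm_nonneg _) (h.parseval x).summable
    (MulAut.conj (dl W (FreeGroup.of 1))).toEquiv (MulAut.conj (dl W (FreeGroup.of 2))).toEquiv
    {g | ∃ n ∈ W, g.1 n ≠ 1} S hS1 (fun g => hD _ g) (fun g => hD _ g)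
    (fun g hg => hS2 g hg) (fun g hg => hS3 g hg) (fun g hg => hS4 g hg) (fun g hg => hS5 g hg)
    _ _ (n2_nonneg _ _) (n2_nonneg _ _) c1.1 c1.2 c2.1 c2.2

end

end Pool.Agent.Helper133.OP
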