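import Mathlib
import Pool.Agent.Helper133.OP.Leaf

set_option autoImplicit false
set_option linter.unusedSectionVars false
set_option linter.unusedVariables false

open scoped ComplexConjugate
open Pool.Agent.Helper278

namespace Pool.Agent.Helper133.OP

open scoped Topology
open Filter

section

variable {A : Type*} [Ring A] [StarRing A] [Algebra ℂ A] [StarModule ℂ A] {τ : A →ₗ[ℂ] ℂ}
  {v : SG → A}

theorem n2_unit (h : TG τ v) (x : A) (hx : x ∈ unitary A) : n2 τ x = 1 := by
  unfold n2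
  have h1 : star x * x = 1 := hx.1
  rw [h1]
  have : (τ 1 : ℂ) = 1 := h.tr.one
  simp [this]

theorem n2_mul_unit (h : TG τ v) (a w : A) (hw : w ∈ unitary A) : n2 τ (a * w) = n2 τ a := by
  unfold n2
  have h1 : star (a * w) * (a * w) = star w * (star a * a * w) := by
    rw [star_mul]; noncomm_ring
  have h2 : w * star w = 1 := hw.2
  rw [h1, h.tr.comm, mul_assoc, h2, mul_one]

theorem n2_unit_mul (h : TG τ v) (a w : A) (hw : w ∈ unitary A) : n2 τ (w * a) = n2 τ a := by
  unfold n2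
  have h2 : star w * w = 1 := hw.1
  have h1 : star (w * a) * (w * a) = star a * ((star w * w) * a) := by
    rw [star_mul]; noncomm_ring
  rw [h1, h2, one_mul]

theorem TG.final_est (h : TG τ v) (D : Set SG) (u u' uf u0 : A) (hu : u ∈ unitary A)
    (hu' : u' ∈ unitary A) (δ η ρ ε : ℝ) (h1 : n2 τ (u - uf) ≤ δ) (h2 : n2 τ (u' - u0) ≤ η)
    (h3 : ∀ z, n2 τ (z * uf) ≤ 2 * n2 τ z ∧ n2 τ (uf * z) ≤ 2 * n2 τ z)
    (h4 : mD τ v Dᶜ (u' * star u) ≤ ρ) (h5 : n2 τ (u * u' - w3 1 • (u' * u)) ≤ ε)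
    (h6 : (w3 (-1) * iD τ v D (star uf * u0) (u0 * star uf)).re ≤ 0) :
    1 ≤ ε + ρ + (δ + 2 * η) + (1 + (δ + 2 * η)) * (δ + 2 * η) := by
  obtain ⟨w0, wadd, wnorm, -, -, -, -⟩ := w3_facts
  obtain ⟨-, -, m3, -, -⟩ := h.mD_facts
  obtain ⟨i1, i2, i3, i4, i5⟩ := h.iD_facts
  set d : ℝ := δ + 2 * η with hd
  have hsu : star u ∈ unitary A := Unitary.star_mem hu
  have nY : n2 τ (star u * u') = 1 := by rw [n2_unit_mul h _ _ hsu, n2_unit h _ hu']
  have nZ : n2 τ (u' * star u) = 1 := by rw [n2_unit_mul h _ _ hu', n2_unit h _ hsu]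
  have nη : n2 τ (star (u' - u0)) ≤ η := by rw [h.tr.n2_star]; exact h2
  -- differences
  have dY : n2 τ (star u * u' - star uf * u0) ≤ d := by
    have e : star u * u' - star uf * u0 = star (u - uf) * u' + star uf * (u' - u0) := by
      rw [star_sub]; noncomm_ring
    rw [e]
    refine (h.tr.n2_add_le _ _).trans ?_
    have a1 : n2 τ (star (u - uf) * u') ≤ δ := by
      rw [n2_mul_unit h _ _ hu', h.tr.n2_star]; exact h1
    have a2 : n2 τ (star uf * (u' - u0)) ≤ 2 * η := by
      have : n2 τ (star uf * (u' - u0)) = n2 τ (star (u' - u0) * uf) := by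
        rw [← h.tr.n2_star, star_mul, star_star]
      rw [this]
      refine (h3 _).1.trans ?_
      linarith
    linarith
  have dZ : n2 τ (u' * star u - u0 * star uf) ≤ d := by
    have e : u' * star u - u0 * star uf = u' * star (u - uf) + (u' - u0) * star uf := by
      rw [star_sub]; noncomm_ring
    rw [e]
    refine (h.tr.n2_add_le _ _).trans ?_
    have a1 : n2 τ (u' * star (u - uf)) ≤ δ := by
      rw [n2_unit_mul h _ _ hu', h.tr.n2_star]; exact h1
    have a2 : n2 τ ((u' - u0) * star uf) ≤ 2 * η := by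
      have : n2 τ ((u' - u0) * star uf) = n2 τ (uf * star (u' - u0)) := by
        rw [← h.tr.n2_star, star_mul, star_star]
      rw [this]
      refine (h3 _).2.trans ?_
      linarith
    linarith
  have hd0 : 0 ≤ d := (n2_nonneg _ _).trans dY
  have nYf : n2 τ (star uf * u0) ≤ 1 + d := by
    have e : star uf * u0 = star u * u' - (star u * u' - star uf * u0) := by abel
    rw [e]
    refine (h.tr.n2_sub_le _ _).trans ?_
    linarith
  have mD0 : ∀ (E : Set SG) (x : A), 0 ≤ mD τ v E x := fun E x => Real.sqrt_nonneg _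
  have iDle : ∀ (E : Set SG) (x y : A), ‖iD τ v E x y‖ ≤ n2 τ x * n2 τ y := by
    intro E x y
    refine (i2 E x y).trans ?_
    exact mul_le_mul (m3 E x) (m3 E y) (mD0 E y) (n2_nonneg _ _)
  set Y : A := star u * u' with hY
  set Z : A := u' * star u with hZ
  set Yf : A := star uf * u0 with hYf
  set Zf : A := u0 * star uf with hZf
  have hsplit : iD τ v D Y Z = iD τ v D Yf Zf + iD τ v D (Y - Yf) Z + iD τ v D Yf (Z - Zf) := by
    rw [i4, i5]; ring
  have b1 : ‖iD τ v D (Y - Yf) Z‖ ≤ d := by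
    refine (iDle _ _ _).trans ?_
    rw [nZ, mul_one]; exact dY
  have b2 : ‖iD τ v D Yf (Z - Zf)‖ ≤ (1 + d) * d := by
    refine (iDle _ _ _).trans ?_
    exact mul_le_mul nYf dZ (n2_nonneg _ _) (by linarith)
  have b3 : ‖iD τ v Dᶜ Y Z‖ ≤ ρ := by
    refine (i2 _ _ _).trans ?_
    have c1 : mD τ v Dᶜ Y ≤ 1 := (m3 _ _).trans nY.le
    calc mD τ v Dᶜ Y * mD τ v Dᶜ Z ≤ 1 * ρ := mul_le_mul c1 h4 (mD0 _ _) zero_le_one
      _ = ρ := one_mul _
  -- the trace
  have htr : τ (star Y * Z) = τ (star (u' * u) * (u * u')) := by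
    have e1 : star Y * Z = (star u' * u * u') * star u := by
      rw [hY, hZ, star_mul, star_star]; noncomm_ring
    have e2 : star (u' * u) * (u * u') = star u * (star u' * u * u') := by
      rw [star_mul]; noncomm_ring
    rw [e1, e2, h.tr.comm]
  have hun : star (u' * u) * (u' * u) = 1 := by
    have : star (u' * u) * (u' * u) = star u * ((star u' * u') * u) := by
      rw [star_mul]; noncomm_ring
    rw [this, hu'.1, one_mul, hu.1]
  have hc : ‖τ (star (u' * u) * (u * u')) - w3 1‖ ≤ ε := by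
    have e : τ (star (u' * u) * (u * u')) - w3 1 = τ (star (u' * u) * (u * u' - w3 1 • (u' * u))) := by
      rw [mul_sub, mul_smul_comm, hun, map_sub, map_smul, h.tr.one, smul_eq_mul, mul_one]
    rw [e]
    refine (h.tr.cauchy _ _).trans ?_
    have n1 : n2 τ (u' * u) = 1 := by rw [n2_mul_unit h _ _ hu, n2_unit h _ hu']
    rw [n1, one_mul]
    exact h5
  have hw1 : w3 (-1) * w3 1 = 1 := by
    rw [← wadd, neg_add_cancel, w0]
  have htot : τ (star (u' * u) * (u * u')) =
      iD τ v D Yf Zf + iD τ v D (Y - Yf) Z + iD τ v D Yf (Z - Zf) + iD τ v Dᶜ Y Z := by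
    rw [← htr, ← i1, i3 D, hsplit]
  have key : w3 (-1) * τ (star (u' * u) * (u * u')) =
      w3 (-1) * iD τ v D Yf Zf + w3 (-1) * iD τ v D (Y - Yf) Z + w3 (-1) * iD τ v D Yf (Z - Zf) +
        w3 (-1) * iD τ v Dᶜ Y Z := by
    rw [htot]; ring
  have hone : (1 : ℂ) = w3 (-1) * τ (star (u' * u) * (u * u')) -
      w3 (-1) * (τ (star (u' * u) * (u * u')) - w3 1) := by
    rw [mul_sub, hw1]; ring
  have hre := congrArg Complex.re hone
  rw [key] at hre
  simp only [Complex.one_re, Complex.sub_re, Complex.add_re] at hre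
  have bound : ∀ z : ℂ, |(w3 (-1) * z).re| ≤ ‖z‖ := by
    intro z
    refine (Complex.abs_re_le_norm _).trans ?_
    rw [norm_mul, wnorm, one_mul]
  have r1 := (abs_le.mp ((bound _).trans b1)).2
  have r2 := (abs_le.mp ((bound _).trans b2)).2
  have r3 := (abs_le.mp ((bound _).trans b3)).2
  have r4 := (abs_le.mp ((bound _).trans hc)).1
  linarith

end

end Pool.Agent.Helper133.OP
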