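import Mathlib
import Pool.Agent.Helper133.OP.Leaf

set_option autoImplicit false
set_option linter.unusedSectionVars false
set_option linter.unusedVariables false

open scoped ComplexConjugate
open Pool.Agent.Helper278

namespace Pool.Agent.Helper133.OP

open scoped Topology
open Filter

section

variable {A : Type*} [Ring A] [StarRing A] [Algebra ℂ A] [StarModule ℂ A] {τ : A →ₗ[ℂ] ℂ}
  {v : SG → A}

theorem comm_pair (u u' : A) (hu : star u * u = 1) (hu2 : u * star u = 1)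
    (F : Finset SG) (a : SG → ℂ) (w : SG → ℂ)
    (h1 : ∀ g ∈ F, u * v g = w g • (v g * u)) (h2 : ∀ g ∈ F, u' * v g = w g • (v g * u')) :
    (∑ g ∈ F, a g • v g) * (star u * u') = (star u * u') * ∑ g ∈ F, a g • v g := by
  rw [Finset.sum_mul, Finset.mul_sum]
  refine Finset.sum_congr rfl fun g hg => ?_
  rw [smul_mul_assoc, mul_smul_comm]
  congr 1
  have e1 : v g * star u = w g • (star u * v g) := by
    calc v g * star u = (star u * u) * (v g * star u) := by rw [hu, one_mul]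
      _ = star u * (u * v g) * star u := by noncomm_ring
      _ = star u * (w g • (v g * u)) * star u := by rw [h1 g hg]
      _ = w g • (star u * v g * (u * star u)) := by
          rw [mul_smul_comm, smul_mul_assoc]; congr 1; noncomm_ring
      _ = w g • (star u * v g) := by rw [hu2, mul_one]
  calc v g * (star u * u') = (v g * star u) * u' := by rw [mul_assoc]
    _ = w g • (star u * v g * u') := by rw [e1, smul_mul_assoc]
    _ = star u * (w g • (v g * u')) := by rw [mul_smul_comm, mul_assoc]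
    _ = star u * (u' * v g) := by rw [h2 g hg]
    _ = star u * u' * v g := by rw [mul_assoc]

theorem TG.game_true (h : TG τ v)
    (top_comm : ∀ (m : ℕ) (g : SG), (∀ n, m ≤ n → g.1 n = 1) →
      v (dl {m} (FreeGroup.of 0)) * v g = w3 (qq g) • (v g * v (dl {m} (FreeGroup.of 0))))
    (top_est : ∀ (r : A) (F : Finset SG) (m : ℕ) (δ : ℝ),
      (∀ g ∈ F, ∀ n, m ≤ n → g.1 n = 1) →
      n2 τ (r - ∑ g ∈ F, cf τ v r g • v g) ≤ δ →
      n2 τ (r * v (dl {m} (FreeGroup.of 0)) - v (dl {m} (FreeGroup.of 0)) * r) ≤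
      2 * δ + 2 * mD τ v {g | ¬ ((∀ n, n < 1 → g.1 n = 1) ∧ qq g = 0)} r)
    (G2 : ∀ x : A, mD τ v {g | ¬ ((∀ n, n < 1 → g.1 n = 1) ∧ qq g = 0)} x ≤
      9 * (n2 τ (x * v (dl (Finset.range 1) (FreeGroup.of 1)) -
          v (dl (Finset.range 1) (FreeGroup.of 1)) * x) +
        n2 τ (x * v (dl (Finset.range 1) (FreeGroup.of 2)) -
          v (dl (Finset.range 1) (FreeGroup.of 2)) * x) +
        n2 τ (x * v (dl {0} (FreeGroup.of 0)) - v (dl {0} (FreeGroup.of 0)) * x)))
    (ε : ℝ) (hε : 0 < ε) : Game (fun x => τ x) (w3 1) ε := by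
  classical
  obtain ⟨hu, orth⟩ := TG.facts h BB_left BB_right w3_facts.1 w3_facts.2.1
  have hemp : ∀ x : A, mD τ v ∅ x = 0 := by
    intro x
    unfold mD
    simp
  have happ : ∀ x : A, ∃ F : Finset SG, n2 τ (x - ∑ g ∈ F, cf τ v x g • v g) ≤ ε / 4 := by
    intro x
    obtain ⟨F, -, hF⟩ := TG.fin_approx h orth x ∅ (ε / 4) (by positivity)
    rw [hemp, zero_add] at hF
    exact ⟨F, hF⟩
  unfold Game gl
  simp only [Gq]
  refine ⟨v (dl (Finset.range 1) (FreeGroup.of 1)), hu _, v (dl (Finset.range 1) (FreeGroup.of 2)),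
    hu _, v (dl {0} (FreeGroup.of 0)), hu _, ?_⟩
  intro q0 hq0 q1 hq1 q2 hq2
  obtain ⟨F0, hF0⟩ := happ q0
  obtain ⟨F1, hF1⟩ := happ q1
  obtain ⟨F2, hF2⟩ := happ q2
  obtain ⟨n, hn0, hn⟩ := lev_exists (F0 ∪ F1 ∪ F2) 0
  refine ⟨v (dl {n} (FreeGroup.of 0)), hu _, ?_⟩
  intro r0 hr0 r1 hr1
  obtain ⟨E0, hE0⟩ := happ r0
  obtain ⟨E1, hE1⟩ := happ r1
  obtain ⟨m, hnm, hm⟩ := lev_exists (E0 ∪ E1) n
  refine ⟨v (dl {m} (FreeGroup.of 0)), hu _, ?_⟩
  have key : ∀ (X : Fin 10 → A), X 0 = v (dl (Finset.range 1) (FreeGroup.of 1)) →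
      X 1 = v (dl (Finset.range 1) (FreeGroup.of 2)) → X 2 = v (dl {0} (FreeGroup.of 0)) →
      X 3 = q0 → X 4 = q1 → X 5 = q2 → X 6 = v (dl {n} (FreeGroup.of 0)) →
      X 7 = r0 → X 8 = r1 → X 9 = v (dl {m} (FreeGroup.of 0)) →
      ∀ k, FF (fun x => τ x) (w3 1) X k ≤ ε := by
    intro X e0 e1 e2 e3 e4 e5 e6 e7 e8 e9
    have hw3 : w3 0 = 1 := w3_facts.1
    have hcomm : ∀ (q : A) (F : Finset SG), n2 τ (q - ∑ g ∈ F, cf τ v q g • v g) ≤ ε / 4 →
        (∀ g ∈ F, ∀ k, n ≤ k → g.1 k = 1) →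
        n2 τ (star (v (dl {n} (FreeGroup.of 0))) * v (dl {m} (FreeGroup.of 0)) * q -
          q * (star (v (dl {n} (FreeGroup.of 0))) * v (dl {m} (FreeGroup.of 0)))) ≤ ε := by
      intro q F hq hF
      have c1 := comm_pair (v (dl {n} (FreeGroup.of 0))) (v (dl {m} (FreeGroup.of 0)))
        (Unitary.mem_iff.1 (hu _)).1 (Unitary.mem_iff.1 (hu _)).2 F (cf τ v q)
        (fun g => w3 (qq g)) (fun g hg => top_comm n g (hF g hg))
        (fun g hg => top_comm m g (fun k hk => hF g hg k (hnm.le.trans hk)))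
      have c2 := TG.comm_approx h q (∑ g ∈ F, cf τ v q g • v g)
        (star (v (dl {n} (FreeGroup.of 0))) * v (dl {m} (FreeGroup.of 0)))
        (mul_mem (Unitary.star_mem (hu _)) (hu _)) c1
      rw [h.tr.n2_sub_comm]
      linarith
    have hG : ∀ (r : A) (E : Finset SG), n2 τ (r - ∑ g ∈ E, cf τ v r g • v g) ≤ ε / 4 →
        (∀ g ∈ E, ∀ k, m ≤ k → g.1 k = 1) →
        n2 τ (r * v (dl {m} (FreeGroup.of 0)) - v (dl {m} (FreeGroup.of 0)) * r) -
          18 * (n2 τ (r * v (dl (Finset.range 1) (FreeGroup.of 1)) -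
          v (dl (Finset.range 1) (FreeGroup.of 1)) * r) +
        n2 τ (r * v (dl (Finset.range 1) (FreeGroup.of 2)) -
          v (dl (Finset.range 1) (FreeGroup.of 2)) * r) +
        n2 τ (r * v (dl {0} (FreeGroup.of 0)) - v (dl {0} (FreeGroup.of 0)) * r)) ≤ ε := by
      intro r E hr hE
      have c1 := top_est r E m (ε / 4) hE hr
      have c2 := G2 r
      linarith
    unfold FF
    rw [e0, e1, e2, e3, e4, e5, e6, e7, e8, e9]
    intro k
    fin_cases k
    · exact hcomm q0 F0 hF0 (fun g hg => hn g (by simp [hg]))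
    · exact hcomm q1 F1 hF1 (fun g hg => hn g (by simp [hg]))
    · exact hcomm q2 F2 hF2 (fun g hg => hn g (by simp [hg]))
    · have c1 := top_comm m (dl {n} (FreeGroup.of 0)) (fun k hk => by
        show (if k ∈ ({n} : Finset ℕ) then FreeGroup.of 0 else 1) = 1
        rw [if_neg]
        rw [Finset.mem_singleton]
        omega)
      have c2 : qq (dl {n} (FreeGroup.of 0)) = 1 := by
        rw [qq_dl, chg_of]; simp
      rw [c2] at c1
      show n2 τ (v (dl {m} (FreeGroup.of 0)) * v (dl {n} (FreeGroup.of 0)) -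
        w3 1 • (v (dl {n} (FreeGroup.of 0)) * v (dl {m} (FreeGroup.of 0)))) ≤ ε
      rw [c1, sub_self, h.tr.n2_zero]
      exact hε.le
    · exact hG r0 E0 hE0 (fun g hg => hm g (by simp [hg]))
    · exact hG r1 E1 hE1 (fun g hg => hm g (by simp [hg]))
  apply key <;> simp [Function.update]

end

end Pool.Agent.Helper133.OP
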