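import Mathlib
import Pool.Agent.Helper133.OP.Leaf

set_option autoImplicit false
set_option linter.unusedSectionVars false
set_option linter.unusedVariables false

open scoped ComplexConjugate
open Pool.Agent.Helper278

namespace Pool.Agent.Helper133.OP

open scoped Topology
open Filter

section

variable {A : Type*} [Ring A] [StarRing A] [Algebra ℂ A] [StarModule ℂ A] {τ : A →ₗ[ℂ] ℂ}
  {v : SG → A}

theorem TG.no_game (h : TG τ v) (hK : Kap τ v)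
    (G1 : ∀ (W : Finset ℕ) (x : A),
    mD τ v {g | ∃ n ∈ W, g.1 n ≠ 1} x ≤
      9 * (n2 τ (x * v (dl W (FreeGroup.of 1)) - v (dl W (FreeGroup.of 1)) * x) +
        n2 τ (x * v (dl W (FreeGroup.of 2)) - v (dl W (FreeGroup.of 2)) * x)))
    (G2 : ∀ (N₀ : ℕ), 0 < N₀ → ∀ x : A,
    mD τ v {g | ¬ ((∀ n, n < N₀ → g.1 n = 1) ∧ qq g = 0)} x ≤
      9 * (n2 τ (x * v (dl (Finset.range N₀) (FreeGroup.of 1)) -
          v (dl (Finset.range N₀) (FreeGroup.of 1)) * x) +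
        n2 τ (x * v (dl (Finset.range N₀) (FreeGroup.of 2)) -
          v (dl (Finset.range N₀) (FreeGroup.of 2)) * x) +
        n2 τ (x * v (dl {0} (FreeGroup.of 0)) - v (dl {0} (FreeGroup.of 0)) * x)))
    (final_est : ∀ (D : Set SG) (u u' uf u0 : A), u ∈ unitary A → u' ∈ unitary A →
      ∀ (δ η ρ ε : ℝ), n2 τ (u - uf) ≤ δ → n2 τ (u' - u0) ≤ η →
      (∀ z, n2 τ (z * uf) ≤ 2 * n2 τ z ∧ n2 τ (uf * z) ≤ 2 * n2 τ z) →
      mD τ v Dᶜ (u' * star u) ≤ ρ → n2 τ (u * u' - w3 1 • (u' * u)) ≤ ε →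
      (w3 (-1) * iD τ v D (star uf * u0) (u0 * star uf)).re ≤ 0 →
      1 ≤ ε + ρ + (δ + 2 * η) + (1 + (δ + 2 * η)) * (δ + 2 * η))
    (p : Fin 3 → A) (hp : ∀ l, p l ∈ unitary A) :
    ∃ q : Fin 3 → A, (∀ l, q l ∈ unitary A) ∧ ∀ u ∈ unitary A,
      ∃ r : Fin 2 → A, (∀ l, r l ∈ unitary A) ∧ ∀ u' ∈ unitary A,
        ¬ ((∀ l, n2 τ (q l * (u' * star u) - u' * star u * q l) ≤ 1 / 1000) ∧
          n2 τ (u * u' - w3 1 • (u' * u)) ≤ 1 / 1000 ∧
          ∀ l, n2 τ (u' * r l - r l * u') - 18 * (n2 τ (p 0 * r l - r l * p 0) +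
            n2 τ (p 1 * r l - r l * p 1) + n2 τ (p 2 * r l - r l * p 2)) ≤ 1 / 1000) := by
  classical
  obtain ⟨w0, wadd, wnorm, wconj, w1, w2, wgap⟩ := w3_facts
  obtain ⟨hv, orth⟩ := h.facts BB_left BB_right w0 wadd
  have hmD0 : ∀ x : A, mD τ v ∅ x = 0 := by
    intro x
    unfold mD
    simp
  -- approximations of the `p l`
  have happ : ∀ l : Fin 3, ∃ F : Finset SG,
      n2 τ (p l - ∑ g ∈ F, cf τ v (p l) g • v g) ≤ 1 / 100000 := by
    intro l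
    obtain ⟨F, _, hF⟩ := h.fin_approx orth (p l) ∅ (1 / 100000) (by norm_num)
    rw [hmD0, zero_add] at hF
    exact ⟨F, hF⟩
  choose Fl hFl using happ
  obtain ⟨N₀, hN₀, hlev⟩ := lev_exists (Fl 0 ∪ Fl 1 ∪ Fl 2) 0
  have hlev' : ∀ l : Fin 3, ∀ g ∈ Fl l, ∀ n, N₀ ≤ n → g.1 n = 1 := by
    intro l g hg
    apply hlev g
    fin_cases l
    · exact Finset.mem_union_left _ (Finset.mem_union_left _ hg)
    · exact Finset.mem_union_left _ (Finset.mem_union_right _ hg)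
    · exact Finset.mem_union_right _ hg
  refine ⟨![v (dl (Finset.range N₀) (FreeGroup.of 1)), v (dl (Finset.range N₀) (FreeGroup.of 2)),
    v (dl {0} (FreeGroup.of 0))], ?_, ?_⟩
  · intro l
    fin_cases l <;> exact hv _
  intro u hu
  obtain ⟨F, a, hua, hub⟩ := hK u hu (1 / 100000) (by norm_num)
  obtain ⟨N₂, hN₂, hlevF⟩ := lev_exists F N₀
  set W := Finset.Ico N₀ N₂ with hW
  refine ⟨![v (dl W (FreeGroup.of 1)), v (dl W (FreeGroup.of 2))], ?_, ?_⟩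
  · intro l
    fin_cases l <;> exact hv _
  intro u' hu'
  rintro ⟨c1, c2, c3⟩
  have c10 : n2 τ (v (dl (Finset.range N₀) (FreeGroup.of 1)) * (u' * star u) -
      u' * star u * v (dl (Finset.range N₀) (FreeGroup.of 1))) ≤ 1 / 1000 := c1 0
  have c11 : n2 τ (v (dl (Finset.range N₀) (FreeGroup.of 2)) * (u' * star u) -
      u' * star u * v (dl (Finset.range N₀) (FreeGroup.of 2))) ≤ 1 / 1000 := c1 1
  have c12 : n2 τ (v (dl {0} (FreeGroup.of 0)) * (u' * star u) -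
      u' * star u * v (dl {0} (FreeGroup.of 0))) ≤ 1 / 1000 := c1 2
  have c30 : n2 τ (u' * v (dl W (FreeGroup.of 1)) - v (dl W (FreeGroup.of 1)) * u') -
      18 * (n2 τ (p 0 * v (dl W (FreeGroup.of 1)) - v (dl W (FreeGroup.of 1)) * p 0) +
        n2 τ (p 1 * v (dl W (FreeGroup.of 1)) - v (dl W (FreeGroup.of 1)) * p 1) +
        n2 τ (p 2 * v (dl W (FreeGroup.of 1)) - v (dl W (FreeGroup.of 1)) * p 2)) ≤ 1 / 1000 := c3 0
  have c31 : n2 τ (u' * v (dl W (FreeGroup.of 2)) - v (dl W (FreeGroup.of 2)) * u') -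
      18 * (n2 τ (p 0 * v (dl W (FreeGroup.of 2)) - v (dl W (FreeGroup.of 2)) * p 0) +
        n2 τ (p 1 * v (dl W (FreeGroup.of 2)) - v (dl W (FreeGroup.of 2)) * p 1) +
        n2 τ (p 2 * v (dl W (FreeGroup.of 2)) - v (dl W (FreeGroup.of 2)) * p 2)) ≤ 1 / 1000 := c3 1
  have hcomm : ∀ (l : Fin 3) (k : KF), chg k = 0 →
      n2 τ (p l * v (dl W k) - v (dl W k) * p l) ≤ 2 * (1 / 100000) := by
    intro l k hk
    have h1 := h.comm_lev N₀ W (fun n hn => (Finset.mem_Ico.mp hn).1) k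
      (fun x => ⟨(BB_dl W k hk x).1, (BB_dl W k hk x).2.1⟩) (Fl l) (fun g => cf τ v (p l) g)
      (hlev' l)
    have h2 := h.comm_approx (p l) _ (v (dl W k)) (hv _) h1
    have h3 := hFl l
    linarith
  have hchg1 : chg (FreeGroup.of (1 : Fin 3)) = 0 := by
    rw [chg_of, if_neg (by decide)]
  have hchg2 : chg (FreeGroup.of (2 : Fin 3)) = 0 := by
    rw [chg_of, if_neg (by decide)]
  have hg1 := G1 W u'
  have a1 := hcomm 0 _ hchg1
  have a2 := hcomm 1 _ hchg1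
  have a3 := hcomm 2 _ hchg1
  have b1 := hcomm 0 _ hchg2
  have b2 := hcomm 1 _ hchg2
  have b3 := hcomm 2 _ hchg2
  have hmD1 : mD τ v {g | ∃ n ∈ W, g.1 n ≠ 1} u' ≤ 0.03745 - 1 / 100000 := by
    refine hg1.trans ?_
    norm_num at *
    linarith
  obtain ⟨F', hF'D, hF'⟩ := h.fin_approx orth u' {g | ∃ n ∈ W, g.1 n ≠ 1} (1 / 100000)
    (by norm_num)
  have hη : n2 τ (u' - ∑ g ∈ F', cf τ v u' g • v g) ≤ 0.03745 := by linarith
  have hF'' : ∀ k ∈ F', ∀ n, N₀ ≤ n → n < N₂ → k.1 n = 1 := by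
    intro k hk n hn1 hn2
    by_contra hc
    exact hF'D k hk ⟨n, Finset.mem_Ico.mpr ⟨hn1, hn2⟩, hc⟩
  set D : Set SG := {g | (∀ n, n < N₀ → g.1 n = 1) ∧ qq g = 0} with hD
  have hρ : mD τ v Dᶜ (u' * star u) ≤ 0.027 := by
    have hg2 := G2 N₀ hN₀ (u' * star u)
    have hDc : Dᶜ = {g | ¬ ((∀ n, n < N₀ → g.1 n = 1) ∧ qq g = 0)} := rfl
    rw [hDc]
    refine hg2.trans ?_
    rw [h.tr.n2_sub_comm] at c10 c11 c12
    linarith
  have hre : (w3 (-1) * iD τ v D (star (∑ g ∈ F, a g • v g) * ∑ g ∈ F', cf τ v u' g • v g)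
      ((∑ g ∈ F', cf τ v u' g • v g) * star (∑ g ∈ F, a g • v g))).re ≤ 0 := by
    apply h.re_nonpos w0 wadd wnorm wconj w1 w2
    intro g hg
    obtain ⟨s, hs⟩ := key_BB BB_left BB_right qq_mul BB_low BB_high N₀ N₂ hN₂.le g hg.1 hg.2
    exact ⟨s, h.key_coef orth wadd wnorm wconj N₀ N₂ g s hs F F' a (fun g => cf τ v u' g)
      hlevF hF''⟩
  have hfin := final_est D u u' (∑ g ∈ F, a g • v g) (∑ g ∈ F', cf τ v u' g • v g) hu hu'
    (1 / 100000) 0.03745 0.027 (1 / 1000) hua.le hη hub hρ c2 hre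
  norm_num at hfin

end

end Pool.Agent.Helper133.OP
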