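import Mathlib
import Pool.Agent.Helper133.OP.Leaf

set_option autoImplicit false
set_option linter.unusedSectionVars false
set_option linter.unusedVariables false

open scoped ComplexConjugate
open Pool.Agent.Helper278

namespace Pool.Agent.Helper133.OP

open scoped Topology
open Filter

section

variable {A : Type*} [Ring A] [StarRing A] [Algebra ℂ A] [StarModule ℂ A] {τ : A →ₗ[ℂ] ℂ}
  {v : SG → A}

theorem TG.top_comm (h : TG τ v) (m : ℕ) (g : SG) (hg : ∀ n, m ≤ n → g.1 n = 1) :
    v (dl {m} (FreeGroup.of 0)) * v g = w3 (qq g) • (v g * v (dl {m} (FreeGroup.of 0))) := by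
  have hd1 : ∀ n, n < m → (dl {m} (FreeGroup.of 0)).1 n = 1 := by
    intro n hn
    show (if n ∈ ({m} : Finset ℕ) then (FreeGroup.of 0 : KF) else 1) = 1
    rw [if_neg]
    rw [Finset.mem_singleton]
    omega
  have h1 : BB (dl {m} (FreeGroup.of 0)) g = qq g := by
    rw [BB_high m _ _ hd1 hg, qq_dl, chg_of, if_pos rfl, one_mul]
  have h2 : BB g (dl {m} (FreeGroup.of 0)) = 0 := BB_low m _ _ hg hd1
  have h3 : dl {m} (FreeGroup.of 0) * g = g * dl {m} (FreeGroup.of 0) := by
    apply Subtype.ext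
    funext n
    show (dl {m} (FreeGroup.of 0)).1 n * g.1 n = g.1 n * (dl {m} (FreeGroup.of 0)).1 n
    rcases Nat.lt_or_ge n m with hn | hn
    · rw [hd1 n hn, one_mul, mul_one]
    · rw [hg n hn, one_mul, mul_one]
  rw [h.mul, h.mul, h1, h2, h3, w3_facts.1, one_smul]

end

end Pool.Agent.Helper133.OP
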