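import Mathlib
import Pool.Agent.Helper133.OP.Leaf

set_option autoImplicit false
set_option linter.unusedSectionVars false
set_option linter.unusedVariables false

open scoped ComplexConjugate
open Pool.Agent.Helper278

namespace Pool.Agent.Helper133.OP

open scoped Topology
open Filter

section

variable {A : Type*} [Ring A] [StarRing A] [Algebra ℂ A] [StarModule ℂ A] {τ : A →ₗ[ℂ] ℂ}
  {v : SG → A}

theorem TG.top_est (h : TG τ v) (r : A) (F : Finset SG) (m : ℕ) (δ : ℝ)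
    (hF : ∀ g ∈ F, ∀ n, m ≤ n → g.1 n = 1)
    (hr : n2 τ (r - ∑ g ∈ F, cf τ v r g • v g) ≤ δ)
    (top_comm : ∀ g : SG, (∀ n, m ≤ n → g.1 n = 1) →
      v (dl {m} (FreeGroup.of 0)) * v g = w3 (qq g) • (v g * v (dl {m} (FreeGroup.of 0)))) :
    n2 τ (r * v (dl {m} (FreeGroup.of 0)) - v (dl {m} (FreeGroup.of 0)) * r) ≤
      2 * δ + 2 * mD τ v {g | ¬ ((∀ n, n < 1 → g.1 n = 1) ∧ qq g = 0)} r := by
  obtain ⟨hu, orth⟩ := TG.facts h BB_left BB_right w3_facts.1 w3_facts.2.1
  set w : A := v (dl {m} (FreeGroup.of 0)) with hw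
  have hwu : w ∈ unitary A := hu _
  have hw1 : star w * w = 1 := (Unitary.mem_iff.1 hwu).1
  have hw2 : w * star w = 1 := (Unitary.mem_iff.1 hwu).2
  have e1 : ∀ x : A, n2 τ (x * w) = n2 τ x := by
    intro x
    unfold n2
    have : τ (star (x * w) * (x * w)) = τ (star x * x) := by
      rw [star_mul, mul_assoc, h.tr.comm, mul_assoc, mul_assoc, hw2, mul_one]
    rw [this]
  have e2 : ∀ x : A, n2 τ (w * x) = n2 τ x := by
    intro x
    unfold n2
    have : τ (star (w * x) * (w * x)) = τ (star x * x) := by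
      rw [star_mul, mul_assoc, ← mul_assoc (star w), hw1, one_mul]
    rw [this]
  set y : A := ∑ g ∈ F, cf τ v r g • v g with hy
  have e3 : y * w - w * y = (∑ g ∈ F, (cf τ v r g * (1 - w3 (qq g))) • v g) * w := by
    rw [hy, Finset.sum_mul, Finset.mul_sum, Finset.sum_mul, ← Finset.sum_sub_distrib]
    refine Finset.sum_congr rfl fun g hg => ?_
    rw [smul_mul_assoc, mul_smul_comm, top_comm g (hF g hg), smul_mul_assoc, smul_smul, ← sub_smul,
      mul_sub, mul_one]
  have e4 : n2 τ (y * w - w * y) ^ 2 ≤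
      (2 * mD τ v {g | ¬ ((∀ n, n < 1 → g.1 n = 1) ∧ qq g = 0)} r) ^ 2 := by
    rw [e3, e1, TG.norm_sum h orth]
    have hsum : Summable (Set.indicator {g : SG | ¬ ((∀ n, n < 1 → g.1 n = 1) ∧ qq g = 0)}
        (fun g => ‖cf τ v r g‖ ^ 2)) := (h.parseval r).summable.indicator _
    have hnn : ∀ g, 0 ≤ Set.indicator {g : SG | ¬ ((∀ n, n < 1 → g.1 n = 1) ∧ qq g = 0)}
        (fun g => ‖cf τ v r g‖ ^ 2) g := fun g => Set.indicator_nonneg (fun _ _ => by positivity) g
    unfold mD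
    rw [mul_pow, Real.sq_sqrt (tsum_nonneg hnn)]
    calc ∑ g ∈ F, ‖cf τ v r g * (1 - w3 (qq g))‖ ^ 2 ≤
        ∑ g ∈ F, 4 * Set.indicator {g : SG | ¬ ((∀ n, n < 1 → g.1 n = 1) ∧ qq g = 0)}
          (fun g => ‖cf τ v r g‖ ^ 2) g := by
          refine Finset.sum_le_sum fun g _ => ?_
          by_cases hq : qq g = 0
          · rw [hq, w3_facts.1, sub_self, mul_zero, norm_zero]
            have := hnn g
            nlinarith
          · have hm : g ∈ {g : SG | ¬ ((∀ n, n < 1 → g.1 n = 1) ∧ qq g = 0)} :=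
              fun hh => hq hh.2
            rw [Set.indicator_of_mem hm, norm_mul, mul_pow, w3_facts.2.2.2.2.2.2 _ hq]
            have : 0 ≤ ‖cf τ v r g‖ ^ 2 := by positivity
            linarith
      _ = 4 * ∑ g ∈ F, Set.indicator {g : SG | ¬ ((∀ n, n < 1 → g.1 n = 1) ∧ qq g = 0)}
          (fun g => ‖cf τ v r g‖ ^ 2) g := by rw [Finset.mul_sum]
      _ ≤ 2 ^ 2 * ∑' g, Set.indicator {g : SG | ¬ ((∀ n, n < 1 → g.1 n = 1) ∧ qq g = 0)}
          (fun g => ‖cf τ v r g‖ ^ 2) g := by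
          have := hsum.sum_le_tsum F (fun g _ => hnn g)
          linarith
  have e5 : n2 τ (y * w - w * y) ≤
      2 * mD τ v {g | ¬ ((∀ n, n < 1 → g.1 n = 1) ∧ qq g = 0)} r :=
    (pow_le_pow_iff_left₀ (n2_nonneg _ _) (mul_nonneg (by norm_num) (Real.sqrt_nonneg _))
      two_ne_zero).1 e4
  have e6 : r * w - w * r = ((r - y) * w - w * (r - y)) + (y * w - w * y) := by noncomm_ring
  have e7 := h.tr.n2_add_le ((r - y) * w - w * (r - y)) (y * w - w * y)
  have e8 := h.tr.n2_sub_le ((r - y) * w) (w * (r - y))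
  rw [e1, e2] at e8
  rw [← e6] at e7
  linarith
end

end Pool.Agent.Helper133.OP
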