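import Mathlib

set_option autoImplicit false

open scoped InnerProductSpace ComplexConjugate

namespace Pool.Agent.Helper133.OP

/-- weighted permutation unitaries -/
theorem exists_wop {G K : Type} [NormedAddCommGroup K] [InnerProductSpace ℂ K] [CompleteSpace K]
    (b : HilbertBasis G ℂ K) (w : G → ℂ) (hw : ∀ g, ‖w g‖ = 1) (e : G ≃ G) :
    ∃ T : K →L[ℂ] K, (∀ h, T (b h) = w h • b (e h)) ∧
      ∀ h, (star T) (b (e h)) = conj (w h) • b h := by
  classical
  have hww : ∀ h, conj (w h) * w h = 1 := by
    intro h
    rw [mul_comm, Complex.mul_conj, Complex.normSq_eq_norm_sq, hw]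
    simp
  have hbn := b.orthonormal
  have hb2 : Orthonormal ℂ (fun h => w h • b (e h)) := by
    constructor
    · intro h
      rw [norm_smul, hw, hbn.1, mul_one]
    · intro h k hk
      rw [inner_smul_left, inner_smul_right, hbn.2 (fun h' => hk (e.injective h'))]
      simp
  have hd : ⊤ ≤ (Submodule.span ℂ (Set.range (fun h => w h • b (e h)))).topologicalClosure := by
    rw [← b.dense_span]
    apply Submodule.topologicalClosure_mono
    rw [Submodule.span_le]
    rintro _ ⟨g, rfl⟩
    have h1 : b g = conj (w (e.symm g)) • (w (e.symm g) • b (e (e.symm g))) := by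
      rw [smul_smul, hww, one_smul, e.apply_symm_apply]
    rw [h1]
    exact Submodule.smul_mem _ _ (Submodule.subset_span ⟨e.symm g, rfl⟩)
  let B2 := HilbertBasis.mk hb2 hd
  let T : K ≃ₗᵢ[ℂ] K := b.repr.trans B2.repr.symm
  have hT : ∀ h, T (b h) = w h • b (e h) := by
    intro h
    show B2.repr.symm (b.repr (b h)) = _
    rw [b.repr_self, B2.repr_symm_single]
    show (HilbertBasis.mk hb2 hd) h = _
    rw [HilbertBasis.coe_mk]
  refine ⟨(T.toContinuousLinearEquiv : K →L[ℂ] K), hT, ?_⟩
  intro h
  rw [ContinuousLinearMap.star_eq_adjoint]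
  refine ext_inner_left ℂ fun v => ?_
  rw [ContinuousLinearMap.adjoint_inner_right]
  have h2 : b (e h) = conj (w h) • T (b h) := by
    rw [hT, smul_smul, hww, one_smul]
  rw [h2, inner_smul_right, inner_smul_right]
  congr 1
  exact T.inner_map_map v (b h)
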