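import Mathlib
import Pool.Agent.Helper133.OP.Leaf

set_option autoImplicit false
set_option linter.unusedSectionVars false
set_option linter.unusedVariables false

open scoped ComplexConjugate
open Pool.Agent.Helper278

namespace Pool.Agent.Helper133.OP

open scoped Topology
open Filter

theorem gapW_dl (W : Finset ℕ) (k : KF) (n : ℕ) (hn : n ∈ W) : (dl W k).1 n = k := if_pos hn

theorem gapW_c1 (W : Finset ℕ) (k : KF) (g : SG) (n : ℕ) (hn : n ∈ W) :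
    (dl W k * g * (dl W k)⁻¹).1 n = k * g.1 n * k⁻¹ := by
  have h := gapW_dl W k n hn
  change (dl W k).1 n * g.1 n * ((dl W k).1 n)⁻¹ = k * g.1 n * k⁻¹
  rw [h]

theorem gapW_c2 (W : Finset ℕ) (k : KF) (g : SG) (n : ℕ) (hn : n ∈ W) :
    ((dl W k)⁻¹ * g * dl W k).1 n = k⁻¹ * g.1 n * k := by
  have h := gapW_dl W k n hn
  change ((dl W k).1 n)⁻¹ * g.1 n * (dl W k).1 n = k⁻¹ * g.1 n * k
  rw [h]

/-- `g` belongs to the set defined by its first nontrivial place in `W` -/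
def gapW_S (S0 : Set KF) (W : Finset ℕ) : Set SG :=
  {g | ∃ n ∈ W, (∀ j ∈ W, j < n → g.1 j = 1) ∧ g.1 n ∈ S0}

theorem gapW_not (S0 : Set KF) (h1 : (1 : KF) ∉ S0) (W : Finset ℕ) (f : KF → KF)
    (hf : ∀ x, f x = 1 ↔ x = 1) (hfS : ∀ k ∈ S0, f k ∉ S0) (g g' : SG)
    (hg' : ∀ n ∈ W, g'.1 n = f (g.1 n)) (hg : g ∈ gapW_S S0 W) : g' ∉ gapW_S S0 W := by
  obtain ⟨n, hn, hn1, hn2⟩ := hg
  rintro ⟨m, hm, hm1, hm2⟩
  rcases lt_trichotomy m n with h | h | h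
  · have := hn1 m hm h
    rw [hg' m hm, (hf _).2 this] at hm2
    exact h1 hm2
  · subst h
    rw [hg' m hm] at hm2
    exact hfS _ hn2 hm2
  · have := hm1 n hn h
    rw [hg' n hn] at this
    rw [(hf _).1 this] at hn2
    exact h1 hn2

/-- the sets for the inequality, in the sequence group -/
theorem gapW (W : Finset ℕ) : ∃ S : Set SG, S ⊆ {g | ∃ n ∈ W, g.1 n ≠ 1} ∧
    (∀ g : SG, (∃ n ∈ W, g.1 n ≠ 1) → g ∈ S ∨
      (dl W (FreeGroup.of 1))⁻¹ * g * dl W (FreeGroup.of 1) ∈ S) ∧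
    (∀ g ∈ S, dl W (FreeGroup.of 2) * g * (dl W (FreeGroup.of 2))⁻¹ ∉ S) ∧
    (∀ g ∈ S, (dl W (FreeGroup.of 2))⁻¹ * g * dl W (FreeGroup.of 2) ∉ S) ∧
    (∀ g ∈ S, dl W (FreeGroup.of 2) * (dl W (FreeGroup.of 2) * g * (dl W (FreeGroup.of 2))⁻¹) *
      (dl W (FreeGroup.of 2))⁻¹ ∉ S) := by
  classical
  obtain ⟨S0, h1, h2, h3, h4, h5⟩ := gap_sets
  refine ⟨gapW_S S0 W, ?_, ?_, ?_, ?_, ?_⟩
  · rintro g ⟨n, hn, _, hn2⟩
    refine ⟨n, hn, fun h => ?_⟩
    rw [h] at hn2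
    exact h1 hn2
  · intro g hg
    have hne : (W.filter (fun n => g.1 n ≠ 1)).Nonempty := by
      obtain ⟨n, hn, hn1⟩ := hg
      exact ⟨n, Finset.mem_filter.2 ⟨hn, hn1⟩⟩
    obtain ⟨n, hn, hmin⟩ := Finset.exists_min_image _ (fun n : ℕ => n) hne
    rw [Finset.mem_filter] at hn
    have hlow : ∀ j ∈ W, j < n → g.1 j = 1 := by
      intro j hj hjn
      by_contra hne1
      exact absurd (hmin j (Finset.mem_filter.2 ⟨hj, hne1⟩)) (not_le.2 hjn)
    rcases h2 (g.1 n) hn.2 with h | h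
    · exact Or.inl ⟨n, hn.1, hlow, h⟩
    · right
      refine ⟨n, hn.1, ?_, ?_⟩
      · intro j hj hjn
        rw [gapW_c2 W _ g j hj, hlow j hj hjn, mul_one, inv_mul_cancel]
      · rw [gapW_c2 W _ g n hn.1]
        exact h
  · intro g hg
    refine gapW_not S0 h1 W (fun x => FreeGroup.of 2 * x * (FreeGroup.of 2)⁻¹) ?_ h3 g _ ?_ hg
    · intro x
      exact conj_eq_one_iff
    · intro n hn
      exact gapW_c1 W _ g n hn
  · intro g hg
    refine gapW_not S0 h1 W (fun x => (FreeGroup.of 2)⁻¹ * x * FreeGroup.of 2) ?_ h4 g _ ?_ hg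
    · intro x
      have := conj_eq_one_iff (a := (FreeGroup.of (2 : Fin 3))⁻¹) (b := x)
      rw [inv_inv] at this
      exact this
    · intro n hn
      exact gapW_c2 W _ g n hn
  · intro g hg
    refine gapW_not S0 h1 W (fun x => FreeGroup.of 2 * (FreeGroup.of 2 * x * (FreeGroup.of 2)⁻¹) *
      (FreeGroup.of 2)⁻¹) ?_ h5 g _ ?_ hg
    · intro x
      exact conj_eq_one_iff.trans conj_eq_one_iff
    · intro n hn
      rw [gapW_c1 W _ _ n hn, gapW_c1 W _ g n hn]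

end Pool.Agent.Helper133.OP
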