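import Mathlib
import Pool.Agent.Helper133.OP.Leaf

set_option autoImplicit false
set_option linter.unusedSectionVars false
set_option linter.unusedVariables false

open scoped ComplexConjugate
open Pool.Agent.Helper278

namespace Pool.Agent.Helper133.OP

open scoped Topology
open Filter

theorem n2_op_aux {A : Type*} [Ring A] [StarRing A] [Algebra ℂ A] [StarModule ℂ A]
    {τ : A →ₗ[ℂ] ℂ} (hτ : TrAlg τ) (z : Aᵐᵒᵖ) :
    n2 (fun x : Aᵐᵒᵖ => τ (MulOpposite.unop x)) z = n2 τ (MulOpposite.unop z) := by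
  unfold n2
  have h1 : MulOpposite.unop (star z * z) = MulOpposite.unop z * star (MulOpposite.unop z) := rfl
  show Real.sqrt (τ (MulOpposite.unop (star z * z))).re = _
  rw [h1, hτ.comm]

theorem unop_mem_unitary_aux {A : Type*} [Ring A] [StarRing A] {y : Aᵐᵒᵖ}
    (h : y ∈ unitary Aᵐᵒᵖ) : MulOpposite.unop y ∈ unitary A := by
  rw [Unitary.mem_iff] at h ⊢
  refine ⟨?_, ?_⟩
  · have := congrArg MulOpposite.unop h.2
    exact this
  · have := congrArg MulOpposite.unop h.1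
    exact this

theorem op_mem_unitary_aux {A : Type*} [Ring A] [StarRing A] {y : A}
    (h : y ∈ unitary A) : MulOpposite.op y ∈ unitary Aᵐᵒᵖ := by
  rw [Unitary.mem_iff] at h ⊢
  refine ⟨?_, ?_⟩
  · exact congrArg MulOpposite.op h.2
  · exact congrArg MulOpposite.op h.1

/-- the game in the opposite algebra -/
theorem op_game {A : Type*} [Ring A] [StarRing A] [Algebra ℂ A] [StarModule ℂ A]
    {τ : A →ₗ[ℂ] ℂ} (hτ : TrAlg τ) (c : ℂ) (ε : ℝ)
    (H : ∀ p : Fin 3 → A, (∀ l, p l ∈ unitary A) →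
    ∃ q : Fin 3 → A, (∀ l, q l ∈ unitary A) ∧ ∀ u ∈ unitary A,
      ∃ r : Fin 2 → A, (∀ l, r l ∈ unitary A) ∧ ∀ u' ∈ unitary A,
        ¬ ((∀ l, n2 τ (q l * (u' * star u) - u' * star u * q l) ≤ ε) ∧
          n2 τ (u * u' - c • (u' * u)) ≤ ε ∧
          ∀ l, n2 τ (u' * r l - r l * u') - 18 * (n2 τ (p 0 * r l - r l * p 0) +
            n2 τ (p 1 * r l - r l * p 1) + n2 τ (p 2 * r l - r l * p 2)) ≤ ε)) :
    ¬ Game (A := Aᵐᵒᵖ) (fun x => τ (MulOpposite.unop x)) c ε := by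
  intro G
  unfold Game at G
  simp only [gl, Gq] at G
  obtain ⟨y0, h0, y1, h1, y2, h2, G⟩ := G
  obtain ⟨q, hq, H⟩ := H ![MulOpposite.unop y0, MulOpposite.unop y1, MulOpposite.unop y2] (by
    intro l
    fin_cases l
    · exact unop_mem_unitary_aux h0
    · exact unop_mem_unitary_aux h1
    · exact unop_mem_unitary_aux h2)
  obtain ⟨y6, h6, G⟩ := G (MulOpposite.op (q 0)) (op_mem_unitary_aux (hq 0))
    (MulOpposite.op (q 1)) (op_mem_unitary_aux (hq 1)) (MulOpposite.op (q 2))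
    (op_mem_unitary_aux (hq 2))
  obtain ⟨r, hr, H⟩ := H (MulOpposite.unop y6) (unop_mem_unitary_aux h6)
  obtain ⟨y9, h9, G⟩ := G (MulOpposite.op (r 0)) (op_mem_unitary_aux (hr 0))
    (MulOpposite.op (r 1)) (op_mem_unitary_aux (hr 1))
  apply H (MulOpposite.unop y9) (unop_mem_unitary_aux h9)
  have G0 := G 0
  have G1 := G 1
  have G2 := G 2
  have G3 := G 3
  have G4 := G 4
  have G5 := G 5
  clear G
  simp only [FF, n2_op_aux hτ] at G0 G1 G2 G3 G4 G5
  refine ⟨fun l => ?_, G3, fun l => ?_⟩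
  · fin_cases l
    · exact G0
    · exact G1
    · exact G2
  · fin_cases l
    · exact G4
    · exact G5

end Pool.Agent.Helper133.OP
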