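import Mathlib
import Pool.Agent.Helper133.OP.Defs
import Pool.Agent.Helper436.SM.Main

set_option autoImplicit false
set_option linter.unusedSectionVars false
set_option linter.unusedVariables false

open scoped ComplexConjugate
open Pool.Agent.Helper278

namespace Pool.Agent.Helper133.OP



open scoped Topology
open Filter

universe w

theorem op_ultra {A : Type} [CStarAlgebra A] {σ : A → ℂ} (hσ : ∀ x y, σ (x * y) = σ (y * x))
    {J : Type w} {V : Ultrafilter J} {Q : Type w} [Ring Q] [StarRing Q] [Algebra ℂ Q]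
    {ρ : (J → Aᵐᵒᵖ) → Q} {ψ : Q → ℂ}
    (h : CE.IsTracialUltrapower (fun x : Aᵐᵒᵖ => σ (MulOpposite.unop x)) V ρ ψ) :
    CE.IsTracialUltrapower σ V
      (fun x : J → A => MulOpposite.op (ρ fun j => MulOpposite.op (x j)))
      (fun y : Qᵐᵒᵖ => ψ (MulOpposite.unop y)) := by
  have hb : ∀ x : J → A, CE.BddFam x → CE.BddFam (fun j => MulOpposite.op (x j)) := by
    rintro x ⟨C, hC⟩
    exact ⟨C, fun j => by rw [MulOpposite.norm_op]; exact hC j⟩
  refine ⟨⟨?_, ?_, ?_, ?_, ?_, ?_, ?_⟩, ?_⟩
  · have h1 := h.quot.one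
    exact congrArg MulOpposite.op h1
  · intro x y hx hy
    have h1 := h.quot.add _ _ (hb x hx) (hb y hy)
    exact congrArg MulOpposite.op h1
  · intro x y hx hy
    have h1 := h.quot.mul _ _ (hb y hy) (hb x hx)
    exact congrArg MulOpposite.op h1
  · intro c x hx
    have h1 := h.quot.smul c _ (hb x hx)
    exact congrArg MulOpposite.op h1
  · intro x hx
    have h1 := h.quot.star _ (hb x hx)
    exact congrArg MulOpposite.op h1
  · intro q
    obtain ⟨y, ⟨C, hC⟩, hyq⟩ := h.quot.surj (MulOpposite.unop q)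
    refine ⟨fun j => MulOpposite.unop (y j), ⟨C, fun j => ?_⟩, ?_⟩
    · rw [MulOpposite.norm_unop]
      exact hC j
    · have h1 := congrArg MulOpposite.op hyq
      exact h1
  · intro x hx
    have h1 := h.quot.ker _ (hb x hx)
    have h2 : (MulOpposite.op (ρ fun j => MulOpposite.op (x j)) = 0) ↔
        (ρ fun j => MulOpposite.op (x j)) = 0 := MulOpposite.op_eq_zero_iff _
    rw [h2, h1]
    have h3 : (fun i => σ (MulOpposite.unop (star (MulOpposite.op (x i)) * MulOpposite.op (x i)))) =
        fun i => σ (star (x i) * x i) := by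
      funext i
      exact hσ (x i) (star (x i))
    rw [h3]
  · intro x hx
    exact h.trace _ (hb x hx)

end Pool.Agent.Helper133.OP
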