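import Mathlib
import Pool.Agent.Helper436.SM.Main
import Pool.Agent.Helper133.OP.Leaf
import Pool.Agent.Helper133.OP.TwVN2
import Pool.Agent.Helper133.OP.XGqtransfer
import Pool.Agent.Helper133.OP.XGqmap
import Pool.Agent.Helper133.OP.XFFmap
import Pool.Agent.Helper133.OP.XFFtendsto
import Pool.Agent.Helper133.OP.Xopultra
import Pool.Agent.Helper133.OP.Xexistswop
import Pool.Agent.Helper133.OP.XgapW
import Pool.Agent.Helper133.OP.XTGG1
import Pool.Agent.Helper133.OP.XTGG2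
import Pool.Agent.Helper133.OP.XTGtopcomm
import Pool.Agent.Helper133.OP.XTGtopest
import Pool.Agent.Helper133.OP.XTGfinalest
import Pool.Agent.Helper133.OP.XTGgametrue
import Pool.Agent.Helper133.OP.XTGnogame
import Pool.Agent.Helper133.OP.Xopgame

set_option autoImplicit false
set_option linter.unusedSectionVars false

open scoped Topology ComplexOrder
open Filter

namespace Pool.Agent.Helper133.OP

open Pool.Agent.Helper278 Pool.Agent.Helper436.SM

universe w

theorem fx : Fx :=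
  ⟨w3_facts.1, w3_facts.2.1, w3_facts.2.2.1, w3_facts.2.2.2.1, BB_left, BB_right⟩

theorem bdd_star' {A : Type} [CStarAlgebra A] {I : Type w} {x : I → A} (hx : CE.BddFam x) :
    CE.BddFam (fun i => star (x i)) := by
  obtain ⟨C, hC⟩ := hx
  exact ⟨C, fun i => by rw [norm_star]; exact hC i⟩

section

variable {H : Type} [NormedAddCommGroup H] [InnerProductSpace ℂ H] [CompleteSpace H]
variable {N : VonNeumannAlgebra H} {T : TracialState N}

/-- Star isomorphisms between tracial ultrapowers preserve the traces. -/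
theorem iso_trace_gen {B : Type} [CStarAlgebra B] {σ : B →ₗ[ℂ] ℂ} (hS : TrAlg σ)
    {I J : Type w} {U : Ultrafilter I} {V : Ultrafilter J} {P Q : Type w} [Ring P]
    [StarRing P] [Algebra ℂ P] [Ring Q] [StarRing Q] [Algebra ℂ Q]
    {π : (I → Elt N) → P} {φ : P → ℂ} {ρ : (J → B) → Q} {ψ : Q → ℂ}
    (hN : HasTrivialCenter N) (hinf : ¬ FiniteDimensional ℂ (Elt N))
    (h1 : CE.IsTracialUltrapower (fun x => T.τ x) U π φ)
    (h2 : CE.IsTracialUltrapower (fun x => σ x) V ρ ψ) (e : P ≃⋆ₐ[ℂ] Q) (x : P) :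
    ψ (e x) = φ x := by
  have hL : LyapProp T.τ := lyapProp T (diffuse_of_factor T hN hinf)
  have hadd : ∀ a b : Q, ψ (a + b) = ψ a + ψ b := by
    intro a b
    obtain ⟨x, hx, rfl⟩ := h2.quot.surj a
    obtain ⟨y, hy, rfl⟩ := h2.quot.surj b
    rw [← h2.quot.add x y hx hy]
    refine tendsto_nhds_unique (h2.trace _ (CE.bdd_add hx hy)) ?_
    refine ((h2.trace x hx).add (h2.trace y hy)).congr fun j => ?_
    exact (map_add σ _ _).symm
  have hsmul : ∀ (c : ℂ) (a : Q), ψ (c • a) = c * ψ a := by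
    intro c a
    obtain ⟨x, hx, rfl⟩ := h2.quot.surj a
    rw [← h2.quot.smul c x hx]
    refine tendsto_nhds_unique (h2.trace _ (CE.bdd_smul c hx)) ?_
    refine ((h2.trace x hx).const_mul c).congr fun j => ?_
    rw [map_smul, smul_eq_mul]
  have hmul : ∀ a b : Q, ψ (a * b) = ψ (b * a) := by
    intro a b
    obtain ⟨x, hx, rfl⟩ := h2.quot.surj a
    obtain ⟨y, hy, rfl⟩ := h2.quot.surj b
    rw [← h2.quot.mul x y hx hy, ← h2.quot.mul y x hy hx]
    refine tendsto_nhds_unique (h2.trace _ (CE.bdd_mul hx hy)) ?_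
    refine (h2.trace _ (CE.bdd_mul hy hx)).congr fun j => ?_
    exact hS.comm _ _
  have hone : ψ 1 = 1 := by
    rw [← h2.quot.one]
    refine tendsto_nhds_unique (h2.trace _ (CE.bdd_const 1)) ?_
    refine tendsto_const_nhds.congr fun j => ?_
    exact hS.one.symm
  have hpos : ∀ a : Q, 0 ≤ ψ (star a * a) := by
    intro a
    obtain ⟨x, hx, rfl⟩ := h2.quot.surj a
    have hx' := bdd_star' hx
    rw [← h2.quot.star x hx, ← h2.quot.mul _ _ hx' hx]
    refine ge_of_tendsto' (h2.trace _ (CE.bdd_mul hx' hx)) fun j => ?_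
    exact hS.nonneg _
  let χ : P →ₗ[ℂ] ℂ :=
    { toFun := fun x => ψ (e x)
      map_add' := fun x y => by rw [map_add, hadd]
      map_smul' := fun c x => by
        rw [map_smul, hsmul]
        rfl }
  have hχ : IsTr χ := by
    refine ⟨?_, ?_, ?_⟩
    · show ψ (e 1) = 1
      rw [map_one, hone]
    · intro x y
      show ψ (e (x * y)) = ψ (e (y * x))
      rw [map_mul, map_mul, hmul]
    · intro x
      show 0 ≤ ψ (e (star x * x))
      rw [map_mul, map_star]
      exact hpos _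
  exact TrUniq.trace_unique_gen h1 hL hN χ hχ x

/-- the trace on the opposite algebra -/
noncomputable def opL {A : Type*} [Ring A] [Algebra ℂ A] (τ : A →ₗ[ℂ] ℂ) : Aᵐᵒᵖ →ₗ[ℂ] ℂ :=
  τ ∘ₗ ((MulOpposite.opLinearEquiv ℂ).symm : Aᵐᵒᵖ ≃ₗ[ℂ] A).toLinearMap

theorem opL_apply {A : Type*} [Ring A] [Algebra ℂ A] (τ : A →ₗ[ℂ] ℂ) (x : Aᵐᵒᵖ) :
    opL τ x = τ (MulOpposite.unop x) := rfl

theorem trAlg_op {A : Type*} [Ring A] [StarRing A] [Algebra ℂ A] {τ : A →ₗ[ℂ] ℂ} (h : TrAlg τ) :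
    TrAlg (opL τ) where
  one := h.one
  comm x y := h.comm _ _
  nonneg x := by
    show 0 ≤ τ (MulOpposite.unop x * star (MulOpposite.unop x))
    rw [h.comm]
    exact h.nonneg _
  conj x := h.conj _
  faithful x hx := by
    have hx' : τ (MulOpposite.unop x * star (MulOpposite.unop x)) = 0 := hx
    rw [h.comm] at hx'
    exact MulOpposite.unop_injective (h.faithful _ hx')

end

section

variable {A : Type} [CStarAlgebra A] {σ : A → ℂ} {I : Type w} {U : Ultrafilter I} {Q : Type w}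
  [Ring Q] [StarRing Q] [Algebra ℂ Q] {π : (I → A) → Q} {φ : Q → ℂ}

theorem bdd_unit {x : I → A} (hx : ∀ i, x i ∈ unitary A) : CE.BddFam x := by
  refine ⟨1, fun i => ?_⟩
  rcases subsingleton_or_nontrivial A with h | h
  · rw [Subsingleton.elim (x i) 0, norm_zero]
    exact zero_le_one
  · exact (CStarRing.norm_of_mem_unitary (hx i)).le

theorem pi_unit (hπ : CE.IsTracialUltrapower σ U π φ) {x : I → A} (hx : ∀ i, x i ∈ unitary A) :
    π x ∈ unitary Q := by
  rw [Unitary.mem_iff]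
  have hb := bdd_unit hx
  constructor
  · rw [← hπ.quot.star x hb, ← hπ.quot.mul _ _ (bdd_star' hb) hb, ← hπ.quot.one]
    congr 1
    funext i
    exact (Unitary.mem_iff.1 (hx i)).1
  · rw [← hπ.quot.star x hb, ← hπ.quot.mul _ _ hb (bdd_star' hb), ← hπ.quot.one]
    congr 1
    funext i
    exact (Unitary.mem_iff.1 (hx i)).2

/-- the game passes between an algebra and its ultrapower -/
theorem game_transfer (hπ : CE.IsTracialUltrapower σ U π φ)
    (lift : ∀ q ∈ unitary Q, ∃ x : I → A, (∀ i, x i ∈ unitary A) ∧ π x = q) (c : ℂ) (ε ε' : ℝ)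
    (hε : ε < ε') : (Game σ c ε → Game φ c ε) ∧ (Game φ c ε → Game σ c ε') := by
  have key := Gq_transfer U π (fun x hx => pi_unit hπ hx) lift (fun x => ∀ k, FF σ c x k ≤ ε)
    (fun x => ∀ k, FF σ c x k ≤ ε') (fun x => ∀ k, FF φ c x k ≤ ε)
    (fun x hx h k => le_of_tendsto (FF_tendsto hπ c x hx k) (h.mono fun i hi => hi k))
    (fun x hx h => by
      rw [Filter.eventually_all]
      intro k
      exact ((FF_tendsto hπ c x hx k).eventually (gt_mem_nhds (lt_of_le_of_lt (h k) hε))).mono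
        fun i hi => hi.le) gl (fun _ _ => 1) (fun _ _ => one_mem _)
  have h1 : (fun j : Fin 10 => π ((fun (_ : Fin 10) (_ : I) => (1 : A)) j)) =
      (1 : Fin 10 → Q) := by
    funext j
    exact hπ.quot.one
  rw [h1] at key
  refine ⟨fun h => key.1 (Eventually.of_forall fun _ => h), fun h => ?_⟩
  obtain ⟨i, hi⟩ := (key.2 h).exists
  exact hi

end

/-- `M` is not elementarily equivalent to `M^op`. -/
theorem not_equiv {H : Type} [NormedAddCommGroup H] [InnerProductSpace ℂ H] [CompleteSpace H]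
    {N : VonNeumannAlgebra H} {T : TracialState N} {v : SG → Elt N} (hv : TG T.τ v)
    (hK : Kap T.τ v) (hN : HasTrivialCenter N) (hinf : ¬ FiniteDimensional ℂ (Elt N)) :
    ¬ ElemEquiv.{w} (fun x : Elt N => T.τ x)
      (fun x : (Elt N)ᵐᵒᵖ => T.τ (MulOpposite.unop x)) := by
  rintro ⟨I, J, U, V, P, Q, _, _, _, _, _, _, π, φ, ρ, ψ, h1, h2, ⟨e⟩⟩
  have hG1 : ∀ (W : Finset ℕ) (x : Elt N), _ := fun W x => TG.G1 hv gapW W x
  have hG2 : ∀ (N₀ : ℕ) (_ : 0 < N₀) (x : Elt N), _ := fun N₀ h x => TG.G2 hv hG1 N₀ h x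
  have htc : ∀ (m : ℕ) (g : SG) (_ : ∀ n, m ≤ n → g.1 n = 1), _ :=
    fun m g hg => TG.top_comm hv m g hg
  have g1 : Game (fun x : Elt N => T.τ x) (w3 1) (1 / 4000) :=
    TG.game_true hv htc (fun r F m δ hF hr => TG.top_est hv r F m δ hF hr (htc m))
      (fun x => hG2 1 one_pos x) (1 / 4000) (by norm_num)
  have g2 : Game φ (w3 1) (1 / 4000) :=
    (game_transfer h1 (fun q hq => exists_lift h1 q hq) (w3 1) (1 / 4000) (1 / 2000)
      (by norm_num)).1 g1
  have hiso : ∀ x, ψ (e x) = φ x :=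
    iso_trace_gen (σ := opL T.τ) (trAlg_op (trAlg T)) hN hinf h1 h2 e
  have g3 : Game ψ (w3 1) (1 / 4000) := by
    have := Gq_map e (fun x => ∀ k, FF φ (w3 1) x k ≤ 1 / 4000)
      (fun x => ∀ k, FF ψ (w3 1) x k ≤ 1 / 4000)
      (fun x hx k => by rw [FF_map e φ ψ hiso]; exact hx k) gl 1 g2
    have h1 : (fun j : Fin 10 => e ((1 : Fin 10 → P) j)) = (1 : Fin 10 → Q) := by
      funext j
      exact map_one e
    rw [h1] at this
    exact this
  have h3 := op_ultra (σ := fun x : Elt N => T.τ x) (fun x y => (trAlg T).comm x y) h2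
  have hlift : ∀ q ∈ unitary Q, ∃ x : J → (Elt N)ᵐᵒᵖ, (∀ i, x i ∈ unitary (Elt N)ᵐᵒᵖ) ∧
      ρ x = q := by
    intro q hq
    have hq' : MulOpposite.op q ∈ unitary Qᵐᵒᵖ := by
      rw [Unitary.mem_iff] at hq ⊢
      exact ⟨MulOpposite.unop_injective hq.2, MulOpposite.unop_injective hq.1⟩
    obtain ⟨x, hx, hxq⟩ := exists_lift h3 _ hq'
    refine ⟨fun j => MulOpposite.op (x j), fun j => ?_, ?_⟩
    · have := hx j
      rw [Unitary.mem_iff] at this ⊢
      exact ⟨MulOpposite.unop_injective this.2, MulOpposite.unop_injective this.1⟩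
    · exact MulOpposite.op_injective hxq
  have g4 : Game (A := (Elt N)ᵐᵒᵖ) (fun x => T.τ (MulOpposite.unop x)) (w3 1) (1 / 1000) :=
    (game_transfer h2 hlift (w3 1) (1 / 4000) (1 / 1000) (by norm_num)).2 g3
  exact op_game (trAlg T) (w3 1) (1 / 1000) (fun p hp => TG.no_game hv hK hG1
    (fun N₀ h x => hG2 N₀ h x)
    (fun D u u' uf u0 hu hu' δ η ρ ε h1 h2 h3 h4 h5 h6 =>
      TG.final_est hv D u u' uf u0 hu hu' δ η ρ ε h1 h2 h3 h4 h5 h6) p hp) g4

theorem wop_all {K : Type} [NormedAddCommGroup K] [InnerProductSpace ℂ K] [CompleteSpace K]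
    (b : HilbertBasis SG ℂ K) : Wop b := fun w hw e => exists_wop b w hw e

/-- the factor -/
theorem main_op : ∃ (H : Type) (_ : NormedAddCommGroup H) (_ : InnerProductSpace ℂ H)
    (_ : CompleteSpace H) (M : VonNeumannAlgebra H) (τ : Elt M → ℂ), IsIIOneFactor M τ ∧
      ¬ ElemEquiv.{w} τ (fun x : (Elt M)ᵐᵒᵖ => τ (MulOpposite.unop x)) := by
  let b : HilbertBasis SG ℂ (lp (fun _ : SG => ℂ) 2) := default
  have hb : Wop b := wop_all b
  have hv : TG (TT fx hb).τ (LaT fx hb) := tg_LT fx hb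
  have hf := TG.facts hv BB_left BB_right fx.w0 fx.wadd
  have hK : Kap (TT fx hb).τ (LaT fx hb) := by
    refine kap_LT fx hb fun x δ hδ => ?_
    obtain ⟨F, -, hF⟩ := TG.fin_approx hv hf.2 x ∅ δ hδ
    refine ⟨F, hF.trans (le_of_eq ?_)⟩
    have h0 : mD (TT fx hb).τ (LaT fx hb) ∅ x = 0 := by
      unfold mD
      simp
    rw [h0, zero_add]
  exact ⟨_, _, _, _, LT b, fun x => (TT fx hb).τ x, isIIOne_LT fx hb icc_SG.1 icc_SG.2,
    not_equiv hv hK (center_LT fx hb icc_SG.2) (infinite_LT fx hb icc_SG.1)⟩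

end Pool.Agent.Helper133.OP
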