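import Mathlib
import Pool.Agent.Helper278.DefsG
import Pool.Agent.Helper278.CEStmt
import Pool.Agent.Helper436.SM.Stmt

set_option autoImplicit false

namespace Pool.Agent.Helper133.OP

/-- The trace of the opposite algebra: `A^op` is the star algebra `Aᵐᵒᵖ` (the same vector space,
involution and norm as `A`, with the product `a ⬝ b = b a`), and its trace is the trace `τ` of
`A`. -/
def opTrace {A : Type} (τ : A → ℂ) : Aᵐᵒᵖ → ℂ := fun x => τ (MulOpposite.unop x)

end Pool.Agent.Helper133.OP
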