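import Mathlib
import Pool.Agent.Helper133.OP.Leaf

set_option autoImplicit false
set_option linter.unusedSectionVars false
set_option linter.unusedVariables false

open scoped ComplexConjugate
open Pool.Agent.Helper278

namespace Pool.Agent.Helper133.OP

open scoped Topology
open Filter

section

variable {A : Type*} [Ring A] [StarRing A] [Algebra ℂ A] [StarModule ℂ A] {τ : A →ₗ[ℂ] ℂ}
  {v : SG → A}

theorem TG.G2 (h : TG τ v) (hG1 : ∀ (W : Finset ℕ) (x : A),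
    mD τ v {g | ∃ n ∈ W, g.1 n ≠ 1} x ≤
      9 * (n2 τ (x * v (dl W (FreeGroup.of 1)) - v (dl W (FreeGroup.of 1)) * x) +
        n2 τ (x * v (dl W (FreeGroup.of 2)) - v (dl W (FreeGroup.of 2)) * x)))
    (N₀ : ℕ) (hN₀ : 0 < N₀) (x : A) :
    mD τ v {g | ¬ ((∀ n, n < N₀ → g.1 n = 1) ∧ qq g = 0)} x ≤
      9 * (n2 τ (x * v (dl (Finset.range N₀) (FreeGroup.of 1)) -
          v (dl (Finset.range N₀) (FreeGroup.of 1)) * x) +
        n2 τ (x * v (dl (Finset.range N₀) (FreeGroup.of 2)) -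
          v (dl (Finset.range N₀) (FreeGroup.of 2)) * x) +
        n2 τ (x * v (dl {0} (FreeGroup.of 0)) - v (dl {0} (FreeGroup.of 0)) * x)) := by
  obtain ⟨w0, wadd, wnorm, wconj, w1, w2, whw⟩ := w3_facts
  have hu := (TG.facts h BB_left BB_right w0 wadd).1
  obtain ⟨m1, m2, m3, m4, m5⟩ := TG.mD_facts h
  have hqa : qq (dl {0} (FreeGroup.of 0)) = 1 := by
    rw [qq_dl, chg_of, if_pos rfl]
  have hcg := TG.charge_gap h hu w0 wadd wconj BB_low BB_high hqa whw x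
  have hG := hG1 (Finset.range N₀) x
  have hsub : {g : SG | ¬ ((∀ n, n < N₀ → g.1 n = 1) ∧ qq g = 0)} ⊆
      {g : SG | ∃ n ∈ Finset.range N₀, g.1 n ≠ 1} ∪ {g : SG | g.1 0 = 1 ∧ qq g ≠ 0} := by
    intro g hg
    by_cases hall : ∀ n, n < N₀ → g.1 n = 1
    · right
      exact ⟨hall 0 hN₀, fun hq => hg ⟨hall, hq⟩⟩
    · left
      push Not at hall
      obtain ⟨n, hn, hne⟩ := hall
      exact ⟨n, Finset.mem_range.mpr hn, hne⟩
  have h1 := (m4 _ _ x hsub).trans (m5 _ _ x)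
  have h2 : 0 ≤ mD τ v {g | g.1 0 = 1 ∧ qq g ≠ 0} x := Real.sqrt_nonneg _
  linarith


end

end Pool.Agent.Helper133.OP
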