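import Mathlib
import Pool.Agent.Helper133.OP.Defs

set_option autoImplicit false
set_option linter.unusedSectionVars false
set_option linter.unusedVariables false

open scoped ComplexConjugate
open Pool.Agent.Helper278

namespace Pool.Agent.Helper133.OP



open scoped Topology
open Filter

section

variable {A : Type*} [Ring A] [StarRing A] [Algebra ℂ A] [StarModule ℂ A] {τ : A →ₗ[ℂ] ℂ}
  {v : SG → A}

theorem TG.facts (h : TG τ v) (hl : ∀ x x' y : SG, BB (x * x') y = BB x y + BB x' y)
    (hr : ∀ x y y' : SG, BB x (y * y') = BB x y + BB x y') (w3_0 : w3 0 = 1)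
    (w3_add : ∀ a b : ZMod 3, w3 (a + b) = w3 a * w3 b) :
    (∀ g, v g ∈ unitary A) ∧ Orth τ v := by
  have b1 : ∀ g : SG, BB 1 g = 0 := by
    intro g
    have := hl 1 1 g
    rw [one_mul] at this
    linear_combination -this
  have b1' : ∀ g : SG, BB g 1 = 0 := by
    intro g
    have := hr g 1 1
    rw [one_mul] at this
    linear_combination -this
  have b2 : ∀ g : SG, BB g g + BB g⁻¹ g = 0 := by
    intro g
    rw [← hl, mul_inv_cancel, b1]
  have b3 : ∀ g : SG, BB g g + BB g g⁻¹ = 0 := by
    intro g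
    rw [← hr, mul_inv_cancel, b1']
  have c1 : ∀ g, star (v g) * v g = 1 := by
    intro g
    rw [h.star_v, smul_mul_assoc, h.mul, smul_smul, ← w3_add, b2, w3_0, one_smul, inv_mul_cancel,
      h.one]
  have c2 : ∀ g, v g * star (v g) = 1 := by
    intro g
    rw [h.star_v, mul_smul_comm, h.mul, smul_smul, ← w3_add, b3, w3_0, one_smul, mul_inv_cancel,
      h.one]
  refine ⟨fun g => ⟨c1 g, c2 g⟩, fun g => ?_, fun g k hgk => ?_⟩
  · rw [c1, h.tr.one]
  · rw [h.star_v, smul_mul_assoc, h.mul, map_smul, map_smul, h.tau_v, smul_zero, smul_zero]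
    intro h1
    exact hgk (inv_mul_eq_one.1 h1)

end

end Pool.Agent.Helper133.OP
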